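import Mathlib

set_option autoImplicit false

namespace Pool.Agent.Work.MP_70e905_nt

open Finset

/-- `n ↦ n^(-s)` as a monoid homomorphism. -/
noncomputable def powHom (s : ℝ) : ℕ →* ℝ where
  toFun n := (n : ℝ) ^ (-s)
  map_one' := by simp
  map_mul' a b := by push_cast; rw [Real.mul_rpow (Nat.cast_nonneg _) (Nat.cast_nonneg _)]

lemma powHom_apply (s : ℝ) (n : ℕ) : powHom s n = (n : ℝ) ^ (-s) := rfl

lemma powHom_nonneg (s : ℝ) (n : ℕ) : 0 ≤ powHom s n := by
  rw [powHom_apply]; positivity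

lemma powHom_prime_lt_one {s : ℝ} (hs : 0 < s) {p : ℕ} (hp : p.Prime) : ‖powHom s p‖ < 1 := by
  rw [Real.norm_of_nonneg (powHom_nonneg _ _), powHom_apply]
  exact Real.rpow_lt_one_of_one_lt_of_neg (by exact_mod_cast hp.one_lt) (by linarith)

/-- Sums of `m^(-s)` over smooth numbers in a finite set are bounded by the Euler product. -/
lemma sum_smooth_le {s : ℝ} (hs : 0 < s) (N : ℕ) (A : Finset ℕ) (hA : ∀ m ∈ A, m ∈ N.smoothNumbers) :
    ∑ m ∈ A, (m : ℝ) ^ (-s) ≤ ∏ p ∈ N.primesBelow, (1 - (p : ℝ) ^ (-s))⁻¹ := by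
  have h := (EulerProduct.summable_and_hasSum_smoothNumbers_prod_primesBelow_geometric
    (f := powHom s) (fun {p} hp => powHom_prime_lt_one hs hp) N).2
  have h2 : HasSum (Set.indicator (N.smoothNumbers) (fun m => powHom s m))
      (∏ p ∈ N.primesBelow, (1 - powHom s p)⁻¹) := by
    rw [← hasSum_subtype_iff_indicator]
    exact h
  have h3 := sum_le_hasSum A (fun m _ => Set.indicator_nonneg (fun m _ => powHom_nonneg s m) m) h2
  calc ∑ m ∈ A, (m : ℝ) ^ (-s) = ∑ m ∈ A, Set.indicator (N.smoothNumbers) (fun m => powHom s m) m := by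
        apply Finset.sum_congr rfl
        intro m hm
        rw [Set.indicator_of_mem (hA m hm), powHom_apply]
    _ ≤ _ := h3

/-- Upper bound for the Mertens product. -/
lemma prod_primesBelow_le (N : ℕ) (hN : 2 ≤ N) :
    ∏ p ∈ N.primesBelow, (1 - 1 / (p : ℝ)) ≤ 1 / Real.log N := by
  have hlog : 0 < Real.log N := Real.log_pos (by exact_mod_cast hN)
  have h1 : Real.log N ≤ ∏ p ∈ N.primesBelow, (1 - 1 / (p : ℝ))⁻¹ := by
    have h2 := sum_smooth_le (s := 1) one_pos N (Finset.Icc 1 (N - 1)) (by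
      intro m hm
      rw [Finset.mem_Icc] at hm
      exact Nat.mem_smoothNumbers_of_lt (by omega) (by omega))
    have h3 : (harmonic (N - 1) : ℝ) = ∑ m ∈ Finset.Icc 1 (N - 1), (m : ℝ) ^ (-(1:ℝ)) := by
      rw [harmonic_eq_sum_Icc]
      push_cast
      apply Finset.sum_congr rfl
      intro m hm
      rw [Real.rpow_neg_one]
    have h4 := log_add_one_le_harmonic (N - 1)
    have h5 : ((N - 1 + 1 : ℕ) : ℝ) = N := by
      congr 1; omega
    rw [h5, h3] at h4
    refine h4.trans (h2.trans (le_of_eq ?_))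
    apply Finset.prod_congr rfl
    intro p hp
    rw [Real.rpow_neg_one, one_div]
  have hpos : 0 < ∏ p ∈ N.primesBelow, (1 - 1 / (p : ℝ)) := by
    apply Finset.prod_pos
    intro p hp
    have hp2 : (2:ℝ) ≤ p := by exact_mod_cast (Nat.prime_of_mem_primesBelow hp).two_le
    have : 1 / (p:ℝ) ≤ 1 / 2 := one_div_le_one_div_of_le (by norm_num) hp2
    linarith
  rw [Finset.prod_inv_distrib] at h1
  rw [le_div_iff₀ hlog]
  have h6 := mul_le_mul_of_nonneg_left h1 hpos.le
  rw [mul_inv_cancel₀ hpos.ne'] at h6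
  exact h6

/-- Upper bound for the sum of reciprocals of primes up to a power of two. -/
lemma sum_inv_primes_pow_two (J : ℕ) (hJ : 1 ≤ J) :
    ∑ p ∈ Nat.primesBelow (2 ^ J + 1), 1 / (p : ℝ) ≤ 1 / 2 + 4 * ∑ j ∈ Finset.Ico 1 J, 1 / (j : ℝ) := by
  induction J, hJ using Nat.le_induction with
  | base =>
    have : Nat.primesBelow (2 ^ 1 + 1) = {2} := by decide
    rw [this]; simp
  | succ J hJ ih =>
    have hsub : Nat.primesBelow (2 ^ J + 1) ⊆ Nat.primesBelow (2 ^ (J + 1) + 1) := by
      intro p hp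
      rw [Nat.mem_primesBelow] at hp ⊢
      have : 2 ^ J ≤ 2 ^ (J + 1) := Nat.pow_le_pow_right (by norm_num) (by omega)
      exact ⟨by omega, hp.2⟩
    rw [← Finset.sum_sdiff hsub]
    have hblock : ∑ p ∈ Nat.primesBelow (2 ^ (J + 1) + 1) \ Nat.primesBelow (2 ^ J + 1), 1 / (p : ℝ) ≤
        4 * (1 / (J : ℝ)) := by
      have hJpos : (0:ℝ) < J := by exact_mod_cast (by omega : 0 < J)
      have hlog2 : 0 < Real.log 2 := Real.log_pos (by norm_num)
      have hterm : ∀ p ∈ Nat.primesBelow (2 ^ (J + 1) + 1) \ Nat.primesBelow (2 ^ J + 1),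
          1 / (p : ℝ) ≤ Real.log p / (2 ^ J * (J * Real.log 2)) := by
        intro p hp
        rw [Finset.mem_sdiff, Nat.mem_primesBelow, Nat.mem_primesBelow] at hp
        have hp1 : 2 ^ J < p := by
          by_contra hcon
          exact hp.2 ⟨by omega, hp.1.2⟩
        have hpR : (2:ℝ) ^ J < p := by exact_mod_cast hp1
        have hppos : (0:ℝ) < p := lt_trans (by positivity) hpR
        have hlogp : J * Real.log 2 ≤ Real.log p := by
          rw [← Real.log_pow]
          exact Real.log_le_log (by positivity) hpR.le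
        rw [div_le_div_iff₀ hppos (by positivity)]
        have h1 : (2:ℝ) ^ J * (J * Real.log 2) ≤ p * Real.log p :=
          mul_le_mul hpR.le hlogp (by positivity) hppos.le
        linarith
      refine (Finset.sum_le_sum hterm).trans ?_
      rw [← Finset.sum_div]
      have h2 : ∑ p ∈ Nat.primesBelow (2 ^ (J + 1) + 1) \ Nat.primesBelow (2 ^ J + 1), Real.log (p:ℝ) ≤
          Real.log 4 * 2 ^ (J + 1) := by
        have h3 := Chebyshev.theta_le_log4_mul_x (x := ((2 ^ (J + 1) : ℕ) : ℝ)) (by positivity)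
        rw [Chebyshev.theta_eq_sum_primesLE_log] at h3
        push_cast at h3
        refine le_trans ?_ h3
        apply Finset.sum_le_sum_of_subset_of_nonneg
        · exact Finset.sdiff_subset
        · intro p _ _
          exact Real.log_natCast_nonneg p
      have h4 : Real.log 4 = 2 * Real.log 2 := by
        rw [show (4:ℝ) = 2 ^ 2 by norm_num, Real.log_pow]; norm_num
      rw [h4] at h2
      rw [div_le_iff₀ (by positivity)]
      refine h2.trans (le_of_eq ?_)
      field_simp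
      ring
    rw [Finset.sum_Ico_succ_top hJ, mul_add]
    linarith

/-- A crude form of Mertens' theorem. -/
lemma sum_inv_primes_le (N : ℕ) (hN : 3 ≤ N) :
    ∑ p ∈ N.primesBelow, 1 / (p : ℝ) ≤ 9 + 4 * Real.log (Real.log N) := by
  -- choose J with 2^(J-1) < N ≤ 2^J
  set J := Nat.clog 2 N with hJ
  have hJ1 : 1 ≤ J := Nat.clog_pos (by norm_num) (by omega)
  have hN2 : N ≤ 2 ^ J := Nat.le_pow_clog (by norm_num) _
  have hsub : N.primesBelow ⊆ Nat.primesBelow (2 ^ J + 1) := by
    intro p hp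
    rw [Nat.mem_primesBelow] at hp ⊢
    exact ⟨by omega, hp.2⟩
  have h1 : ∑ p ∈ N.primesBelow, 1 / (p : ℝ) ≤ ∑ p ∈ Nat.primesBelow (2 ^ J + 1), 1 / (p : ℝ) := by
    apply Finset.sum_le_sum_of_subset_of_nonneg hsub
    intro p _ _; positivity
  have h2 := sum_inv_primes_pow_two J hJ1
  have hJ2 : 2 ≤ J := by
    by_contra hcon
    have : J = 1 := by omega
    rw [this] at hN2
    omega
  have h3 : ∑ j ∈ Finset.Ico 1 J, 1 / (j : ℝ) ≤ 1 + Real.log (J - 1 : ℕ) := by
    have h4 := harmonic_le_one_add_log (J - 1)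
    rw [harmonic_eq_sum_Icc] at h4
    push_cast at h4
    have h5 : Finset.Ico 1 J = Finset.Icc 1 (J - 1) := by
      ext j; simp only [Finset.mem_Ico, Finset.mem_Icc]; omega
    rw [h5]
    refine le_trans (le_of_eq ?_) h4
    apply Finset.sum_congr rfl
    intro j _; rw [one_div]
  -- J - 1 ≤ log N / log 2
  have h6 : 2 ^ (J - 1) < N := by
    have := Nat.pow_pred_clog_lt_self (b := 2) (by norm_num) (x := N) (by omega)
    simpa [hJ] using this
  have h7 : ((J - 1 : ℕ) : ℝ) * Real.log 2 ≤ Real.log N := by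
    rw [← Real.log_pow]
    apply Real.log_le_log (by positivity)
    exact_mod_cast h6.le
  have hlog2 : 0.6931471803 < Real.log 2 := Real.log_two_gt_d9
  have hJm : (1:ℝ) ≤ ((J - 1 : ℕ) : ℝ) := by exact_mod_cast (by omega : 1 ≤ J - 1)
  have hlogN : 0 < Real.log N := Real.log_pos (by exact_mod_cast (by omega : 1 < N))
  have h8 : Real.log ((J - 1 : ℕ) : ℝ) ≤ Real.log (Real.log N) + 1 := by
    have h9 : ((J - 1 : ℕ) : ℝ) ≤ Real.log N * Real.exp 1 := by
      have h10 : (2:ℝ) ≤ Real.exp 1 := by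
        have := Real.add_one_le_exp (1:ℝ); linarith
      have h11 : ((J - 1 : ℕ) : ℝ) ≤ Real.log N * 2 := by nlinarith
      nlinarith
    calc Real.log ((J - 1 : ℕ) : ℝ) ≤ Real.log (Real.log N * Real.exp 1) :=
          Real.log_le_log (by linarith) h9
      _ = Real.log (Real.log N) + 1 := by
          rw [Real.log_mul hlogN.ne' (Real.exp_pos 1).ne', Real.log_exp]
  linarith

end Pool.Agent.Work.MP_70e905_nt
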