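import Mathlib

set_option autoImplicit false

namespace Pool.Agent.Work.MP_70e905_nt

open Finset

/-- Chinese remainder theorem in a window. -/
lemma exists_crt_window (S : Finset ℕ) (hpos : ∀ l ∈ S, 0 < l)
    (hS : Set.Pairwise (S : Set ℕ) (Function.onFun Nat.Coprime id)) (t : ℕ → ℕ) (N : ℕ) :
    ∃ n, N < n ∧ n ≤ N + 2 * ∏ l ∈ S, l ∧ ∀ l ∈ S, l ∣ n + t l := by
  classical
  set P := ∏ l ∈ S, l with hP
  have hPpos : 0 < P := Finset.prod_pos hpos
  let x := Nat.chineseRemainderOfFinset (fun l => l - t l % l) id S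
    (fun l hl => (hpos l hl).ne') hS
  have hx : ∀ l ∈ S, (x : ℕ) ≡ (l - t l % l) [MOD l] := x.2
  refine ⟨(x : ℕ) % P + P * (N / P + 1), ?_, ?_, ?_⟩
  · have h1 : N < P * (N / P + 1) := Nat.lt_mul_div_succ N hPpos
    omega
  · have h1 : (x : ℕ) % P < P := Nat.mod_lt _ hPpos
    have h2 : P * (N / P) ≤ N := Nat.mul_div_le N P
    rw [Nat.mul_add]
    omega
  · intro l hl
    have hlP : l ∣ P := Finset.dvd_prod_of_mem _ hl
    have hl0 := hpos l hl
    have h1 : ((x : ℕ) % P + P * (N / P + 1)) ≡ (l - t l % l) [MOD l] := by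
      have h2 : (x : ℕ) % P ≡ (x : ℕ) [MOD l] := (Nat.mod_modEq _ _).of_dvd hlP
      have h3 : P * (N / P + 1) ≡ 0 [MOD l] :=
        (Nat.modEq_zero_iff_dvd).2 (hlP.mul_right _)
      have h4 := Nat.ModEq.add h2 h3
      rw [Nat.add_zero] at h4
      exact h4.trans (hx l hl)
    have h5 : (x : ℕ) % P + P * (N / P + 1) + t l ≡ (l - t l % l) + t l [MOD l] :=
      Nat.ModEq.add_right _ h1
    have h6 : (l - t l % l) + t l ≡ 0 [MOD l] := by
      have h7 : t l % l < l := Nat.mod_lt _ hl0
      have h8 : (l - t l % l) + t l = l * (1 + t l / l) := by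
        have h9 := Nat.div_add_mod (t l) l
        rw [Nat.mul_add, Nat.mul_one]
        omega
      rw [h8]
      exact (Nat.modEq_zero_iff_dvd).2 (dvd_mul_right _ _)
    exact (Nat.modEq_zero_iff_dvd).1 (h5.trans h6)

/-- Greedy choice of one residue class for each modulus. -/
lemma exists_greedy (R : Finset ℕ) (S : Finset ℕ) (hpos : ∀ l ∈ S, 0 < l) :
    ∃ a : ℕ → ℕ, ((R.filter (fun q => ∀ l ∈ S, ¬ q ≡ a l [MOD l])).card : ℝ) ≤
      R.card * ∏ l ∈ S, (1 - 1 / (l : ℝ)) := by
  classical
  induction S using Finset.induction_on with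
  | empty => exact ⟨fun _ => 0, by simp⟩
  | insert l S hl ih =>
    obtain ⟨a, ha⟩ := ih (fun m hm => hpos m (Finset.mem_insert_of_mem hm))
    have hl0 : 0 < l := hpos l (Finset.mem_insert_self _ _)
    set R' := R.filter (fun q => ∀ m ∈ S, ¬ q ≡ a m [MOD m]) with hR'
    -- pigeonhole
    have hsum : ∑ c ∈ Finset.range l, (R'.filter (fun q => q % l = c)).card = R'.card := by
      rw [← Finset.card_eq_sum_card_fiberwise]
      intro q hq
      simp only [Finset.coe_range, Set.mem_Iio]
      exact Nat.mod_lt _ hl0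
    have hex : ∃ c ∈ Finset.range l, (R'.card : ℝ) / l ≤ ((R'.filter (fun q => q % l = c)).card : ℝ) := by
      by_contra hcon
      push Not at hcon
      have hne : (Finset.range l).Nonempty := ⟨0, Finset.mem_range.2 hl0⟩
      have h1 : ∑ c ∈ Finset.range l, ((R'.filter (fun q => q % l = c)).card : ℝ) <
          ∑ c ∈ Finset.range l, (R'.card : ℝ) / l := Finset.sum_lt_sum_of_nonempty hne hcon
      rw [Finset.sum_const, Finset.card_range, nsmul_eq_mul,
        mul_div_cancel₀ _ (by positivity : (l : ℝ) ≠ 0)] at h1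
      have h2 : ∑ c ∈ Finset.range l, ((R'.filter (fun q => q % l = c)).card : ℝ) = R'.card := by
        exact_mod_cast hsum
      rw [h2] at h1
      exact lt_irrefl _ h1
    obtain ⟨c, hc, hcard⟩ := hex
    rw [Finset.mem_range] at hc
    refine ⟨Function.update a l c, ?_⟩
    have hsub : R.filter (fun q => ∀ m ∈ insert l S, ¬ q ≡ Function.update a l c m [MOD m]) ⊆
        R'.filter (fun q => ¬ q % l = c) := by
      intro q hq
      rw [Finset.mem_filter] at hq
      rw [Finset.mem_filter, hR', Finset.mem_filter]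
      refine ⟨⟨hq.1, ?_⟩, ?_⟩
      · intro m hm
        have hml : m ≠ l := fun h => hl (h ▸ hm)
        have := hq.2 m (Finset.mem_insert_of_mem hm)
        rwa [Function.update_of_ne hml] at this
      · intro h
        have := hq.2 l (Finset.mem_insert_self _ _)
        rw [Function.update_self] at this
        apply this
        unfold Nat.ModEq
        rw [h, Nat.mod_eq_of_lt hc]
    have h3 : ((R'.filter (fun q => ¬ q % l = c)).card : ℝ) =
        R'.card - (R'.filter (fun q => q % l = c)).card := by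
      have := Finset.card_filter_add_card_filter_not (s := R') (fun q => q % l = c)
      have h4 : ((R'.filter (fun q => q % l = c)).card : ℝ) +
        ((R'.filter (fun q => ¬ q % l = c)).card : ℝ) = R'.card := by exact_mod_cast this
      linarith
    have h5 : ((R.filter (fun q => ∀ m ∈ insert l S, ¬ q ≡ Function.update a l c m [MOD m])).card : ℝ)
        ≤ ((R'.filter (fun q => ¬ q % l = c)).card : ℝ) := by
      exact_mod_cast Finset.card_le_card hsub
    have h6 : (0:ℝ) ≤ 1 - 1 / (l : ℝ) := by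
      have : (1:ℝ) ≤ l := by exact_mod_cast hl0
      have h7 : 1 / (l:ℝ) ≤ 1 := by
        rw [div_le_one (by positivity)]; exact this
      linarith
    calc ((R.filter (fun q => ∀ m ∈ insert l S, ¬ q ≡ Function.update a l c m [MOD m])).card : ℝ)
        ≤ R'.card - (R'.filter (fun q => q % l = c)).card := by rw [← h3]; exact h5
      _ ≤ R'.card - (R'.card : ℝ) / l := by linarith
      _ = R'.card * (1 - 1 / (l:ℝ)) := by ring
      _ ≤ (R.card * ∏ m ∈ S, (1 - 1 / (m : ℝ))) * (1 - 1 / (l:ℝ)) :=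
          mul_le_mul_of_nonneg_right ha h6
      _ = R.card * ∏ m ∈ insert l S, (1 - 1 / (m : ℝ)) := by
          rw [Finset.prod_insert hl]; ring

/-- The covering lemma: medium primes use the class `1`, small primes are used greedily,
large primes are used one by one. -/
lemma cover (R S1 S2 S3 : Finset ℕ) (h1 : ∀ l ∈ S1, l.Prime) (h2 : ∀ l ∈ S2, l.Prime)
    (h3 : ∀ l ∈ S3, l.Prime) (h12 : Disjoint S1 S2) (h13 : Disjoint S1 S3) (h23 : Disjoint S2 S3)
    (M b : ℕ) (hM : 0 < M) (hMc : ∀ l ∈ S1 ∪ S2 ∪ S3, Nat.Coprime M l)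
    (hcard : ((R.filter (fun q => ∀ l ∈ S2, ¬ q ≡ 1 [MOD l])).card : ℝ) *
      ∏ l ∈ S1, (1 - 1 / (l : ℝ)) ≤ S3.card) (N : ℕ) :
    ∃ n, N < n ∧ n ≤ N + 2 * (M * ∏ l ∈ S1 ∪ S2 ∪ S3, l) ∧ M ∣ n + b ∧
      ∀ q ∈ R, ∃ l ∈ S1 ∪ S2 ∪ S3, l ∣ n + q := by
  classical
  set R2 := R.filter (fun q => ∀ l ∈ S2, ¬ q ≡ 1 [MOD l]) with hR2
  obtain ⟨a, ha⟩ := exists_greedy R2 S1 (fun l hl => (h1 l hl).pos)
  set R3 := R2.filter (fun q => ∀ l ∈ S1, ¬ q ≡ a l [MOD l]) with hR3
  have hle : R3.card ≤ S3.card := by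
    have : (R3.card : ℝ) ≤ S3.card := ha.trans hcard
    exact_mod_cast this
  -- injection from R3 to S3
  obtain ⟨T, hTS, hTcard⟩ := Finset.exists_subset_card_eq hle
  have hbij := Finset.equivOfCardEq hTcard
  set S := S1 ∪ S2 ∪ S3 with hS
  have hSp : ∀ l ∈ S, l.Prime := by
    intro l hl
    rcases Finset.mem_union.1 hl with h | h
    · rcases Finset.mem_union.1 h with h | h
      · exact (h1 l h)
      · exact (h2 l h)
    · exact (h3 l h)
  have hMS : M ∉ S := by
    intro h
    have h4 := hMc M h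
    rw [Nat.coprime_self] at h4
    exact (hSp M h).one_lt.ne' h4
  -- target function
  set t : ℕ → ℕ := fun l => if l = M then b else
    if hlT : l ∈ T then ((hbij ⟨l, hlT⟩ : R3) : ℕ) else
    if l ∈ S1 then a l else 1 with ht
  obtain ⟨n, hn1, hn2, hn3⟩ := exists_crt_window (insert M S)
    (fun l hl => by
      rcases Finset.mem_insert.1 hl with h | h
      · rw [h]; exact hM
      · exact (hSp l h).pos)
    (by
      intro l hl m hm hlm
      rcases Finset.mem_insert.1 (Finset.mem_coe.1 hl) with h | h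
      · rcases Finset.mem_insert.1 (Finset.mem_coe.1 hm) with h' | h'
        · exact absurd (h.trans h'.symm) hlm
        · rw [h]; exact hMc m h'
      · rcases Finset.mem_insert.1 (Finset.mem_coe.1 hm) with h' | h'
        · rw [h']; exact (hMc l h).symm
        · exact (Nat.coprime_primes (hSp l h) (hSp m h')).2 hlm) t N
  have hneM : ∀ l ∈ S, l ≠ M := fun l hl h => hMS (h ▸ hl)
  rw [Finset.prod_insert hMS] at hn2
  refine ⟨n, hn1, hn2, ?_, ?_⟩
  · have h5 := hn3 M (Finset.mem_insert_self _ _)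
    have htM : t M = b := by rw [ht]; simp
    rwa [htM] at h5
  intro q hq
  by_cases hq2 : q ∈ R2
  · by_cases hq3 : q ∈ R3
    · -- one by one
      set l := hbij.symm ⟨q, hq3⟩ with hl
      have hlT : (l : ℕ) ∈ T := l.2
      have hlS : (l : ℕ) ∈ S := Finset.mem_union_right _ (hTS hlT)
      refine ⟨l, hlS, ?_⟩
      have := hn3 l (Finset.mem_insert_of_mem hlS)
      have htl : t l = q := by
        rw [ht]
        simp only [hneM _ hlS, if_false, hlT, dif_pos]
        have : hbij ⟨l, hlT⟩ = ⟨q, hq3⟩ := by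
          have h5 : (⟨(l : ℕ), hlT⟩ : T) = hbij.symm ⟨q, hq3⟩ := rfl
          rw [h5, Equiv.apply_symm_apply]
        rw [this]
      rwa [htl] at this
    · -- greedy
      rw [hR3, Finset.mem_filter] at hq3
      push Not at hq3
      obtain ⟨l, hl, hql⟩ := hq3 hq2
      have hlS : l ∈ S := Finset.mem_union_left _ (Finset.mem_union_left _ hl)
      refine ⟨l, hlS, ?_⟩
      have h5 := hn3 l (Finset.mem_insert_of_mem hlS)
      have hlT : l ∉ T := fun h => (Finset.disjoint_left.1 h13 hl) (hTS h)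
      have htl : t l = a l := by
        rw [ht]
        simp only [hneM _ hlS, if_false, hlT, dif_neg, not_false_eq_true, hl, if_pos]
      rw [htl] at h5
      have h6 : n + q ≡ n + a l [MOD l] := Nat.ModEq.add_left _ hql
      exact (Nat.modEq_zero_iff_dvd).1 (h6.trans ((Nat.modEq_zero_iff_dvd).2 h5))
  · -- medium
    rw [hR2, Finset.mem_filter] at hq2
    push Not at hq2
    obtain ⟨l, hl, hql⟩ := hq2 hq
    have hlS : l ∈ S := Finset.mem_union_left _ (Finset.mem_union_right _ hl)
    refine ⟨l, hlS, ?_⟩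
    have h5 := hn3 l (Finset.mem_insert_of_mem hlS)
    have hlT : l ∉ T := fun h => (Finset.disjoint_left.1 h23 hl) (hTS h)
    have hl1 : l ∉ S1 := fun h => (Finset.disjoint_left.1 h12 h) hl
    have htl : t l = 1 := by
      rw [ht]
      simp only [hneM _ hlS, hlT, dif_neg, not_false_eq_true, hl1, if_neg]
    rw [htl] at h5
    have h6 : n + q ≡ n + 1 [MOD l] := Nat.ModEq.add_left _ hql
    exact (Nat.modEq_zero_iff_dvd).1 (h6.trans ((Nat.modEq_zero_iff_dvd).2 h5))

end Pool.Agent.Work.MP_70e905_nt
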