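import Mathlib
import Pool.Agent.Work.Sieve.PairBound
import Pool.Agent.Work.Sieve.MeanPhi

open Finset Nat
open Pool.Agent.Work.Sieve

namespace Pool.Agent.Work.MP_70e905_nt

/-! ### sum of reciprocals of primes, dyadic Chebyshev -/

theorem dyadic_block (k : ℕ) (hk : 1 ≤ k) :
    ∑ p ∈ (Finset.Ioc (2 ^ k) (2 ^ (k + 1))).filter Nat.Prime, (1 : ℝ) / p ≤ 4 / k := by
  set T := (Finset.Ioc (2 ^ k) (2 ^ (k + 1))).filter Nat.Prime with hT
  have hk0 : (0 : ℝ) < k := by exact_mod_cast hk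
  have h1 : ∑ p ∈ T, (1 : ℝ) / p ≤ (T.card : ℝ) / 2 ^ k := by
    have : ∑ p ∈ T, (1 : ℝ) / p ≤ ∑ p ∈ T, (1 : ℝ) / 2 ^ k := by
      apply Finset.sum_le_sum
      intro p hp
      rw [hT, Finset.mem_filter, Finset.mem_Ioc] at hp
      have : (2 : ℝ) ^ k ≤ p := by exact_mod_cast hp.1.1.le
      gcongr
    refine this.trans (le_of_eq ?_)
    rw [Finset.sum_const, nsmul_eq_mul]
    ring
  have h2 : (2 ^ k) ^ T.card ≤ 4 ^ (2 ^ (k + 1)) := by
    calc (2 ^ k) ^ T.card ≤ ∏ p ∈ T, p := by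
          apply Finset.pow_card_le_prod
          intro p hp
          rw [hT, Finset.mem_filter, Finset.mem_Ioc] at hp
          exact hp.1.1.le
      _ ≤ primorial (2 ^ (k + 1)) := by
          apply Nat.le_of_dvd (primorial_pos _)
          rw [primorial_eq_prod_primesLE]
          apply Finset.prod_dvd_prod_of_subset
          intro p hp
          rw [hT, Finset.mem_filter, Finset.mem_Ioc] at hp
          rw [Nat.mem_primesLE]
          exact ⟨hp.1.2, hp.2⟩
      _ ≤ 4 ^ (2 ^ (k + 1)) := primorial_le_four_pow _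
  have h3 : k * T.card ≤ 2 ^ (k + 2) := by
    have h4 : (2 : ℕ) ^ (k * T.card) ≤ 2 ^ (2 * 2 ^ (k + 1)) := by
      calc (2 : ℕ) ^ (k * T.card) = (2 ^ k) ^ T.card := by rw [pow_mul]
        _ ≤ 4 ^ (2 ^ (k + 1)) := h2
        _ = 2 ^ (2 * 2 ^ (k + 1)) := by rw [pow_mul]; norm_num
    have h5 := (Nat.pow_le_pow_iff_right (by norm_num : 1 < 2)).mp h4
    calc k * T.card ≤ 2 * 2 ^ (k + 1) := h5
      _ = 2 ^ (k + 2) := by ring
  have h4 : (k : ℝ) * T.card ≤ 2 ^ (k + 2) := by exact_mod_cast h3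
  refine h1.trans ?_
  rw [div_le_div_iff₀ (by positivity) hk0]
  calc (T.card : ℝ) * k = k * T.card := by ring
    _ ≤ 2 ^ (k + 2) := h4
    _ = 4 * 2 ^ k := by ring

theorem prod_one_add_le_exp (k : ℕ) : ∏ p ∈ Nat.primesLE (2 ^ (k + 1)), (1 + (1 : ℝ) / p) ≤
      2 * Real.exp (4 * ∑ i ∈ Finset.Icc 1 k, (1 : ℝ) / i) := by
  induction k with
  | zero =>
    have h1 : Nat.primesLE (2 ^ (0 + 1)) = {2} := by decide
    rw [h1]
    simp only [Finset.prod_singleton]
    norm_num
  | succ k ih =>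
    have hsplit : Nat.primesLE (2 ^ (k + 1 + 1)) =
        Nat.primesLE (2 ^ (k + 1)) ∪
          (Finset.Ioc (2 ^ (k + 1)) (2 ^ (k + 1 + 1))).filter Nat.Prime := by
      ext p
      rw [Finset.mem_union, Nat.mem_primesLE, Nat.mem_primesLE, Finset.mem_filter, Finset.mem_Ioc]
      have h2 : (2 : ℕ) ^ (k + 1) ≤ 2 ^ (k + 1 + 1) := Nat.pow_le_pow_right (by norm_num) (by omega)
      constructor
      · rintro ⟨h1, h3⟩
        by_cases h : p ≤ 2 ^ (k + 1)
        · exact Or.inl ⟨h, h3⟩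
        · exact Or.inr ⟨⟨by omega, h1⟩, h3⟩
      · rintro (⟨h1, h3⟩ | ⟨⟨h1, h4⟩, h3⟩)
        · exact ⟨by omega, h3⟩
        · exact ⟨h4, h3⟩
    have hdisj : Disjoint (Nat.primesLE (2 ^ (k + 1)))
        ((Finset.Ioc (2 ^ (k + 1)) (2 ^ (k + 1 + 1))).filter Nat.Prime) := by
      rw [Finset.disjoint_left]
      intro p hp hp2
      rw [Nat.mem_primesLE] at hp
      rw [Finset.mem_filter, Finset.mem_Ioc] at hp2
      omega
    rw [hsplit, Finset.prod_union hdisj]
    have hblock : ∏ p ∈ (Finset.Ioc (2 ^ (k + 1)) (2 ^ (k + 1 + 1))).filter Nat.Prime,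
        (1 + (1 : ℝ) / p) ≤ Real.exp (4 / ((k + 1 : ℕ) : ℝ)) := by
      calc _ ≤ ∏ p ∈ (Finset.Ioc (2 ^ (k + 1)) (2 ^ (k + 1 + 1))).filter Nat.Prime,
            Real.exp ((1 : ℝ) / p) := by
            apply Finset.prod_le_prod
            · intro p _; positivity
            · intro p _
              have := Real.add_one_le_exp ((1 : ℝ) / p)
              linarith
        _ = Real.exp (∑ p ∈ (Finset.Ioc (2 ^ (k + 1)) (2 ^ (k + 1 + 1))).filter Nat.Prime,
            (1 : ℝ) / p) := (Real.exp_sum _ _).symm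
        _ ≤ Real.exp (4 / ((k + 1 : ℕ) : ℝ)) :=
            Real.exp_le_exp.mpr (dyadic_block (k + 1) (by omega))
    have h5 : (2 : ℝ) * Real.exp (4 * ∑ i ∈ Finset.Icc 1 (k + 1), (1 : ℝ) / i) =
        (2 * Real.exp (4 * ∑ i ∈ Finset.Icc 1 k, (1 : ℝ) / i)) *
          Real.exp (4 / ((k + 1 : ℕ) : ℝ)) := by
      rw [← Finset.insert_Icc_right_eq_Icc_add_one (by omega), Finset.sum_insert (by simp),
        mul_assoc, ← Real.exp_add]
      congr 2
      push_cast
      ring
    rw [h5]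
    exact mul_le_mul ih hblock (Finset.prod_nonneg (fun p _ => by positivity)) (by positivity)

/-- `∏_{p ≤ 2^(k+1)} (1 + 1/p) ≤ 2 e^4 (k+1)^4` -/
theorem prod_one_add_le (k : ℕ) : ∏ p ∈ Nat.primesLE (2 ^ (k + 1)), (1 + (1 : ℝ) / p) ≤
      2 * Real.exp 4 * ((k : ℝ) + 1) ^ 4 := by
  refine (prod_one_add_le_exp k).trans ?_
  have h1 : ∑ i ∈ Finset.Icc 1 k, (1 : ℝ) / i ≤ 1 + Real.log (k + 1) := by
    have h := harmonic_le_one_add_log k
    rw [harmonic_eq_sum_Icc] at h
    push_cast at h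
    have h2 : ∑ i ∈ Finset.Icc 1 k, (1 : ℝ) / i ≤ 1 + Real.log k := by
      simpa [one_div] using h
    rcases Nat.eq_zero_or_pos k with hk | hk
    · subst hk; simp
    · have : Real.log k ≤ Real.log (k + 1) := by
        apply Real.log_le_log
        · exact_mod_cast hk
        · linarith
      linarith
  have h2 : Real.exp (4 * ∑ i ∈ Finset.Icc 1 k, (1 : ℝ) / i) ≤ Real.exp 4 * ((k : ℝ) + 1) ^ 4 := by
    have h3 : Real.exp (4 * ∑ i ∈ Finset.Icc 1 k, (1 : ℝ) / i) ≤
        Real.exp (4 + 4 * Real.log (k + 1)) := Real.exp_le_exp.mpr (by linarith)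
    have h4 : Real.exp (4 + 4 * Real.log (k + 1)) = Real.exp 4 * ((k : ℝ) + 1) ^ 4 := by
      rw [Real.exp_add]
      congr 1
      rw [mul_comm, Real.exp_mul, Real.exp_log (by positivity)]
      norm_num
    linarith
  nlinarith [Real.exp_pos 4]

/-! ### truncation of `h / φ(h)` to `L`-smooth divisors -/

theorem div_totient_eq {h : ℕ} (hh : h ≠ 0) :
    (h : ℝ) / (Nat.totient h : ℝ) = ∏ p ∈ h.primeFactors, (1 - (1 : ℝ) / p)⁻¹ := by
  have hmr : (0 : ℝ) < h := by exact_mod_cast Nat.pos_of_ne_zero hh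
  have h1 : (Nat.totient h : ℝ) = h * ∏ p ∈ h.primeFactors, (1 - (1 : ℝ) / p) := by
    have h2 := Nat.totient_eq_mul_prod_factors h
    have := congrArg (fun q : ℚ => (q : ℝ)) h2
    push_cast at this
    simpa [one_div] using this
  rw [h1, Finset.prod_inv_distrib]
  field_simp

theorem prod_inv_le_sum (s : Finset ℕ) (hs : ∀ p ∈ s, p.Prime) (P : ℕ) (hP : P ≠ 0)
    (hsP : ∀ p ∈ s, p ∣ P) (h : ℕ) (hsh : ∀ p ∈ s, p ∣ h) :
    ∏ p ∈ s, (1 - (1 : ℝ) / p)⁻¹ ≤ 2 * ∑ d ∈ P.divisors.filter (fun d => d ∣ h), (1 : ℝ) / d := by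
  have hpr : ∀ p ∈ s, (2 : ℝ) ≤ p := fun p hp => by exact_mod_cast (hs p hp).two_le
  have hpos1 : 0 < ∏ p ∈ s, (1 - (1 : ℝ) / p) := by
    apply Finset.prod_pos
    intro p hp
    have := hpr p hp
    have : (1 : ℝ) / p ≤ 1 / 2 := by gcongr
    linarith
  have h3 : ∏ p ∈ s, (1 + (1 : ℝ) / p) ≤ ∑ d ∈ P.divisors.filter (fun d => d ∣ h), (1 : ℝ) / d := by
    rw [Finset.prod_one_add]
    have hinj : Set.InjOn (fun t : Finset ℕ => ∏ p ∈ t, p) (s.powerset : Set (Finset ℕ)) := by
      intro t ht u hu htu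
      simp only [Finset.coe_powerset, Set.mem_preimage, Set.mem_powerset_iff, Finset.coe_subset] at ht hu
      simp only at htu
      rw [← Nat.primeFactors_prod (s := t) (fun p hp => hs p (ht hp)),
        ← Nat.primeFactors_prod (s := u) (fun p hp => hs p (hu hp)), htu]
    have h4 : ∑ t ∈ s.powerset, ∏ p ∈ t, (1 : ℝ) / p =
        ∑ d ∈ s.powerset.image (fun t : Finset ℕ => ∏ p ∈ t, p), (1 : ℝ) / d := by
      rw [Finset.sum_image hinj]
      apply Finset.sum_congr rfl
      intro t _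
      push_cast
      rw [Finset.prod_div_distrib, Finset.prod_const_one]
    rw [h4]
    apply Finset.sum_le_sum_of_subset_of_nonneg
    · intro d hd
      rw [Finset.mem_image] at hd
      obtain ⟨t, ht, rfl⟩ := hd
      rw [Finset.mem_powerset] at ht
      rw [Finset.mem_filter, Nat.mem_divisors]
      have hcop : (t : Set ℕ).Pairwise (fun a b => Nat.Coprime a b) := by
        intro a ha b hb hab
        exact (Nat.coprime_primes (hs a (ht ha)) (hs b (ht hb))).mpr hab
      refine ⟨⟨?_, hP⟩, ?_⟩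
      · exact Finset.prod_dvd_of_isRelPrime (fun a ha b hb hab =>
          Nat.coprime_iff_isRelPrime.mp (hcop ha hb hab)) (fun p hp => hsP p (ht hp))
      · exact Finset.prod_dvd_of_isRelPrime (fun a ha b hb hab =>
          Nat.coprime_iff_isRelPrime.mp (hcop ha hb hab)) (fun p hp => hsh p (ht hp))
    · intro d _ _
      positivity
  have h5 : (∏ p ∈ s, (1 - (1 : ℝ) / p)) * ∏ p ∈ s, (1 + (1 : ℝ) / p)
      = ∏ p ∈ s, (1 - 1 / (p : ℝ) ^ 2) := by
    rw [← Finset.prod_mul_distrib]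
    apply Finset.prod_congr rfl
    intro p hp
    have := hpr p hp
    field_simp
    ring
  have h6 := half_le_prod s (fun p hp => (hs p hp).two_le)
  rw [Finset.prod_inv_distrib, ← one_div, div_le_iff₀ hpos1]
  rw [← h5] at h6
  nlinarith [mul_le_mul_of_nonneg_left h3 hpos1.le]

/-- `h/φ(h) ≤ 2 e^{2 ω(h)/L} ∑_{d ∣ h, d ∣ P_L} 1/d` -/
theorem trunc_bound {h : ℕ} (hh : h ≠ 0) (L : ℕ) (hL : 1 ≤ L) :
    (h : ℝ) / (Nat.totient h : ℝ) ≤ 2 * Real.exp (2 * h.primeFactors.card / L) *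
      ∑ d ∈ (primorial L).divisors.filter (fun d => d ∣ h), (1 : ℝ) / d := by
  rw [div_totient_eq hh, ← Finset.prod_filter_mul_prod_filter_not h.primeFactors (fun p => p ≤ L)]
  have hLr : (0 : ℝ) < L := by exact_mod_cast hL
  have h1 : ∏ p ∈ h.primeFactors.filter (fun p => p ≤ L), (1 - (1 : ℝ) / p)⁻¹ ≤
      2 * ∑ d ∈ (primorial L).divisors.filter (fun d => d ∣ h), (1 : ℝ) / d := by
    apply prod_inv_le_sum
    · intro p hp
      rw [Finset.mem_filter] at hp
      exact Nat.prime_of_mem_primeFactors hp.1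
    · exact primorial_ne_zero L
    · intro p hp
      rw [Finset.mem_filter] at hp
      exact (Nat.prime_of_mem_primeFactors hp.1).dvd_primorial_iff.mpr hp.2
    · intro p hp
      rw [Finset.mem_filter] at hp
      exact Nat.dvd_of_mem_primeFactors hp.1
  have h2 : ∏ p ∈ h.primeFactors.filter (fun p => ¬ p ≤ L), (1 - (1 : ℝ) / p)⁻¹ ≤
      Real.exp (2 * h.primeFactors.card / L) := by
    have h3 : ∀ p ∈ h.primeFactors.filter (fun p => ¬ p ≤ L), (1 - (1 : ℝ) / p)⁻¹ ≤
        Real.exp (2 / L) := by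
      intro p hp
      rw [Finset.mem_filter, not_le] at hp
      have hp2 : (2 : ℝ) ≤ p := by exact_mod_cast (Nat.prime_of_mem_primeFactors hp.1).two_le
      have hpL : (L : ℝ) ≤ p := by exact_mod_cast hp.2.le
      have h4 : (1 - (1 : ℝ) / p)⁻¹ ≤ 1 + 2 / p := by
        have h5 : (1 : ℝ) - 1 / p = (p - 1) / p := by field_simp
        rw [h5, inv_div, div_le_iff₀ (by linarith)]
        have h6 : (1 + 2 / (p : ℝ)) * (p - 1) = p + 1 - 2 / p := by field_simp; ring
        rw [h6]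
        have : 2 / (p : ℝ) ≤ 1 := by rw [div_le_one (by linarith)]; exact hp2
        linarith
      have h7 : (2 : ℝ) / p ≤ 2 / L := by gcongr
      have h8 := Real.add_one_le_exp ((2 : ℝ) / L)
      linarith
    have h9 : ∀ p ∈ h.primeFactors.filter (fun p => ¬ p ≤ L), 0 ≤ (1 - (1 : ℝ) / p)⁻¹ := by
      intro p hp
      rw [Finset.mem_filter, not_le] at hp
      have hp2 : (2 : ℝ) ≤ p := by exact_mod_cast (Nat.prime_of_mem_primeFactors hp.1).two_le
      have : (1 : ℝ) / p ≤ 1 / 2 := by gcongr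
      have : 0 ≤ 1 - (1 : ℝ) / p := by linarith
      positivity
    calc _ ≤ ∏ p ∈ h.primeFactors.filter (fun p => ¬ p ≤ L), Real.exp (2 / L) :=
          Finset.prod_le_prod h9 h3
      _ = Real.exp (2 / L * ((h.primeFactors.filter (fun p => ¬ p ≤ L)).card : ℝ)) := by
          rw [Finset.prod_const, ← Real.exp_nat_mul]
          congr 1; ring
      _ ≤ Real.exp (2 * h.primeFactors.card / L) := by
          apply Real.exp_le_exp.mpr
          have h10 : ((h.primeFactors.filter (fun p => ¬ p ≤ L)).card : ℝ) ≤ h.primeFactors.card := by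
            exact_mod_cast Finset.card_filter_le _ _
          calc 2 / (L : ℝ) * ((h.primeFactors.filter (fun p => ¬ p ≤ L)).card : ℝ)
              ≤ 2 / (L : ℝ) * (h.primeFactors.card : ℝ) := by gcongr
            _ = _ := by ring
  have h11 : 0 ≤ ∏ p ∈ h.primeFactors.filter (fun p => ¬ p ≤ L), (1 - (1 : ℝ) / p)⁻¹ := by
    apply Finset.prod_nonneg
    intro p hp
    rw [Finset.mem_filter] at hp
    have hp2 : (2 : ℝ) ≤ p := by exact_mod_cast (Nat.prime_of_mem_primeFactors hp.1).two_le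
    have : (1 : ℝ) / p ≤ 1 / 2 := by gcongr
    have : 0 ≤ 1 - (1 : ℝ) / p := by linarith
    positivity
  calc _ ≤ (2 * ∑ d ∈ (primorial L).divisors.filter (fun d => d ∣ h), (1 : ℝ) / d) *
        Real.exp (2 * h.primeFactors.card / L) := by
        apply mul_le_mul h1 h2 h11
        apply mul_nonneg (by norm_num)
        exact Finset.sum_nonneg (fun d _ => by positivity)
    _ = _ := by ring

/-! ### counting multiples of `l` in the strips around the multiples of `n` -/

/-- multiples of `l` in an interval of length `H` -/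
theorem card_multiples_Icc (a H l : ℕ) (hl : 1 ≤ l) :
    (((Finset.Icc (a + 1) (a + H)).filter (fun h => l ∣ h)).card : ℝ) ≤ (H : ℝ) / l + 1 := by
  have h1 : ((Finset.Icc (a + 1) (a + H)).filter (fun h => l ∣ h)).card =
      (a + H) / l - a / l := by
    have h2 : (Finset.Ioc 0 (a + H)).filter (fun h => l ∣ h) =
        (Finset.Ioc 0 a).filter (fun h => l ∣ h) ∪
          (Finset.Icc (a + 1) (a + H)).filter (fun h => l ∣ h) := by
      ext h
      simp only [Finset.mem_filter, Finset.mem_union, Finset.mem_Ioc, Finset.mem_Icc]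
      constructor
      · rintro ⟨⟨h1, h2⟩, h3⟩
        by_cases h4 : h ≤ a
        · exact Or.inl ⟨⟨h1, h4⟩, h3⟩
        · exact Or.inr ⟨⟨by omega, h2⟩, h3⟩
      · rintro (⟨⟨h1, h2⟩, h3⟩ | ⟨⟨h1, h2⟩, h3⟩)
        · exact ⟨⟨h1, by omega⟩, h3⟩
        · exact ⟨⟨by omega, h2⟩, h3⟩
    have hdisj : Disjoint ((Finset.Ioc 0 a).filter (fun h => l ∣ h))
        ((Finset.Icc (a + 1) (a + H)).filter (fun h => l ∣ h)) := by
      rw [Finset.disjoint_left]
      intro h hh hh2
      rw [Finset.mem_filter, Finset.mem_Ioc] at hh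
      rw [Finset.mem_filter, Finset.mem_Icc] at hh2
      omega
    have h3 := congrArg Finset.card h2
    rw [Finset.card_union_of_disjoint hdisj, Nat.Ioc_filter_dvd_card_eq_div,
      Nat.Ioc_filter_dvd_card_eq_div] at h3
    omega
  rw [h1]
  have h4 : a / l ≤ (a + H) / l := Nat.div_le_div_right (by omega)
  rw [Nat.cast_sub h4]
  have hlr : (0 : ℝ) < l := by exact_mod_cast hl
  have h5 : (((a + H) / l : ℕ) : ℝ) ≤ ((a : ℝ) + H) / l := by
    have := Nat.cast_div_le (α := ℝ) (m := a + H) (n := l)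
    push_cast at this
    exact this
  have h6 : (a : ℝ) / l < ((a / l : ℕ) : ℝ) + 1 := by
    rw [div_lt_iff₀ hlr]
    have := Nat.lt_div_mul_add (a := a) (b := l) hl
    have h7 : (a : ℝ) < ((a / l * l + l : ℕ) : ℝ) := by exact_mod_cast this
    push_cast at h7
    linarith
  have h8 : ((a : ℝ) + H) / l = (a : ℝ) / l + H / l := by ring
  linarith

/-- a set of integers in `[1, M]` with differences divisible by `k` -/
theorem card_spaced (M k : ℕ) (hk : 1 ≤ k) (T : Finset ℕ) (hT : T ⊆ Finset.Icc 1 M)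
    (hd : ∀ a ∈ T, ∀ b ∈ T, a ≤ b → k ∣ b - a) : (T.card : ℝ) ≤ (M : ℝ) / k + 1 := by
  rcases T.eq_empty_or_nonempty with h | h
  · rw [h]; simp; positivity
  · set a := T.min' h with ha
    have haT : a ∈ T := Finset.min'_mem T h
    have haM := Finset.mem_Icc.mp (hT haT)
    have hsub : T.card ≤ ((Finset.Icc 0 (M - 1)).filter (fun h => k ∣ h)).card := by
      apply Finset.card_le_card_of_injOn (fun b => b - a)
      · intro b hb
        rw [Finset.mem_coe] at hb
        have h1 : a ≤ b := Finset.min'_le T b hb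
        have h2 := Finset.mem_Icc.mp (hT hb)
        rw [Finset.mem_coe, Finset.mem_filter, Finset.mem_Icc]
        refine ⟨⟨by omega, ?_⟩, hd a haT b hb h1⟩
        show b - a ≤ M - 1
        omega
      · intro b hb c hc hbc
        rw [Finset.mem_coe] at hb hc
        have h1 : a ≤ b := Finset.min'_le T b hb
        have h2 : a ≤ c := Finset.min'_le T c hc
        simp only at hbc
        omega
    have h3 : (Finset.Icc 0 (M - 1)).filter (fun h => k ∣ h) =
        insert 0 ((Finset.Ioc 0 (M - 1)).filter (fun h => k ∣ h)) := by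
      ext h
      simp only [Finset.mem_filter, Finset.mem_insert, Finset.mem_Ioc, Finset.mem_Icc]
      constructor
      · rintro ⟨⟨_, h2⟩, h3⟩
        rcases Nat.eq_zero_or_pos h with h4 | h4
        · exact Or.inl h4
        · exact Or.inr ⟨⟨h4, h2⟩, h3⟩
      · rintro (h1 | ⟨⟨h1, h2⟩, h3⟩)
        · subst h1; simp
        · exact ⟨⟨by omega, h2⟩, h3⟩
    rw [h3] at hsub
    have h4 := hsub.trans (Finset.card_insert_le _ _)
    rw [Nat.Ioc_filter_dvd_card_eq_div] at h4
    have h5 : (M - 1) / k ≤ M / k := Nat.div_le_div_right (by omega)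
    have h6 : (T.card : ℝ) ≤ ((M / k : ℕ) : ℝ) + 1 := by exact_mod_cast (by omega : T.card ≤ M / k + 1)
    have h7 : ((M / k : ℕ) : ℝ) ≤ (M : ℝ) / k := Nat.cast_div_le
    linarith

end Pool.Agent.Work.MP_70e905_nt
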