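import Mathlib
import Pool.Agent.Work.Sieve.PairBound
import Pool.Agent.Work.Sieve.MeanPhi

set_option autoImplicit false

namespace Pool.Agent.Work.MP_70e905_nt

open Finset

/-- odd primes up to `y` -/
def oddPr (y : ℕ) : Finset ℕ := (Finset.Icc 3 y).filter (fun q : ℕ => q.Prime)

/-- even numbers in `[1, X]` -/
def evens (X : ℕ) : Finset ℕ := (Finset.Icc 1 X).filter (fun n : ℕ => Even n)

/-- number of odd primes `q ≤ y` with `n + q` prime -/
def rep (y n : ℕ) : ℕ := ((oddPr y).filter (fun q : ℕ => (n + q).Prime)).card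

lemma mem_oddPr {y q : ℕ} : q ∈ oddPr y ↔ (3 ≤ q ∧ q ≤ y) ∧ q.Prime := by
  simp [oddPr, Finset.mem_filter, Finset.mem_Icc]

lemma mem_evens {X n : ℕ} : n ∈ evens X ↔ (1 ≤ n ∧ n ≤ X) ∧ Even n := by
  simp [evens, Finset.mem_filter, Finset.mem_Icc]

lemma offdiag_sum (g : ℕ → ℝ) (hg : ∀ h, 0 ≤ g h) (Q : Finset ℕ) (y : ℕ)
    (hQ : ∀ q ∈ Q, q ≤ y) :
    ∑ q ∈ Q, ∑ q' ∈ Q.filter (fun q' => q < q'), g (q' - q) ≤
      ∑ h ∈ Finset.Icc 1 y, g h * ((Q.filter (fun q => q + h ∈ Q)).card : ℝ) := by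
  classical
  have h1 : ∑ h ∈ Finset.Icc 1 y, g h * ((Q.filter (fun q => q + h ∈ Q)).card : ℝ) =
      ∑ q ∈ Q, ∑ h ∈ (Finset.Icc 1 y).filter (fun h => q + h ∈ Q), g h := by
    have h2 : ∀ h ∈ Finset.Icc 1 y, g h * ((Q.filter (fun q => q + h ∈ Q)).card : ℝ) =
        ∑ q ∈ Q, if q + h ∈ Q then g h else 0 := by
      intro h _
      rw [← Finset.sum_filter, Finset.sum_const, nsmul_eq_mul, mul_comm]
    rw [Finset.sum_congr rfl h2, Finset.sum_comm]
    apply Finset.sum_congr rfl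
    intro q _
    rw [← Finset.sum_filter]
  rw [h1]
  apply Finset.sum_le_sum
  intro q hq
  have h3 : ∑ q' ∈ Q.filter (fun q' => q < q'), g (q' - q) =
      ∑ h ∈ (Q.filter (fun q' => q < q')).image (fun q' => q' - q), g h := by
    rw [Finset.sum_image]
    intro a ha b hb hab
    have ha' := (Finset.mem_filter.1 (Finset.mem_coe.1 ha)).2
    have hb' := (Finset.mem_filter.1 (Finset.mem_coe.1 hb)).2
    simp only at hab
    omega
  rw [h3]
  apply Finset.sum_le_sum_of_subset_of_nonneg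
  · intro h hh
    rw [Finset.mem_image] at hh
    obtain ⟨q', hq', rfl⟩ := hh
    rw [Finset.mem_filter] at hq'
    have := hQ q' hq'.1
    rw [Finset.mem_filter, Finset.mem_Icc]
    refine ⟨⟨by omega, by omega⟩, ?_⟩
    rw [Nat.add_sub_cancel' hq'.2.le]
    exact hq'.1
  · intro h _ _
    exact hg h

lemma sum_h_div_totient (y : ℕ) (hy : 2 ≤ y) :
    ∑ q ∈ oddPr y, ∑ q' ∈ (oddPr y).filter (fun q' => q < q'),
      (((q' - q : ℕ) : ℝ) / (Nat.totient (q' - q) : ℝ)) ≤ 7776 * ((y : ℝ) / Real.log y) ^ 2 := by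
  have h1 := offdiag_sum (fun h => ((h : ℕ) : ℝ) / (Nat.totient h : ℝ)) (fun h => by positivity)
    (oddPr y) y (fun q hq => (mem_oddPr.1 hq).1.2)
  refine h1.trans ?_
  have hlog : 0 < Real.log y := Real.log_pos (by exact_mod_cast (by omega : 1 < y))
  have h2 : ∀ h ∈ Finset.Icc 1 y, ((h : ℕ) : ℝ) / (Nat.totient h : ℝ) *
      (((oddPr y).filter (fun q => q + h ∈ oddPr y)).card : ℝ) ≤
      216 * ((y : ℝ) / (Real.log y) ^ 2) * ((h : ℝ) / (Nat.totient h : ℝ)) ^ 2 := by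
    intro h hh
    rw [Finset.mem_Icc] at hh
    have h3 := Pool.Agent.Work.Sieve.pair_bound_shift (h := h) (by omega) hy
    have h4 : (((oddPr y).filter (fun q => q + h ∈ oddPr y)).card : ℝ) ≤
        (((Finset.Icc 1 y).filter (fun m : ℕ => m.Prime ∧ (m + h).Prime)).card : ℝ) := by
      have : (oddPr y).filter (fun q => q + h ∈ oddPr y) ⊆
          (Finset.Icc 1 y).filter (fun m : ℕ => m.Prime ∧ (m + h).Prime) := by
        intro q hq
        rw [Finset.mem_filter, mem_oddPr, mem_oddPr] at hq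
        rw [Finset.mem_filter, Finset.mem_Icc]
        exact ⟨⟨by omega, hq.1.1.2⟩, hq.1.2, hq.2.2⟩
      exact_mod_cast Finset.card_le_card this
    have h5 := h4.trans h3
    have h6 : (0:ℝ) ≤ ((h : ℕ) : ℝ) / (Nat.totient h : ℝ) := by positivity
    calc _ ≤ ((h : ℕ) : ℝ) / (Nat.totient h : ℝ) *
          (216 * ((h : ℝ) / (Nat.totient h : ℝ)) * ((y : ℝ) / (Real.log y) ^ 2)) :=
          mul_le_mul_of_nonneg_left h5 h6
      _ = _ := by ring
  refine (Finset.sum_le_sum h2).trans ?_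
  rw [← Finset.mul_sum]
  have h7 := Pool.Agent.Work.Sieve.sum_sq_div_totient_le y
  calc 216 * ((y : ℝ) / (Real.log y) ^ 2) * ∑ h ∈ Finset.Icc 1 y, ((h : ℝ) / (Nat.totient h : ℝ)) ^ 2
      ≤ 216 * ((y : ℝ) / (Real.log y) ^ 2) * (36 * y) := by
        apply mul_le_mul_of_nonneg_left h7 (by positivity)
    _ = 7776 * ((y : ℝ) / Real.log y) ^ 2 := by ring

lemma pair_count (X q q' : ℕ) (hX : 2 ≤ X) (hq : q < q') (hqX : q ≤ X) :
    (((evens X).filter (fun n : ℕ => (n + q).Prime ∧ (n + q').Prime)).card : ℝ) ≤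
      432 * ((((q' - q : ℕ) : ℝ) / (Nat.totient (q' - q) : ℝ)) * ((X : ℝ) / (Real.log X) ^ 2)) := by
  have h1 := Pool.Agent.Work.Sieve.pair_bound_shift (h := q' - q) (by omega)
    (X := 2 * X) (by omega)
  have h2 : (((evens X).filter (fun n : ℕ => (n + q).Prime ∧ (n + q').Prime)).card : ℝ) ≤
      (((Finset.Icc 1 (2 * X)).filter
        (fun m : ℕ => m.Prime ∧ (m + (q' - q)).Prime)).card : ℝ) := by
    have : ((evens X).filter (fun n : ℕ => (n + q).Prime ∧ (n + q').Prime)).card ≤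
        ((Finset.Icc 1 (2 * X)).filter (fun m : ℕ => m.Prime ∧ (m + (q' - q)).Prime)).card := by
      apply Finset.card_le_card_of_injOn (fun n => n + q)
      · intro n hn
        rw [Finset.mem_coe, Finset.mem_filter, mem_evens] at hn
        rw [Finset.mem_coe, Finset.mem_filter, Finset.mem_Icc]
        refine ⟨⟨?_, ?_⟩, hn.2.1, ?_⟩
        · show 1 ≤ n + q
          omega
        · show n + q ≤ 2 * X
          omega
        · have : n + q + (q' - q) = n + q' := by omega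
          show (n + q + (q' - q)).Prime
          rw [this]; exact hn.2.2
      · intro a _ b _ hab
        simpa using hab
    exact_mod_cast this
  refine h2.trans (h1.trans ?_)
  have hXR : (2:ℝ) ≤ X := by exact_mod_cast hX
  have hlog : 0 < Real.log X := Real.log_pos (by linarith)
  have hlog2 : Real.log X ≤ Real.log ((2 * X : ℕ) : ℝ) := by
    apply Real.log_le_log (by linarith)
    push_cast; linarith
  have h3 : ((2 * X : ℕ) : ℝ) / (Real.log ((2 * X : ℕ) : ℝ)) ^ 2 ≤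
      2 * ((X:ℝ) / (Real.log X) ^ 2) := by
    rw [← mul_div_assoc]
    push_cast at hlog2 ⊢
    gcongr
  calc _ ≤ 216 * (((q' - q : ℕ) : ℝ) / (Nat.totient (q' - q) : ℝ)) *
        (2 * ((X:ℝ) / (Real.log X) ^ 2)) := by
        apply mul_le_mul_of_nonneg_left h3 (by positivity)
    _ = _ := by ring

lemma sq_card_filter (Q : Finset ℕ) (P : ℕ → Prop) [DecidablePred P] :
    ((Q.filter P).card : ℝ) ^ 2 = (Q.filter P).card +
      2 * ∑ q ∈ Q, ∑ q' ∈ Q.filter (fun q' => q < q'), if P q ∧ P q' then (1:ℝ) else 0 := by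
  classical
  have h1 : ((Q.filter P).card : ℝ) = ∑ q ∈ Q, if P q then (1:ℝ) else 0 := by
    rw [Finset.sum_ite, Finset.sum_const_zero, add_zero, Finset.sum_const, nsmul_eq_mul, mul_one]
  have h2 : ((Q.filter P).card : ℝ) ^ 2 =
      ∑ q ∈ Q, ∑ q' ∈ Q, if P q ∧ P q' then (1:ℝ) else 0 := by
    rw [h1, sq, Finset.sum_mul_sum]
    apply Finset.sum_congr rfl; intro q _
    apply Finset.sum_congr rfl; intro q' _
    by_cases h : P q <;> by_cases h' : P q' <;> simp [h, h']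
  have h3 : ∀ q ∈ Q, ∑ q' ∈ Q, (if P q ∧ P q' then (1:ℝ) else 0) =
      (if P q then (1:ℝ) else 0) +
      ∑ q' ∈ Q.filter (fun q' => q < q'), (if P q ∧ P q' then (1:ℝ) else 0) +
      ∑ q' ∈ Q.filter (fun q' => q' < q), (if P q ∧ P q' then (1:ℝ) else 0) := by
    intro q hq
    have h4 : Q = insert q (Q.filter (fun q' => q < q') ∪ Q.filter (fun q' => q' < q)) := by
      ext a
      simp only [Finset.mem_insert, Finset.mem_union, Finset.mem_filter]
      constructor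
      · intro ha
        rcases lt_trichotomy q a with h | h | h
        · right; left; exact ⟨ha, h⟩
        · left; exact h.symm
        · right; right; exact ⟨ha, h⟩
      · rintro (h | h | h)
        · rw [h]; exact hq
        · exact h.1
        · exact h.1
    conv_lhs => rw [h4]
    rw [Finset.sum_insert, Finset.sum_union]
    · simp only [and_self]
      ring
    · rw [Finset.disjoint_left]
      intro a ha hb
      rw [Finset.mem_filter] at ha hb
      omega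
    · simp
  have h5 : ∑ q ∈ Q, ∑ q' ∈ Q.filter (fun q' => q' < q), (if P q ∧ P q' then (1:ℝ) else 0) =
      ∑ q ∈ Q, ∑ q' ∈ Q.filter (fun q' => q < q'), (if P q ∧ P q' then (1:ℝ) else 0) := by
    rw [Finset.sum_comm' (s' := fun q' => Q.filter (fun q => q' < q)) (t' := Q)]
    · apply Finset.sum_congr rfl; intro q _
      apply Finset.sum_congr rfl; intro q' _
      simp only [and_comm]
    · intro a b
      simp only [Finset.mem_filter]
      tauto
  rw [h2, Finset.sum_congr rfl h3, Finset.sum_add_distrib, Finset.sum_add_distrib, h5, ← h1]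
  ring

lemma second_moment (X y : ℕ) (hX : 2 ≤ X) (hy : 2 ≤ y) (hyX : y ≤ X) :
    ∑ n ∈ evens X, (rep y n : ℝ) ^ 2 ≤ ∑ n ∈ evens X, (rep y n : ℝ) +
      6718464 * (((y : ℝ) / Real.log y) ^ 2 * ((X : ℝ) / (Real.log X) ^ 2)) := by
  classical
  have h1 : ∀ n ∈ evens X, (rep y n : ℝ) ^ 2 = rep y n +
      2 * ∑ q ∈ oddPr y, ∑ q' ∈ (oddPr y).filter (fun q' => q < q'),
        if (n + q).Prime ∧ (n + q').Prime then (1:ℝ) else 0 := by
    intro n _
    unfold rep
    exact sq_card_filter (oddPr y) (fun q => (n + q).Prime)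
  rw [Finset.sum_congr rfl h1, Finset.sum_add_distrib, ← Finset.mul_sum]
  apply add_le_add le_rfl
  have h2 : ∑ n ∈ evens X, ∑ q ∈ oddPr y, ∑ q' ∈ (oddPr y).filter (fun q' => q < q'),
        (if (n + q).Prime ∧ (n + q').Prime then (1:ℝ) else 0) =
      ∑ q ∈ oddPr y, ∑ q' ∈ (oddPr y).filter (fun q' => q < q'),
        (((evens X).filter (fun n : ℕ => (n + q).Prime ∧ (n + q').Prime)).card : ℝ) := by
    rw [Finset.sum_comm]
    apply Finset.sum_congr rfl; intro q _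
    rw [Finset.sum_comm]
    apply Finset.sum_congr rfl; intro q' _
    rw [Finset.sum_ite, Finset.sum_const_zero, add_zero, Finset.sum_const, nsmul_eq_mul, mul_one]
  rw [h2]
  have h3 : ∑ q ∈ oddPr y, ∑ q' ∈ (oddPr y).filter (fun q' => q < q'),
        (((evens X).filter (fun n : ℕ => (n + q).Prime ∧ (n + q').Prime)).card : ℝ) ≤
      ∑ q ∈ oddPr y, ∑ q' ∈ (oddPr y).filter (fun q' => q < q'),
        432 * ((((q' - q : ℕ) : ℝ) / (Nat.totient (q' - q) : ℝ)) *
          ((X : ℝ) / (Real.log X) ^ 2)) := by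
    apply Finset.sum_le_sum; intro q hq
    apply Finset.sum_le_sum; intro q' hq'
    rw [Finset.mem_filter] at hq'
    exact pair_count X q q' hX hq'.2 (((mem_oddPr.1 hq).1.2).trans hyX)
  have h4 := sum_h_div_totient y hy
  have h5 : ∑ q ∈ oddPr y, ∑ q' ∈ (oddPr y).filter (fun q' => q < q'),
        432 * ((((q' - q : ℕ) : ℝ) / (Nat.totient (q' - q) : ℝ)) *
          ((X : ℝ) / (Real.log X) ^ 2)) =
      432 * ((X : ℝ) / (Real.log X) ^ 2) *
      ∑ q ∈ oddPr y, ∑ q' ∈ (oddPr y).filter (fun q' => q < q'),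
        (((q' - q : ℕ) : ℝ) / (Nat.totient (q' - q) : ℝ)) := by
    rw [Finset.mul_sum]
    apply Finset.sum_congr rfl; intro q _
    rw [Finset.mul_sum]
    apply Finset.sum_congr rfl; intro q' _
    ring
  rw [h5] at h3
  have h6 : 432 * ((X : ℝ) / (Real.log X) ^ 2) *
      ∑ q ∈ oddPr y, ∑ q' ∈ (oddPr y).filter (fun q' => q < q'),
        (((q' - q : ℕ) : ℝ) / (Nat.totient (q' - q) : ℝ)) ≤
      432 * ((X : ℝ) / (Real.log X) ^ 2) * (7776 * ((y : ℝ) / Real.log y) ^ 2) :=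
    mul_le_mul_of_nonneg_left h4 (by positivity)
  have h7 : 432 * ((X : ℝ) / (Real.log X) ^ 2) * (7776 * ((y : ℝ) / Real.log y) ^ 2) * 2 =
      6718464 * (((y : ℝ) / Real.log y) ^ 2 * ((X : ℝ) / (Real.log X) ^ 2)) := by ring
  linarith

/-- Paley-Zygmund. -/
lemma paley_zygmund (S : Finset ℕ) (r : ℕ → ℕ) (τ : ℝ)
    (hτ : τ * S.card ≤ (∑ n ∈ S, (r n : ℝ)) / 2) :
    (∑ n ∈ S, (r n : ℝ)) ^ 2 / 4 ≤
      ((S.filter (fun n => 1 ≤ r n ∧ τ ≤ r n)).card : ℝ) * ∑ n ∈ S, (r n : ℝ) ^ 2 := by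
  classical
  set T := S.filter (fun n => 1 ≤ r n ∧ τ ≤ r n) with hT
  have h1 : ∑ n ∈ S, (r n : ℝ) = ∑ n ∈ T, (r n : ℝ) +
      ∑ n ∈ S.filter (fun n => ¬ (1 ≤ r n ∧ τ ≤ r n)), (r n : ℝ) := by
    rw [hT, Finset.sum_filter_add_sum_filter_not]
  have h2 : ∑ n ∈ S.filter (fun n => ¬ (1 ≤ r n ∧ τ ≤ r n)), (r n : ℝ) ≤
      ∑ n ∈ S.filter (fun n => ¬ (1 ≤ r n ∧ τ ≤ r n)), max τ 0 := by
    apply Finset.sum_le_sum
    intro n hn
    rw [Finset.mem_filter] at hn
    by_cases h : 1 ≤ r n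
    · have : ¬ τ ≤ r n := fun h' => hn.2 ⟨h, h'⟩
      push Not at this
      exact this.le.trans (le_max_left _ _)
    · have : r n = 0 := by omega
      rw [this]; simp
  have hsum_nonneg : 0 ≤ ∑ n ∈ S, (r n : ℝ) := Finset.sum_nonneg (fun n _ => Nat.cast_nonneg _)
  have h3 : ∑ n ∈ S.filter (fun n => ¬ (1 ≤ r n ∧ τ ≤ r n)), max τ 0 ≤ (∑ n ∈ S, (r n : ℝ)) / 2 := by
    rw [Finset.sum_const, nsmul_eq_mul]
    have h4 : ((S.filter (fun n => ¬ (1 ≤ r n ∧ τ ≤ r n))).card : ℝ) ≤ S.card := by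
      exact_mod_cast Finset.card_filter_le _ _
    rcases le_total τ 0 with h | h
    · rw [max_eq_right h]; simp; positivity
    · rw [max_eq_left h]
      calc _ ≤ (S.card : ℝ) * τ := mul_le_mul_of_nonneg_right h4 h
        _ = τ * S.card := mul_comm _ _
        _ ≤ _ := hτ
  have h5 : (∑ n ∈ S, (r n : ℝ)) / 2 ≤ ∑ n ∈ T, (r n : ℝ) := by linarith
  have h6 : (∑ n ∈ T, (r n : ℝ)) ^ 2 ≤ (T.card : ℝ) * ∑ n ∈ T, (r n : ℝ) ^ 2 :=
    sq_sum_le_card_mul_sum_sq
  have h7 : ∑ n ∈ T, (r n : ℝ) ^ 2 ≤ ∑ n ∈ S, (r n : ℝ) ^ 2 := by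
    apply Finset.sum_le_sum_of_subset_of_nonneg (Finset.filter_subset _ _)
    intro n _ _; positivity
  calc (∑ n ∈ S, (r n : ℝ)) ^ 2 / 4 = ((∑ n ∈ S, (r n : ℝ)) / 2) ^ 2 := by ring
    _ ≤ (∑ n ∈ T, (r n : ℝ)) ^ 2 := pow_le_pow_left₀ (by positivity) h5 2
    _ ≤ (T.card : ℝ) * ∑ n ∈ T, (r n : ℝ) ^ 2 := h6
    _ ≤ _ := mul_le_mul_of_nonneg_left h7 (by positivity)

end Pool.Agent.Work.MP_70e905_nt
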