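import Mathlib

set_option autoImplicit false

namespace Pool.Agent.Work.MP_70e905_nt

open Finset Filter

lemma tendsto_log_nat : Tendsto (fun z : ℕ => Real.log (z : ℝ)) atTop atTop :=
  Real.tendsto_log_atTop.comp tendsto_natCast_atTop_atTop

lemma tendsto_loglog_nat : Tendsto (fun z : ℕ => Real.log (Real.log (z : ℝ))) atTop atTop :=
  Real.tendsto_log_atTop.comp tendsto_log_nat

lemma ev_log_ge (K : ℝ) : ∀ᶠ z : ℕ in atTop, K ≤ Real.log (z : ℝ) :=
  tendsto_log_nat.eventually_ge_atTop K

lemma ev_loglog_ge (K : ℝ) : ∀ᶠ z : ℕ in atTop, K ≤ Real.log (Real.log (z : ℝ)) :=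
  tendsto_loglog_nat.eventually_ge_atTop K

lemma ev_sq_le (K : ℝ) : ∀ᶠ x : ℝ in atTop, K * (Real.log x) ^ 2 ≤ x := by
  have h := (Real.isLittleO_pow_log_id_atTop (n := 2)).bound (c := 1 / (|K| + 1)) (by positivity)
  filter_upwards [h, eventually_ge_atTop 1] with x hx hx1
  rw [Real.norm_of_nonneg (by positivity)] at hx
  simp only [id] at hx
  rw [Real.norm_of_nonneg (by linarith : (0:ℝ) ≤ x)] at hx
  have h1 : K * (Real.log x) ^ 2 ≤ |K| * (Real.log x) ^ 2 := by
    apply mul_le_mul_of_nonneg_right (le_abs_self K) (by positivity)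
  have h2 : (|K| + 1) * (Real.log x) ^ 2 ≤ x := by
    rw [div_mul_eq_mul_div, one_mul, le_div_iff₀ (by positivity)] at hx
    linarith
  have h3 : 0 ≤ (Real.log x) ^ 2 := by positivity
  linarith

lemma ev_loglog_sq (K : ℝ) : ∀ᶠ z : ℕ in atTop,
    K * (Real.log (Real.log (z : ℝ))) ^ 2 ≤ Real.log (z : ℝ) :=
  tendsto_log_nat.eventually (ev_sq_le K)

/-- number of primes in `(z/16, z]` -/
lemma ev_primes_large : ∀ᶠ z : ℕ in atTop,
    (1 / 4 : ℝ) * (z / Real.log z) ≤
      (((Finset.Ioc (z / 16) z).filter (fun l : ℕ => l.Prime)).card : ℝ) := by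
  have hsqrt : ∀ᶠ z : ℕ in atTop, (100:ℝ) * (Real.log z) ≤ Real.sqrt z := by
    have h := (isLittleO_log_rpow_atTop (r := 1/2) (by norm_num)).bound
      (c := 1 / 100) (by norm_num)
    have h' := tendsto_natCast_atTop_atTop (R := ℝ) |>.eventually h
    filter_upwards [h', eventually_ge_atTop 1] with z hz hz1
    have hz1' : (1:ℝ) ≤ z := by exact_mod_cast hz1
    rw [Real.norm_of_nonneg (Real.log_nonneg hz1'), Real.norm_of_nonneg (by positivity),
      ← Real.sqrt_eq_rpow] at hz
    linarith
  filter_upwards [hsqrt, ev_log_ge 100, eventually_ge_atTop 100] with z hz hlog hz100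
  have hzR : (100:ℝ) ≤ z := by exact_mod_cast hz100
  set L := Real.log (z:ℝ) with hL
  have hLpos : 0 < L := by linarith
  have h1 := Chebyshev.pi_ge z
  rw [← hL] at h1
  -- upper bound for pi (z/16)
  set z' := z / 16 with hz'
  have hz'R : (z' : ℝ) ≤ z / 16 := by
    have := Nat.cast_div_le (α := ℝ) (m := z) (n := 16)
    simpa using this
  have hz'32 : (z : ℝ) / 32 ≤ z' := by
    have h2 : z ≤ 32 * z' := by omega
    have h3 : (z:ℝ) ≤ 32 * z' := by exact_mod_cast h2
    linarith
  have hz'1 : (1:ℝ) < z' := by linarith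
  have h2 := Chebyshev.pi_le_log4_mul_div hz'1
  rw [Nat.floor_natCast] at h2
  have hlogz' : 0.9 * L ≤ Real.log z' := by
    have h3 : Real.log (z / 32) ≤ Real.log z' := Real.log_le_log (by positivity) hz'32
    rw [Real.log_div (by positivity) (by norm_num)] at h3
    have h4 : Real.log 32 ≤ 5 := by
      rw [show (32:ℝ) = 2 ^ 5 by norm_num, Real.log_pow]
      have := Real.log_two_lt_d9
      push_cast
      linarith
    rw [← hL] at h3
    linarith
  have hlogs : Real.log (Real.sqrt z') = Real.log z' / 2 := by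
    rw [Real.log_sqrt (by linarith)]
  have h5 : Real.log 4 * z' / Real.log (Real.sqrt z') ≤ 0.2 * (z / L) := by
    rw [hlogs]
    have h6 : Real.log 4 ≤ 1.3863 := by
      rw [show (4:ℝ) = 2 ^ 2 by norm_num, Real.log_pow]
      have := Real.log_two_lt_d9
      push_cast
      linarith
    have h7 : Real.log z' / 2 ≥ 0.45 * L := by linarith
    calc Real.log 4 * z' / (Real.log z' / 2) ≤ 1.3863 * (z / 16) / (0.45 * L) := by
          apply div_le_div₀ (by positivity) _ (by positivity) h7
          apply mul_le_mul h6 hz'R (by positivity) (by norm_num)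
      _ = (1.3863 / 16 / 0.45) * (z / L) := by field_simp
      _ ≤ 0.2 * (z / L) := by
          apply mul_le_mul_of_nonneg_right _ (by positivity)
          norm_num
  have h8 : Real.sqrt z' ≤ 0.01 * (z / L) := by
    have h9 : Real.sqrt z' ≤ Real.sqrt z := Real.sqrt_le_sqrt (by linarith)
    have h10 : Real.sqrt z * Real.sqrt z = z := Real.mul_self_sqrt (by linarith)
    have h11 : 0 < Real.sqrt z := Real.sqrt_pos.2 (by linarith)
    have h12 : Real.sqrt z ≤ 0.01 * (z / L) := by
      rw [← h10]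
      rw [← mul_div_assoc, le_div_iff₀ hLpos]
      have h13 := Real.mul_self_sqrt (show (0:ℝ) ≤ z by linarith)
      rw [h13]
      nlinarith
    linarith
  have h14 : (0.69 : ℝ) * (z / L) - 2 ≤ (z * Real.log 2 - Real.log (z + 1)) / L := by
    have h15 : Real.log ((z:ℝ) + 1) ≤ 2 * L := by
      have h16 : (z:ℝ) + 1 ≤ z ^ 2 := by nlinarith
      calc Real.log ((z:ℝ) + 1) ≤ Real.log ((z:ℝ) ^ 2) := Real.log_le_log (by positivity) h16
        _ = 2 * L := by rw [Real.log_pow]; push_cast; rfl
    have h17 := Real.log_two_gt_d9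
    rw [le_div_iff₀ hLpos, sub_mul, mul_assoc, div_mul_cancel₀ _ hLpos.ne']
    nlinarith
  have h18 : (2:ℝ) ≤ 0.02 * (z / L) := by
    have h19 : (1:ℝ) ≤ Real.sqrt z := by
      rw [Real.one_le_sqrt]; linarith
    have h20 := Real.mul_self_sqrt (show (0:ℝ) ≤ z by linarith)
    rw [← mul_div_assoc, le_div_iff₀ hLpos]
    nlinarith
  have hcard : (((Finset.Ioc z' z).filter (fun l : ℕ => l.Prime)).card : ℝ) =
      Nat.primeCounting z - Nat.primeCounting z' := by
    have h21 : Disjoint ((Finset.Ioc z' z).filter (fun l : ℕ => l.Prime)) (Nat.primesLE z') := by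
      rw [Finset.disjoint_left]
      intro a ha hb
      rw [Finset.mem_filter, Finset.mem_Ioc] at ha
      rw [Nat.mem_primesLE] at hb
      omega
    have h22 : (Finset.Ioc z' z).filter (fun l : ℕ => l.Prime) ∪ Nat.primesLE z' =
        Nat.primesLE z := by
      ext a
      rw [Finset.mem_union, Finset.mem_filter, Finset.mem_Ioc, Nat.mem_primesLE, Nat.mem_primesLE]
      constructor
      · rintro (h | h)
        · exact ⟨h.1.2, h.2⟩
        · exact ⟨by omega, h.2⟩
      · intro h
        by_cases h' : a ≤ z'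
        · right; exact ⟨h', h.2⟩
        · left; exact ⟨⟨by omega, h.1⟩, h.2⟩
    have h23 := Finset.card_union_of_disjoint h21
    rw [h22, Nat.primesLE_card_eq_primeCounting, Nat.primesLE_card_eq_primeCounting] at h23
    have h24 : (Nat.primeCounting z : ℝ) =
      ((Finset.Ioc z' z).filter (fun l : ℕ => l.Prime)).card + Nat.primeCounting z' := by
      exact_mod_cast h23
    linarith
  rw [hcard]
  linarith

end Pool.Agent.Work.MP_70e905_nt
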