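import Mathlib
import Pool.Agent.Work.MP_70e905_nt.Moments
import Pool.Agent.Work.MP_70e905_nt.Params

set_option autoImplicit false

namespace Pool.Agent.Work.MP_70e905_nt

open Finset Filter

/-- number of primes `q ≤ y` with `n + q` prime -/
def repAll (y n : ℕ) : ℕ := ((Finset.Icc 1 y).filter (fun q : ℕ => q.Prime ∧ (n + q).Prime)).card

lemma rep_le_repAll {y0 y : ℕ} (h : y0 ≤ y) (n : ℕ) : rep y0 n ≤ repAll y n := by
  unfold rep repAll
  apply Finset.card_le_card
  intro q hq
  rw [Finset.mem_filter, mem_oddPr] at hq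
  rw [Finset.mem_filter, Finset.mem_Icc]
  exact ⟨⟨by omega, by omega⟩, hq.1.2, hq.2⟩

lemma card_oddPr (y : ℕ) (hy : 2 ≤ y) : (oddPr y).card + 1 = Nat.primeCounting y := by
  have h1 : Nat.primesLE y = insert 2 (oddPr y) := by
    ext q
    rw [Nat.mem_primesLE, Finset.mem_insert, mem_oddPr]
    constructor
    · rintro ⟨h, hp⟩
      rcases Nat.lt_or_ge q 3 with h' | h'
      · left
        have := hp.two_le
        omega
      · right; exact ⟨⟨h', h⟩, hp⟩
    · rintro (h | h)
      · rw [h]; exact ⟨hy, Nat.prime_two⟩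
      · exact ⟨h.1.2, h.2⟩
  have h2 : 2 ∉ oddPr y := by
    rw [mem_oddPr]; omega
  rw [← Nat.primesLE_card_eq_primeCounting, h1, Finset.card_insert_of_notMem h2]

lemma two_le_pi (y : ℕ) (hy : 3 ≤ y) : 2 ≤ Nat.primeCounting y := by
  calc 2 = Nat.primeCounting 3 := by decide
    _ ≤ Nat.primeCounting y := Nat.monotone_primeCounting hy

lemma oddPr_ge (y : ℕ) (hy : 3 ≤ y) : (y:ℝ) / Real.log y ≤ 10 * (oddPr y).card := by
  have hyR : (3:ℝ) ≤ y := by exact_mod_cast hy
  have hlog : 0 < Real.log y := Real.log_pos (by linarith)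
  have h1 := Chebyshev.pi_ge y
  have h2 : 0.2 * (y:ℝ) ≤ y * Real.log 2 - Real.log (y + 1) := by
    have h3 : Real.log ((y:ℝ) + 1) ≤ Real.log 4 + ((y:ℝ) - 3) / 4 := by
      have h4 : Real.log (((y:ℝ) + 1) / 4) ≤ ((y:ℝ) + 1) / 4 - 1 :=
        Real.log_le_sub_one_of_pos (by positivity)
      rw [Real.log_div (by positivity) (by norm_num)] at h4
      linarith
    have h5 : Real.log 4 = 2 * Real.log 2 := by
      rw [show (4:ℝ) = 2 ^ 2 by norm_num, Real.log_pow]; norm_num
    have h6 := Real.log_two_gt_d9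
    have h7 := Real.log_two_lt_d9
    rw [h5] at h3
    nlinarith
  have h8 : 0.2 * ((y:ℝ) / Real.log y) ≤ Nat.primeCounting y := by
    refine le_trans ?_ h1
    rw [← mul_div_assoc]
    gcongr
  have h9 : ((oddPr y).card : ℝ) + 1 = Nat.primeCounting y := by
    exact_mod_cast card_oddPr y (by omega)
  have h10 : (2:ℝ) ≤ Nat.primeCounting y := by exact_mod_cast two_le_pi y hy
  linarith

lemma first_moment_eq (X y : ℕ) :
    ∑ n ∈ evens X, (rep y n : ℝ) =
      ∑ q ∈ oddPr y, (((evens X).filter (fun n : ℕ => (n + q).Prime)).card : ℝ) := by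
  unfold rep
  have h1 : ∀ n ∈ evens X, (((oddPr y).filter (fun q : ℕ => (n + q).Prime)).card : ℝ) =
      ∑ q ∈ oddPr y, if (n + q).Prime then (1:ℝ) else 0 := by
    intro n _
    rw [Finset.sum_ite, Finset.sum_const_zero, add_zero, Finset.sum_const, nsmul_eq_mul, mul_one]
  rw [Finset.sum_congr rfl h1, Finset.sum_comm]
  apply Finset.sum_congr rfl; intro q _
  rw [Finset.sum_ite, Finset.sum_const_zero, add_zero, Finset.sum_const, nsmul_eq_mul, mul_one]

lemma first_moment_ge (X y : ℕ) (hy : y ≤ X / 16)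
    (hX : (1 / 4 : ℝ) * (X / Real.log X) ≤
      (((Finset.Ioc (X / 16) X).filter (fun l : ℕ => l.Prime)).card : ℝ)) :
    ((oddPr y).card : ℝ) * ((1 / 4 : ℝ) * (X / Real.log X)) ≤ ∑ n ∈ evens X, (rep y n : ℝ) := by
  rw [first_moment_eq, ← nsmul_eq_mul, ← Finset.sum_const]
  apply Finset.sum_le_sum
  intro q hq
  rw [mem_oddPr] at hq
  refine hX.trans ?_
  have : ((Finset.Ioc (X / 16) X).filter (fun l : ℕ => l.Prime)).card ≤
      ((evens X).filter (fun n : ℕ => (n + q).Prime)).card := by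
    apply Finset.card_le_card_of_injOn (fun p => p - q)
    · intro p hp
      rw [Finset.mem_coe, Finset.mem_filter, Finset.mem_Ioc] at hp
      rw [Finset.mem_coe, Finset.mem_filter, mem_evens]
      have h1 : q < p := by omega
      have hpo : Odd p := hp.2.odd_of_ne_two (by omega)
      have hqo : Odd q := hq.2.odd_of_ne_two (by omega)
      refine ⟨⟨⟨?_, ?_⟩, ?_⟩, ?_⟩
      · show 1 ≤ p - q
        omega
      · show p - q ≤ X
        omega
      · exact (Nat.Odd.sub_odd hpo hqo)
      · show (p - q + q).Prime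
        rw [Nat.sub_add_cancel h1.le]; exact hp.2
    · intro a ha b hb hab
      rw [Finset.mem_coe, Finset.mem_filter, Finset.mem_Ioc] at ha hb
      simp only at hab
      omega
  exact_mod_cast this

/-- Lower bound, all ranges. -/
theorem local_lower : ∃ c : ℝ, 0 < c ∧ ∀ᶠ X : ℕ in atTop, ∀ y : ℕ, 3 ≤ y → y ≤ X →
    c * X * min 1 (Nat.primeCounting y / Real.log X) ≤
      (((Finset.Icc 1 X).filter (fun n : ℕ => Even n ∧ 1 ≤ repAll y n ∧
        c * (Nat.primeCounting y / Real.log X) ≤ repAll y n)).card : ℝ) := by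
  classical
  set D : ℝ := 671846400 with hD
  set c : ℝ := 1 / (16 * (1 + 4 * D)) * (1 / 960) with hc
  refine ⟨c, by rw [hc, hD]; norm_num, ?_⟩
  have hpi : ∀ᶠ X : ℕ in atTop, (Nat.primeCounting X : ℝ) ≤ 3 * (X / Real.log X) := by
    have h1 := tendsto_natCast_atTop_atTop (R := ℝ) |>.eventually
      (Chebyshev.eventually_primeCounting_le (ε := 1) one_pos)
    filter_upwards [h1, eventually_ge_atTop 2] with X hX hX2
    rw [Nat.floor_natCast] at hX
    refine hX.trans ?_
    have h4 : Real.log 4 ≤ 2 := by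
      rw [show (4:ℝ) = 2 ^ 2 by norm_num, Real.log_pow]
      have := Real.log_two_lt_d9
      push_cast
      linarith
    have hlog : 0 < Real.log X := Real.log_pos (by exact_mod_cast (by omega : 1 < X))
    rw [mul_div_assoc]
    apply mul_le_mul_of_nonneg_right _ (by positivity)
    linarith
  filter_upwards [ev_primes_large, hpi, ev_log_ge 1, eventually_ge_atTop 100]
    with X hlarge hpiX hlog1 hX100 y hy3 hyX
  set L := Real.log (X:ℝ) with hL
  have hLpos : 0 < L := by linarith
  have hXR : (100:ℝ) ≤ X := by exact_mod_cast hX100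
  set y0 := min y (X / 16) with hy0
  have hy03 : 3 ≤ y0 := by rw [hy0]; omega
  have hy0X : y0 ≤ X / 16 := min_le_right _ _
  have hy0y : y0 ≤ y := min_le_left _ _
  have hy0X' : y0 ≤ X := by omega
  set P0 : ℝ := ((oddPr y0).card : ℝ) with hP0
  have hP0eq : P0 + 1 = Nat.primeCounting y0 := by
    rw [hP0]; exact_mod_cast card_oddPr y0 (by omega)
  have hpi2 : (2:ℝ) ≤ Nat.primeCounting y0 := by exact_mod_cast two_le_pi y0 hy03
  have hP01 : 1 ≤ P0 := by linarith
  have hB := oddPr_ge y0 hy03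
  rw [← hP0] at hB
  -- P0 ≥ π(y)/960
  have hA : (Nat.primeCounting y : ℝ) ≤ 960 * P0 := by
    rcases le_total y (X / 16) with h | h
    · have : y0 = y := min_eq_left h
      rw [this] at hP0eq hpi2
      linarith
    · have hyy : y0 = X / 16 := min_eq_right h
      have h1 : (Nat.primeCounting y : ℝ) ≤ Nat.primeCounting X := by
        exact_mod_cast Nat.monotone_primeCounting hyX
      have h2 : (X:ℝ) / 32 ≤ y0 := by
        have h2 : X ≤ 32 * y0 := by omega
        have h3 : (X:ℝ) ≤ 32 * y0 := by exact_mod_cast h2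
        linarith
      have hy0R : (3:ℝ) ≤ y0 := by exact_mod_cast hy03
      have h3 : (X:ℝ) / 32 / L ≤ y0 / Real.log y0 := by
        have h4 : Real.log y0 ≤ L := Real.log_le_log (by linarith) (by exact_mod_cast hy0X')
        have h5 : 0 < Real.log y0 := Real.log_pos (by linarith)
        gcongr
      have h6 : (X:ℝ) / 32 / L = (X / L) / 32 := by ring
      rw [h6] at h3
      linarith
  set m : ℝ := P0 * ((1 / 4 : ℝ) * (X / L)) with hm
  have hmpos : 0 < m := by rw [hm]; positivity
  set M1 : ℝ := ∑ n ∈ evens X, (rep y0 n : ℝ) with hM1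
  have hM1m : m ≤ M1 := first_moment_ge X y0 hy0X hlarge
  set M2 : ℝ := ∑ n ∈ evens X, (rep y0 n : ℝ) ^ 2 with hM2
  have hM2' : M2 ≤ M1 + 4 * D * m * (P0 / L) := by
    have h1 := second_moment X y0 (by omega) (by omega) hy0X'
    refine h1.trans ?_
    apply add_le_add le_rfl
    rw [← hL]
    have h2 : ((y0 : ℝ) / Real.log y0) ^ 2 ≤ (10 * P0) ^ 2 := by
      have hy0R : (3:ℝ) ≤ y0 := by exact_mod_cast hy03
      have h5 : 0 < Real.log y0 := Real.log_pos (by linarith)
      exact pow_le_pow_left₀ (by positivity) hB 2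
    calc 6718464 * (((y0 : ℝ) / Real.log y0) ^ 2 * ((X : ℝ) / L ^ 2))
        ≤ 6718464 * ((10 * P0) ^ 2 * ((X : ℝ) / L ^ 2)) := by gcongr
      _ = 4 * D * m * (P0 / L) := by rw [hm, hD]; field_simp; norm_num
  have hcardev : ((evens X).card : ℝ) ≤ X := by
    have : (evens X).card ≤ X := by
      calc (evens X).card ≤ (Finset.Icc 1 X).card := Finset.card_filter_le _ _
        _ = X := by simp
    exact_mod_cast this
  set τ : ℝ := P0 / (8 * L) with hτ
  have hPZ := paley_zygmund (evens X) (rep y0) τ (by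
    rw [← hM1]
    calc τ * ((evens X).card : ℝ) ≤ τ * X := by
          apply mul_le_mul_of_nonneg_left hcardev; rw [hτ]; positivity
      _ = m / 2 := by rw [hτ, hm]; field_simp; norm_num
      _ ≤ M1 / 2 := by linarith)
  rw [← hM1, ← hM2] at hPZ
  set T := (evens X).filter (fun n => 1 ≤ rep y0 n ∧ τ ≤ (rep y0 n : ℝ)) with hT
  set ρ : ℝ := P0 / L with hρ
  have hρpos : 0 < ρ := by rw [hρ]; positivity
  have hDpos : 0 < D := by rw [hD]; norm_num
  -- |T| ≥ m / (4 (1 + 4 D ρ))
  have hTge : m / (4 * (1 + 4 * D * ρ)) ≤ (T.card : ℝ) := by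
    have hM1pos : 0 < M1 := by linarith
    have h1 : M2 ≤ M1 * (1 + 4 * D * ρ) := by
      have h2 : 4 * D * m * ρ ≤ 4 * D * M1 * ρ := by gcongr
      linarith
    have h3 : M1 ^ 2 / 4 ≤ (T.card : ℝ) * (M1 * (1 + 4 * D * ρ)) :=
      hPZ.trans (mul_le_mul_of_nonneg_left h1 (by positivity))
    have h4 : M1 ≤ (T.card : ℝ) * (4 * (1 + 4 * D * ρ)) := by
      have h5 : M1 * M1 ≤ M1 * ((T.card : ℝ) * (4 * (1 + 4 * D * ρ))) := by nlinarith
      exact le_of_mul_le_mul_left h5 hM1pos
    rw [div_le_iff₀ (by positivity)]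
    linarith
  have hTge2 : 1 / (16 * (1 + 4 * D)) * X * min 1 ρ ≤ m / (4 * (1 + 4 * D * ρ)) := by
    have h1 : m = ρ * X / 4 := by rw [hm, hρ]; field_simp
    rw [h1, le_div_iff₀ (by positivity)]
    have h2 : min 1 ρ * (1 + 4 * D * ρ) ≤ (1 + 4 * D) * ρ := by
      rcases le_total 1 ρ with h | h
      · rw [min_eq_left h]; nlinarith
      · rw [min_eq_right h]; nlinarith [mul_pos hDpos hρpos]
    calc 1 / (16 * (1 + 4 * D)) * X * min 1 ρ * (4 * (1 + 4 * D * ρ))
        = 1 / (16 * (1 + 4 * D)) * X * 4 * (min 1 ρ * (1 + 4 * D * ρ)) := by ring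
      _ ≤ 1 / (16 * (1 + 4 * D)) * X * 4 * ((1 + 4 * D) * ρ) := by gcongr
      _ = ρ * X / 4 := by field_simp; norm_num
  have hmin : 1 / 960 * min 1 ((Nat.primeCounting y : ℝ) / L) ≤ min 1 ρ := by
    apply le_min
    · have : min 1 ((Nat.primeCounting y : ℝ) / L) ≤ 1 := min_le_left _ _
      linarith
    · have h1 : min 1 ((Nat.primeCounting y : ℝ) / L) ≤ (Nat.primeCounting y : ℝ) / L :=
        min_le_right _ _
      have h2 : (Nat.primeCounting y : ℝ) / L ≤ 960 * ρ := by
        rw [hρ, ← mul_div_assoc]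
        gcongr
      linarith
  have hsub : T ⊆ (Finset.Icc 1 X).filter (fun n : ℕ => Even n ∧ 1 ≤ repAll y n ∧
        c * (Nat.primeCounting y / L) ≤ repAll y n) := by
    intro n hn
    rw [hT, Finset.mem_filter, mem_evens] at hn
    rw [Finset.mem_filter, Finset.mem_Icc]
    have h1 := rep_le_repAll hy0y n
    have h1R : (rep y0 n : ℝ) ≤ repAll y n := by exact_mod_cast h1
    refine ⟨hn.1.1, hn.1.2, hn.2.1.trans h1, ?_⟩
    have h2 : c * (Nat.primeCounting y / L) ≤ τ := by
      have h3 : (Nat.primeCounting y : ℝ) / L ≤ 960 * ρ := by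
        rw [hρ, ← mul_div_assoc]
        gcongr
      have h4 : c ≤ 1 / 7680 := by rw [hc, hD]; norm_num
      have h5 : (0:ℝ) ≤ (Nat.primeCounting y : ℝ) / L := by positivity
      have h6 : τ = ρ / 8 := by rw [hτ, hρ]; field_simp
      rw [h6]
      calc c * ((Nat.primeCounting y : ℝ) / L) ≤ 1 / 7680 * (960 * ρ) := by gcongr
        _ = ρ / 8 := by ring
    linarith [hn.2.2]
  have hTcard : (T.card : ℝ) ≤ (((Finset.Icc 1 X).filter (fun n : ℕ => Even n ∧ 1 ≤ repAll y n ∧
        c * (Nat.primeCounting y / L) ≤ repAll y n)).card : ℝ) := by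
    exact_mod_cast Finset.card_le_card hsub
  refine le_trans ?_ hTcard
  refine le_trans ?_ hTge
  refine le_trans ?_ hTge2
  calc c * X * min 1 (Nat.primeCounting y / L)
      = 1 / (16 * (1 + 4 * D)) * X * (1 / 960 * min 1 ((Nat.primeCounting y : ℝ) / L)) := by
        rw [hc]; ring
    _ ≤ 1 / (16 * (1 + 4 * D)) * X * min 1 ρ := by gcongr

/-- Upper bound, all ranges. -/
theorem local_upper : ∃ C : ℝ, 0 < C ∧ ∀ᶠ X : ℕ in atTop, ∀ y : ℕ, y ≤ X →
    (((Finset.Icc 1 X).filter (fun n : ℕ => 1 ≤ repAll y n)).card : ℝ) ≤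
      C * X * min 1 (Nat.primeCounting y / Real.log X) := by
  classical
  refine ⟨6, by norm_num, ?_⟩
  have hpi : ∀ᶠ X : ℕ in atTop, (Nat.primeCounting (2 * X) : ℝ) ≤ 6 * (X / Real.log X) := by
    have h1 := (tendsto_natCast_atTop_atTop (R := ℝ)).eventually
      (Chebyshev.eventually_primeCounting_le (ε := 1) one_pos)
    have h2 : Tendsto (fun X : ℕ => 2 * X) atTop atTop :=
      tendsto_id.const_mul_atTop' (by norm_num)
    have h3 := h2.eventually h1
    filter_upwards [h3, eventually_ge_atTop 2] with X hX hX2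
    rw [Nat.floor_natCast] at hX
    refine hX.trans ?_
    have h4 : Real.log 4 ≤ 2 := by
      rw [show (4:ℝ) = 2 ^ 2 by norm_num, Real.log_pow]
      have := Real.log_two_lt_d9
      push_cast
      linarith
    have hX2R : (2:ℝ) ≤ X := by exact_mod_cast hX2
    have hlog : 0 < Real.log X := Real.log_pos (by linarith)
    have hlog2 : Real.log X ≤ Real.log ((2 * X : ℕ) : ℝ) := by
      apply Real.log_le_log (by linarith)
      push_cast; linarith
    calc (Real.log 4 + 1) * ((2 * X : ℕ) : ℝ) / Real.log ((2 * X : ℕ) : ℝ)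
        ≤ 3 * ((2 * X : ℕ) : ℝ) / Real.log X := by
          gcongr
          linarith
      _ = 6 * (X / Real.log X) := by push_cast; ring
  filter_upwards [hpi, ev_log_ge 1] with X hpiX hlog1 y hyX
  set L := Real.log (X:ℝ) with hL
  have hLpos : 0 < L := by linarith
  have h1 : (((Finset.Icc 1 X).filter (fun n : ℕ => 1 ≤ repAll y n)).card : ℝ) ≤ X := by
    have : ((Finset.Icc 1 X).filter (fun n : ℕ => 1 ≤ repAll y n)).card ≤ X := by
      calc _ ≤ (Finset.Icc 1 X).card := Finset.card_filter_le _ _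
        _ = X := by simp
    exact_mod_cast this
  have h2 : (((Finset.Icc 1 X).filter (fun n : ℕ => 1 ≤ repAll y n)).card : ℝ) ≤
      Nat.primeCounting y * Nat.primeCounting (2 * X) := by
    have h3 : (Finset.Icc 1 X).filter (fun n : ℕ => 1 ≤ repAll y n) ⊆
        (Nat.primesLE y ×ˢ Nat.primesLE (2 * X)).image (fun x => x.2 - x.1) := by
      intro n hn
      rw [Finset.mem_filter, Finset.mem_Icc] at hn
      unfold repAll at hn
      obtain ⟨q, hq⟩ := Finset.card_pos.1 hn.2
      rw [Finset.mem_filter, Finset.mem_Icc] at hq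
      rw [Finset.mem_image]
      refine ⟨(q, n + q), ?_, ?_⟩
      · rw [Finset.mem_product, Nat.mem_primesLE, Nat.mem_primesLE]
        exact ⟨⟨hq.1.2, hq.2.1⟩, ⟨by show n + q ≤ 2 * X; omega, hq.2.2⟩⟩
      · show n + q - q = n
        omega
    have h4 := (Finset.card_le_card h3).trans Finset.card_image_le
    rw [Finset.card_product, Nat.primesLE_card_eq_primeCounting,
      Nat.primesLE_card_eq_primeCounting] at h4
    exact_mod_cast h4
  have hXnn : (0:ℝ) ≤ X := Nat.cast_nonneg X
  rcases le_total (1:ℝ) (Nat.primeCounting y / L) with h | h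
  · rw [min_eq_left h]; linarith
  · rw [min_eq_right h]
    calc _ ≤ (Nat.primeCounting y : ℝ) * Nat.primeCounting (2 * X) := h2
      _ ≤ Nat.primeCounting y * (6 * (X / L)) := by gcongr
      _ = 6 * X * (Nat.primeCounting y / L) := by ring

end Pool.Agent.Work.MP_70e905_nt
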