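import Mathlib
import Pool.Agent.Work.Sieve.PairBound
import Pool.Agent.Work.Sieve.MeanPhi

open Finset Nat
open Pool.Agent.Work.Sieve

namespace Pool.Agent.Work.MP_70e905_nt

/-- `m` is good: `m n` is a difference of two primes `≤ x`. -/
def Good (n x m : ℕ) : Prop := ∃ p q : ℕ, p.Prime ∧ q.Prime ∧ p = q + m * n ∧ p ≤ x

open Classical in
/-- primes up to `x` coprime to `n` -/
noncomputable def PP (n x : ℕ) : Finset ℕ := (Finset.Icc 1 x).filter (fun p => p.Prime ∧ Nat.Coprime p n)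

open Classical in
/-- pairs of primes in the same class -/
noncomputable def DD (n x : ℕ) : Finset (ℕ × ℕ) :=
  ((PP n x) ×ˢ (PP n x)).filter (fun w => w.2 < w.1 ∧ w.1 % n = w.2 % n)

open Classical in
theorem card_PP_sq_le {n : ℕ} (hn : 0 < n) (x : ℕ) :
    ((PP n x).card : ℝ) ^ 2 ≤ (Nat.totient n : ℝ) * ((PP n x).card + 2 * (DD n x).card) := by
  set R := (Finset.range n).filter (fun r => Nat.Coprime n r) with hR
  have hRcard : R.card = Nat.totient n := by
    rw [hR]; rfl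
  have hmaps : ∀ p ∈ PP n x, p % n ∈ R := by
    intro p hp
    rw [PP, Finset.mem_filter] at hp
    rw [hR, Finset.mem_filter, Finset.mem_range]
    refine ⟨Nat.mod_lt _ hn, ?_⟩
    rw [Nat.coprime_comm, Nat.Coprime, ← Nat.gcd_rec, Nat.gcd_comm]
    exact hp.2.2
  have h1 : (PP n x).card = ∑ r ∈ R, ((PP n x).filter (fun p => p % n = r)).card :=
    Finset.card_eq_sum_card_fiberwise hmaps
  have h2 : ((PP n x).card : ℝ) ^ 2 ≤ (R.card : ℝ) *
      ∑ r ∈ R, (((PP n x).filter (fun p => p % n = r)).card : ℝ) ^ 2 := by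
    rw [h1]
    push_cast
    exact sq_sum_le_card_mul_sum_sq
  have h3 : ∑ r ∈ R, (((PP n x).filter (fun p => p % n = r)).card : ℝ) ^ 2 =
      ((((PP n x) ×ˢ (PP n x)).filter (fun w => w.1 % n = w.2 % n)).card : ℝ) := by
    have hmaps2 : ∀ w ∈ ((PP n x) ×ˢ (PP n x)).filter (fun w => w.1 % n = w.2 % n), w.1 % n ∈ R := by
      intro w hw
      rw [Finset.mem_filter, Finset.mem_product] at hw
      exact hmaps _ hw.1.1
    rw [Finset.card_eq_sum_card_fiberwise hmaps2]
    push_cast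
    apply Finset.sum_congr rfl
    intro r _
    rw [pow_two, ← Nat.cast_mul, ← Finset.card_product]
    congr 2
    ext w
    simp only [Finset.mem_product, Finset.mem_filter]
    constructor
    · rintro ⟨⟨a1, a2⟩, ⟨b1, b2⟩⟩
      exact ⟨⟨⟨a1, b1⟩, by rw [a2, b2]⟩, a2⟩
    · rintro ⟨⟨⟨a1, b1⟩, c⟩, a2⟩
      exact ⟨⟨a1, a2⟩, ⟨b1, by rw [← c, a2]⟩⟩
  have h4 : ((((PP n x) ×ˢ (PP n x)).filter (fun w => w.1 % n = w.2 % n)).card : ℝ) ≤
      (PP n x).card + 2 * (DD n x).card := by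
    have hsub : ((PP n x) ×ˢ (PP n x)).filter (fun w => w.1 % n = w.2 % n) ⊆
        ((PP n x).image (fun p => (p, p)) ∪ DD n x) ∪ (DD n x).image (fun w => (w.2, w.1)) := by
      intro w hw
      rw [Finset.mem_filter, Finset.mem_product] at hw
      obtain ⟨⟨a, b⟩, c⟩ := hw
      rw [Finset.mem_union, Finset.mem_union, Finset.mem_image, Finset.mem_image]
      rcases lt_trichotomy w.1 w.2 with h | h | h
      · right
        refine ⟨(w.2, w.1), ?_, rfl⟩
        rw [DD, Finset.mem_filter, Finset.mem_product]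
        exact ⟨⟨b, a⟩, h, c.symm⟩
      · left; left
        exact ⟨w.1, a, Prod.ext rfl h⟩
      · left; right
        rw [DD, Finset.mem_filter, Finset.mem_product]
        exact ⟨⟨a, b⟩, h, c⟩
    have h5 := (Finset.card_le_card hsub).trans (Finset.card_union_le _ _)
    have h6 := Finset.card_union_le ((PP n x).image (fun p => (p, p))) (DD n x)
    have h7 := Finset.card_image_le (s := PP n x) (f := fun p => (p, p))
    have h8 := Finset.card_image_le (s := DD n x) (f := fun w => (w.2, w.1))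
    have h9 : (((PP n x) ×ˢ (PP n x)).filter (fun w => w.1 % n = w.2 % n)).card ≤
        (PP n x).card + 2 * (DD n x).card := by omega
    exact_mod_cast h9
  rw [hRcard, h3] at h2
  refine h2.trans ?_
  gcongr

open Classical in
theorem card_DD_le {n : ℕ} (hn : 0 < n) {M : ℕ} (hx : 2 ≤ M * n) :
    ((DD n (M * n)).card : ℝ) ≤ 216 * ((n : ℝ) / (Nat.totient n : ℝ)) *
      (((M * n : ℕ) : ℝ) / (Real.log ((M * n : ℕ) : ℝ)) ^ 2) *
      ∑ m ∈ (Finset.Icc 1 M).filter (fun m => Good n (M * n) m), (m : ℝ) / (Nat.totient m : ℝ) := by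
  set x := M * n with hxdef
  set G := (Finset.Icc 1 M).filter (fun m => Good n x m) with hG
  have hdata : ∀ w ∈ DD n x, w.1.Prime ∧ w.2.Prime ∧ w.1 = w.2 + (w.1 - w.2) / n * n ∧ w.1 ≤ x ∧
      1 ≤ (w.1 - w.2) / n ∧ (w.1 - w.2) / n ≤ M := by
    intro w hw
    rw [DD, Finset.mem_filter, Finset.mem_product, PP, Finset.mem_filter, Finset.mem_filter,
      Finset.mem_Icc, Finset.mem_Icc] at hw
    obtain ⟨⟨⟨⟨a1, a2⟩, a3, a4⟩, ⟨⟨b1, b2⟩, b3, b4⟩⟩, c, e⟩ := hw
    have hdvd : n ∣ w.1 - w.2 := (Nat.modEq_iff_dvd' c.le).mp e.symm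
    have h1 := Nat.div_mul_cancel hdvd
    refine ⟨a3, b3, by omega, a2, ?_, ?_⟩
    · exact Nat.div_pos (Nat.le_of_dvd (by omega) hdvd) hn
    · have : (w.1 - w.2) / n * n ≤ M * n := by omega
      exact Nat.le_of_mul_le_mul_right this hn
  have hmaps : ∀ w ∈ DD n x, (w.1 - w.2) / n ∈ G := by
    intro w hw
    obtain ⟨h1, h2, h3, h4, h5, h6⟩ := hdata w hw
    rw [hG, Finset.mem_filter, Finset.mem_Icc]
    exact ⟨⟨h5, h6⟩, w.1, w.2, h1, h2, h3, h4⟩
  rw [Finset.card_eq_sum_card_fiberwise hmaps]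
  push_cast
  rw [Finset.mul_sum]
  apply Finset.sum_le_sum
  intro m hm
  rw [hG, Finset.mem_filter, Finset.mem_Icc] at hm
  have hm0 : 0 < m := hm.1.1
  have hmn : 0 < m * n := Nat.mul_pos hm0 hn
  have hpair := pair_bound_shift hmn hx
  have hfib : (((DD n x).filter (fun w => (w.1 - w.2) / n = m)).card : ℝ) ≤
      (((Finset.Icc 1 x).filter (fun q : ℕ => q.Prime ∧ (q + m * n).Prime)).card : ℝ) := by
    norm_cast
    apply Finset.card_le_card_of_injOn (fun w => w.2)
    · intro w hw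
      rw [Finset.mem_coe, Finset.mem_filter] at hw
      obtain ⟨h1, h2, h3, h4, h5, h6⟩ := hdata w hw.1
      rw [hw.2] at h3
      rw [Finset.mem_coe, Finset.mem_filter, Finset.mem_Icc]
      refine ⟨⟨h2.one_lt.le, ?_⟩, h2, ?_⟩
      · show w.2 ≤ x
        omega
      · show (w.2 + m * n).Prime
        rw [← h3]; exact h1
    · intro w hw v hv hwv
      rw [Finset.mem_coe, Finset.mem_filter] at hw hv
      obtain ⟨_, _, h3, _⟩ := hdata w hw.1
      obtain ⟨_, _, h3', _⟩ := hdata v hv.1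
      rw [hw.2] at h3
      rw [hv.2] at h3'
      simp only at hwv
      exact Prod.ext (by rw [h3, h3', hwv]) hwv
  refine hfib.trans (hpair.trans ?_)
  have htm : (0 : ℝ) < Nat.totient m := by exact_mod_cast Nat.totient_pos.mpr hm0
  have htn : (0 : ℝ) < Nat.totient n := by exact_mod_cast Nat.totient_pos.mpr hn
  have htmn : (0 : ℝ) < Nat.totient (m * n) := by exact_mod_cast Nat.totient_pos.mpr hmn
  have hsuper : (Nat.totient m : ℝ) * (Nat.totient n : ℝ) ≤ (Nat.totient (m * n) : ℝ) := by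
    exact_mod_cast Nat.totient_super_multiplicative m n
  have hratio : ((m * n : ℕ) : ℝ) / (Nat.totient (m * n) : ℝ) ≤
      ((n : ℝ) / (Nat.totient n : ℝ)) * ((m : ℝ) / (Nat.totient m : ℝ)) := by
    calc ((m * n : ℕ) : ℝ) / (Nat.totient (m * n) : ℝ) ≤
          ((m * n : ℕ) : ℝ) / ((Nat.totient m : ℝ) * (Nat.totient n : ℝ)) := by gcongr
      _ = _ := by push_cast; field_simp
  have hlogpos : 0 ≤ (x : ℝ) / (Real.log (x : ℝ)) ^ 2 := by positivity
  calc 216 * (((m * n : ℕ) : ℝ) / (Nat.totient (m * n) : ℝ)) * ((x : ℝ) / (Real.log (x : ℝ)) ^ 2)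
      ≤ 216 * (((n : ℝ) / (Nat.totient n : ℝ)) * ((m : ℝ) / (Nat.totient m : ℝ))) *
        ((x : ℝ) / (Real.log (x : ℝ)) ^ 2) := by gcongr
    _ = _ := by ring

end Pool.Agent.Work.MP_70e905_nt
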