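import Mathlib
import Pool.Agent.Work.MP_70e905_nt.Multiples

open Finset Nat
open Pool.Agent.Work.Sieve

namespace Pool.Agent.Work.MP_70e905_nt

theorem card_primeFactors_le {n : ℕ} (hn : 0 < n) :
    (n.primeFactors.card : ℝ) ≤ Real.log n / Real.log 2 := by
  have h1 : 2 ^ n.primeFactors.card ≤ n := by
    calc 2 ^ n.primeFactors.card ≤ ∏ p ∈ n.primeFactors, p :=
          Finset.pow_card_le_prod _ _ _ (fun p hp => (Nat.prime_of_mem_primeFactors hp).two_le)
      _ ≤ n := Nat.le_of_dvd hn (Nat.prod_primeFactors_dvd n)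
  have h2 : ((2 : ℝ) ^ n.primeFactors.card) ≤ n := by exact_mod_cast h1
  have h3 := Real.log_le_log (by positivity) h2
  rw [Real.log_pow] at h3
  rw [le_div_iff₀ (Real.log_pos (by norm_num))]
  exact h3

theorem log_sq_le {x : ℝ} (hx : 1 ≤ x) : (Real.log x) ^ 2 ≤ 16 * √x := by
  have hx0 : 0 ≤ x := by linarith
  have h1 : Real.log x ≤ x ^ ((1 : ℝ) / 4) / (1 / 4) := Real.log_le_rpow_div hx0 (by norm_num)
  have h0 : 0 ≤ Real.log x := Real.log_nonneg hx
  have h2 : (Real.log x) ^ 2 ≤ (x ^ ((1 : ℝ) / 4) / (1 / 4)) ^ 2 := by gcongr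
  have h3 : (x ^ ((1 : ℝ) / 4) / (1 / 4)) ^ 2 = 16 * √x := by
    have : √x = (x ^ ((1 : ℝ) / 4)) ^ 2 := by
      rw [← Real.rpow_natCast, ← Real.rpow_mul hx0, Real.sqrt_eq_rpow]
      norm_num
    rw [this]; ring
  linarith

/-- many primes up to `x` coprime to `n` -/
theorem card_PP_ge {n x : ℕ} (hn : 0 < n) (hnx : n ≤ x) (hx : 100000 ≤ x) :
    (x : ℝ) / (2 * Real.log x) ≤ ((PP n x).card : ℝ) := by
  classical
  have hxr : (100000 : ℝ) ≤ x := by exact_mod_cast hx
  have hlog : 0 < Real.log x := Real.log_pos (by linarith)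
  have hpi := Chebyshev.pi_ge x
  have hsub : Nat.primesLE x ⊆ PP n x ∪ n.primeFactors := by
    intro p hp
    rw [Nat.mem_primesLE] at hp
    rw [Finset.mem_union]
    by_cases h : p ∣ n
    · right
      exact Nat.mem_primeFactors.mpr ⟨hp.2, h, hn.ne'⟩
    · left
      rw [PP, Finset.mem_filter, Finset.mem_Icc]
      exact ⟨⟨hp.2.one_lt.le, hp.1⟩, hp.2, (Nat.Prime.coprime_iff_not_dvd hp.2).mpr h⟩
  have h1 := (Finset.card_le_card hsub).trans (Finset.card_union_le _ _)
  have h2 : (Nat.primesLE x).card = Nat.primeCounting x := by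
    rw [Nat.primesLE, Nat.primesBelow_card_eq_primeCounting', Nat.primeCounting]
  rw [h2] at h1
  have h3 : (Nat.primeCounting x : ℝ) ≤ (PP n x).card + (n.primeFactors.card : ℝ) := by
    exact_mod_cast h1
  have h4 := card_primeFactors_le hn
  have h5 : Real.log n ≤ Real.log x := by
    apply Real.log_le_log
    · exact_mod_cast hn
    · exact_mod_cast hnx
  have hl2 := Real.log_two_gt_d9
  have h6 : (n.primeFactors.card : ℝ) ≤ 2 * Real.log x := by
    refine h4.trans ?_
    rw [div_le_iff₀ (by linarith)]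
    nlinarith
  have h7 : (x : ℝ) / (2 * Real.log x) + 2 * Real.log x ≤
      (x * Real.log 2 - Real.log (x + 1)) / Real.log x := by
    rw [le_div_iff₀ hlog]
    have e1 : ((x : ℝ) / (2 * Real.log x) + 2 * Real.log x) * Real.log x =
        x / 2 + 2 * (Real.log x) ^ 2 := by field_simp
    rw [e1]
    have e2 := log_sq_le (x := x) (by linarith)
    set t := √(x : ℝ) with ht
    have ht2 : t ^ 2 = x := Real.sq_sqrt (by linarith)
    have ht300 : (300 : ℝ) ≤ t := by
      rw [ht]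
      apply Real.le_sqrt_of_sq_le
      linarith
    have e3 : Real.log (x + 1) ≤ 2 * t := by
      have a1 : Real.log ((x : ℝ) + 1) = 2 * Real.log (√((x : ℝ) + 1)) := by
        rw [Real.log_sqrt (by linarith)]; ring
      have a2 : Real.log (√((x : ℝ) + 1)) ≤ √((x : ℝ) + 1) - 1 :=
        Real.log_le_sub_one_of_pos (Real.sqrt_pos.mpr (by linarith))
      have a3 : √((x : ℝ) + 1) ≤ t + 1 := by
        rw [Real.sqrt_le_left (by linarith)]
        rw [← ht2]
        nlinarith
      linarith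
    nlinarith
  linarith

/-- **Theorem R1.** A positive proportion of the multiples of `n` are differences of primes. -/
theorem multiples_main (n : ℕ) (hn : 0 < n) (M : ℕ)
    (hM : (100000 : ℝ) * (1 + (Nat.totient n : ℝ) / n * Real.log n) ≤ M) :
    (M : ℝ) / 10 ^ 9 ≤ (Nat.card {m : ℕ // 1 ≤ m ∧ m ≤ M ∧ Good n (M * n) m} : ℝ) := by
  classical
  have hnr : (1 : ℝ) ≤ n := by exact_mod_cast hn
  have hlogn : 0 ≤ Real.log n := Real.log_nonneg hnr
  have htn : (0 : ℝ) < Nat.totient n := by exact_mod_cast Nat.totient_pos.mpr hn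
  have htn1 : (Nat.totient n : ℝ) ≤ n := by exact_mod_cast Nat.totient_le n
  have hfrac : 0 ≤ (Nat.totient n : ℝ) / n * Real.log n := by positivity
  have hM1 : (100000 : ℝ) ≤ M := by nlinarith
  have hM2 : (8 : ℝ) * ((Nat.totient n : ℝ) / n * Real.log n) ≤ M := by nlinarith
  have hMN : 100000 ≤ M := by exact_mod_cast hM1
  set x := M * n with hx
  have hx1 : 100000 ≤ x := by
    calc 100000 ≤ M := hMN
      _ ≤ M * n := Nat.le_mul_of_pos_right M hn
  have hnx : n ≤ x := Nat.le_mul_of_pos_left n (by omega)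
  have hxr : (x : ℝ) = (M : ℝ) * n := by rw [hx]; push_cast; ring
  have hx1r : (100000 : ℝ) ≤ x := by exact_mod_cast hx1
  have hlogx : 0 < Real.log x := Real.log_pos (by linarith)
  set G := (Finset.Icc 1 M).filter (fun m => Good n x m) with hG
  have hcard : Nat.card {m : ℕ // 1 ≤ m ∧ m ≤ M ∧ Good n x m} = G.card := by
    rw [Nat.subtype_card G]
    intro m
    rw [hG, Finset.mem_filter, Finset.mem_Icc, and_assoc]
  rw [hcard]
  set P : ℝ := ((PP n x).card : ℝ) with hP
  set D : ℝ := ((DD n x).card : ℝ) with hD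
  set S : ℝ := ∑ m ∈ G, (m : ℝ) / (Nat.totient m : ℝ) with hS
  have hP1 : (x : ℝ) / (2 * Real.log x) ≤ P := card_PP_ge hn hnx hx1
  have hP0 : 0 < P := lt_of_lt_of_le (by positivity) hP1
  have hsq : P ^ 2 ≤ (Nat.totient n : ℝ) * (P + 2 * D) := card_PP_sq_le hn x
  have hDle : D ≤ 216 * ((n : ℝ) / (Nat.totient n : ℝ)) * ((x : ℝ) / (Real.log x) ^ 2) * S :=
    card_DD_le hn (by omega)
  -- `P ≥ 2 φ(n)`
  have hlogM : Real.log M ≤ M / 8 := by
    have h1 := log_sq_le (x := (M : ℝ)) (by linarith)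
    have h2 : 0 ≤ Real.log M := Real.log_nonneg (by linarith)
    set t := √(M : ℝ) with ht
    have ht2 : t ^ 2 = M := Real.sq_sqrt (by linarith)
    have ht300 : (300 : ℝ) ≤ t := by
      rw [ht]; apply Real.le_sqrt_of_sq_le; linarith
    have h3 : (Real.log M) ^ 2 ≤ (M / 8) ^ 2 := by
      rw [← ht2]
      rw [← ht2] at h1
      nlinarith [mul_pos (by linarith : (0 : ℝ) < t) (by linarith : (0 : ℝ) < t),
        mul_pos (mul_pos (by linarith : (0 : ℝ) < t) (by linarith : (0 : ℝ) < t))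
          (by linarith : (0 : ℝ) < t)]
    exact le_of_sq_le_sq h3 (by linarith)
  have hlogx2 : Real.log x = Real.log M + Real.log n := by
    rw [hxr, Real.log_mul (by linarith) (by linarith)]
  have hP2 : 2 * (Nat.totient n : ℝ) ≤ P := by
    refine le_trans ?_ hP1
    rw [le_div_iff₀ (by positivity), hlogx2, hxr]
    have h1 : (Nat.totient n : ℝ) * Real.log M ≤ n * (M / 8) :=
      mul_le_mul htn1 hlogM (Real.log_nonneg (by linarith)) (by linarith)
    have h2 : 8 * ((Nat.totient n : ℝ) * Real.log n) ≤ M * n := by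
      have h3 := mul_le_mul_of_nonneg_right hM2 (by linarith : (0 : ℝ) ≤ n)
      have h4 : (8 : ℝ) * ((Nat.totient n : ℝ) / n * Real.log n) * n =
        8 * ((Nat.totient n : ℝ) * Real.log n) := by field_simp
      linarith
    nlinarith
  have hD1 : P ^ 2 / (4 * (Nat.totient n : ℝ)) ≤ D := by
    rw [div_le_iff₀ (by positivity)]
    nlinarith
  have hSge : (M : ℝ) / 3456 ≤ S := by
    have h1 : ((x : ℝ) / (2 * Real.log x)) ^ 2 ≤ P ^ 2 := by gcongr
    have h2 : ((x : ℝ) / (2 * Real.log x)) ^ 2 / (4 * (Nat.totient n : ℝ)) ≤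
        216 * ((n : ℝ) / (Nat.totient n : ℝ)) * ((x : ℝ) / (Real.log x) ^ 2) * S := by
      refine le_trans ?_ (hD1.trans hDle)
      gcongr
    have hx0 : (0 : ℝ) < x := by linarith
    have h3 : ((x : ℝ) / (2 * Real.log x)) ^ 2 / (4 * (Nat.totient n : ℝ)) =
        (((n : ℝ) / (Nat.totient n : ℝ)) * ((x : ℝ) / (Real.log x) ^ 2)) * (M / 16) := by
      rw [hxr]; field_simp; norm_num
    have h4 : 216 * ((n : ℝ) / (Nat.totient n : ℝ)) * ((x : ℝ) / (Real.log x) ^ 2) * S =
        (((n : ℝ) / (Nat.totient n : ℝ)) * ((x : ℝ) / (Real.log x) ^ 2)) * (216 * S) := by ring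
    rw [h3, h4] at h2
    have h5 : 0 < ((n : ℝ) / (Nat.totient n : ℝ)) * ((x : ℝ) / (Real.log x) ^ 2) := by positivity
    have h6 := le_of_mul_le_mul_left h2 h5
    linarith
  have hCS : S ^ 2 ≤ (G.card : ℝ) * (36 * M) := by
    calc S ^ 2 ≤ (G.card : ℝ) * ∑ m ∈ G, ((m : ℝ) / (Nat.totient m : ℝ)) ^ 2 :=
          sq_sum_le_card_mul_sum_sq
      _ ≤ (G.card : ℝ) * ∑ m ∈ Finset.Icc 1 M, ((m : ℝ) / (Nat.totient m : ℝ)) ^ 2 := by
          gcongr
          exact Finset.filter_subset _ _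
      _ ≤ (G.card : ℝ) * (36 * M) := by
          gcongr
          exact sum_sq_div_totient_le M
  have h7 : ((M : ℝ) / 3456) ^ 2 ≤ (G.card : ℝ) * (36 * M) := by
    refine le_trans ?_ hCS
    gcongr
  have hMpos : (0 : ℝ) < M := by linarith
  have h8 : (M : ℝ) * (M / 429981696) ≤ M * (G.card : ℝ) := by
    have : ((M : ℝ) / 3456) ^ 2 = 36 * (M * (M / 429981696)) := by ring
    nlinarith
  have h9 := le_of_mul_le_mul_left h8 hMpos
  have h10 : (M : ℝ) / 10 ^ 9 ≤ M / 429981696 := by gcongr; norm_num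
  linarith

end Pool.Agent.Work.MP_70e905_nt
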