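import Mathlib
import Pool.Agent.Work.MP_70e905_nt.Mertens

set_option autoImplicit false

namespace Pool.Agent.Work.MP_70e905_nt

open Finset

/-- Upper bound for `∑ log p / p` over primes up to a power of two. -/
lemma sum_log_div_pow_two (J : ℕ) :
    ∑ p ∈ Nat.primesBelow (2 ^ J + 1), Real.log p / (p : ℝ) ≤ 4 * (J * Real.log 2) := by
  induction J with
  | zero =>
    have : Nat.primesBelow (2 ^ 0 + 1) = ∅ := by decide
    rw [this]; simp
  | succ J ih =>
    have hsub : Nat.primesBelow (2 ^ J + 1) ⊆ Nat.primesBelow (2 ^ (J + 1) + 1) := by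
      intro p hp
      rw [Nat.mem_primesBelow] at hp ⊢
      have : 2 ^ J ≤ 2 ^ (J + 1) := Nat.pow_le_pow_right (by norm_num) (by omega)
      exact ⟨by omega, hp.2⟩
    rw [← Finset.sum_sdiff hsub]
    have hblock : ∑ p ∈ Nat.primesBelow (2 ^ (J + 1) + 1) \ Nat.primesBelow (2 ^ J + 1),
        Real.log p / (p : ℝ) ≤ 4 * Real.log 2 := by
      have hterm : ∀ p ∈ Nat.primesBelow (2 ^ (J + 1) + 1) \ Nat.primesBelow (2 ^ J + 1),
          Real.log p / (p : ℝ) ≤ Real.log p / 2 ^ J := by
        intro p hp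
        rw [Finset.mem_sdiff, Nat.mem_primesBelow, Nat.mem_primesBelow] at hp
        have hp1 : 2 ^ J < p := by
          by_contra hcon
          exact hp.2 ⟨by omega, hp.1.2⟩
        have hpR : (2:ℝ) ^ J < p := by exact_mod_cast hp1
        exact div_le_div_of_nonneg_left (Real.log_natCast_nonneg p) (by positivity) hpR.le
      refine (Finset.sum_le_sum hterm).trans ?_
      rw [← Finset.sum_div]
      have h2 : ∑ p ∈ Nat.primesBelow (2 ^ (J + 1) + 1) \ Nat.primesBelow (2 ^ J + 1),
          Real.log (p:ℝ) ≤ Real.log 4 * 2 ^ (J + 1) := by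
        have h3 := Chebyshev.theta_le_log4_mul_x (x := ((2 ^ (J + 1) : ℕ) : ℝ)) (by positivity)
        rw [Chebyshev.theta_eq_sum_primesLE_log] at h3
        push_cast at h3
        refine le_trans ?_ h3
        apply Finset.sum_le_sum_of_subset_of_nonneg
        · exact Finset.sdiff_subset
        · intro p _ _
          exact Real.log_natCast_nonneg p
      have h4 : Real.log 4 = 2 * Real.log 2 := by
        rw [show (4:ℝ) = 2 ^ 2 by norm_num, Real.log_pow]; norm_num
      rw [h4] at h2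
      rw [div_le_iff₀ (by positivity)]
      refine h2.trans (le_of_eq ?_)
      ring
    push_cast
    linarith

lemma sum_log_div_le (N : ℕ) (hN : 3 ≤ N) :
    ∑ p ∈ N.primesBelow, Real.log p / (p : ℝ) ≤ 8 * Real.log N := by
  set J := Nat.clog 2 N with hJ
  have hJ1 : 1 ≤ J := Nat.clog_pos (by norm_num) (by omega)
  have hN2 : N ≤ 2 ^ J := Nat.le_pow_clog (by norm_num) _
  have hsub : N.primesBelow ⊆ Nat.primesBelow (2 ^ J + 1) := by
    intro p hp
    rw [Nat.mem_primesBelow] at hp ⊢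
    exact ⟨by omega, hp.2⟩
  have h1 : ∑ p ∈ N.primesBelow, Real.log p / (p : ℝ) ≤
      ∑ p ∈ Nat.primesBelow (2 ^ J + 1), Real.log p / (p : ℝ) := by
    apply Finset.sum_le_sum_of_subset_of_nonneg hsub
    intro p _ _
    exact div_nonneg (Real.log_natCast_nonneg p) (Nat.cast_nonneg p)
  have h2 := sum_log_div_pow_two J
  have hJ2 : 2 ≤ J := by
    by_contra hcon
    have : J = 1 := by omega
    rw [this] at hN2
    omega
  have h6 : 2 ^ (J - 1) < N := by
    have := Nat.pow_pred_clog_lt_self (b := 2) (by norm_num) (x := N) (by omega)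
    simpa [hJ] using this
  have h7 : ((J - 1 : ℕ) : ℝ) * Real.log 2 ≤ Real.log N := by
    rw [← Real.log_pow]
    apply Real.log_le_log (by positivity)
    exact_mod_cast h6.le
  have hlog2 : 0 < Real.log 2 := Real.log_pos (by norm_num)
  have hJJ : (J:ℝ) ≤ 2 * ((J - 1 : ℕ) : ℝ) := by
    have : J ≤ 2 * (J - 1) := by omega
    exact_mod_cast this
  have h8 : (J:ℝ) * Real.log 2 ≤ 2 * ((J - 1 : ℕ) : ℝ) * Real.log 2 :=
    mul_le_mul_of_nonneg_right hJJ hlog2.le
  linarith

/-- Rankin's trick for smooth numbers. -/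
lemma smooth_count (N : ℕ) (hN : 3 ≤ N) (y : ℕ) (hy : 1 ≤ y) (A : Finset ℕ)
    (hA : ∀ m ∈ A, m ∈ N.smoothNumbers) (hAy : ∀ m ∈ A, m ≤ y) (θ : ℝ) (hθ : 0 ≤ θ)
    (hθN : 4 * θ ≤ Real.log N) :
    (A.card : ℝ) ≤ y * Real.exp (27 + 12 * Real.log (Real.log N) + 24 * Real.exp θ
      - θ * Real.log y / Real.log N) := by
  have hNR : (3:ℝ) ≤ N := by exact_mod_cast hN
  have hlogN1 : 1 < Real.log N := by
    have h1 : Real.exp 1 < 3 := by
      have := Real.exp_one_lt_d9; linarith
    rw [Real.lt_log_iff_exp_lt (by linarith)]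
    linarith
  have hyR : (1:ℝ) ≤ y := by exact_mod_cast hy
  have hlogy : 0 ≤ Real.log y := Real.log_nonneg hyR
  set δ : ℝ := θ / Real.log N with hδ
  have hδpos : 0 ≤ δ := by rw [hδ]; positivity
  have hδ1 : δ ≤ 1 / 4 := by
    rw [hδ, div_le_iff₀ (by linarith)]
    linarith
  have hs : 0 < 1 - δ := by linarith
  have h1 := sum_smooth_le hs N A hA
  -- bound the Euler product
  have h2 : ∏ p ∈ N.primesBelow, (1 - (p : ℝ) ^ (-(1 - δ)))⁻¹ ≤
      Real.exp (∑ p ∈ N.primesBelow, 3 * (1 / (p : ℝ) +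
        (Real.exp θ / Real.log N) * (Real.log p / p))) := by
    rw [Real.exp_sum]
    apply Finset.prod_le_prod
    · intro p hp
      have hp2 : (1:ℝ) < p := by exact_mod_cast (Nat.prime_of_mem_primesBelow hp).one_lt
      have : (p:ℝ) ^ (-(1 - δ)) < 1 := Real.rpow_lt_one_of_one_lt_of_neg hp2 (by linarith)
      exact inv_nonneg.2 (by linarith)
    · intro p hp
      have hpp := Nat.prime_of_mem_primesBelow hp
      have hpN : p < N := Nat.lt_of_mem_primesBelow hp
      have hp2 : (2:ℝ) ≤ p := by exact_mod_cast hpp.two_le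
      have hppos : (0:ℝ) < p := by linarith
      have hpow : (p:ℝ) ^ (-(1 - δ)) = (p:ℝ) ^ δ * (1 / (p:ℝ)) := by
        rw [show -(1 - δ) = δ + -1 by ring, Real.rpow_add hppos, Real.rpow_neg_one, one_div]
      set r : ℝ := Real.log p / Real.log N with hr
      have hlogp : 0 ≤ Real.log p := Real.log_nonneg (by linarith)
      have hr0 : 0 ≤ r := by rw [hr]; positivity
      have hr1 : r ≤ 1 := by
        rw [hr, div_le_one (by linarith)]
        exact Real.log_le_log hppos (by exact_mod_cast hpN.le)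
      have hpd : (p:ℝ) ^ δ ≤ 1 + r * Real.exp θ := by
        have h3 : (p:ℝ) ^ δ = Real.exp (r * θ) := by
          rw [Real.rpow_def_of_pos hppos]
          congr 1
          rw [hδ, hr]; ring
        rw [h3]
        -- convexity of exp
        have h4 := convexOn_exp.2 (Set.mem_univ (0:ℝ)) (Set.mem_univ θ)
          (by linarith : (0:ℝ) ≤ 1 - r) hr0 (by ring)
        simp only [smul_eq_mul, mul_zero, zero_add, Real.exp_zero, mul_one] at h4
        linarith
      set x : ℝ := (p : ℝ) ^ (-(1 - δ)) with hx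
      have hx0 : 0 < x := by rw [hx]; positivity
      have hxp : x ≤ 1 / (p : ℝ) + (Real.exp θ / Real.log N) * (Real.log p / p) := by
        rw [hpow]
        calc (p:ℝ) ^ δ * (1 / (p:ℝ)) ≤ (1 + r * Real.exp θ) * (1 / (p:ℝ)) :=
              mul_le_mul_of_nonneg_right hpd (by positivity)
          _ = 1 / (p : ℝ) + (Real.exp θ / Real.log N) * (Real.log p / p) := by
              rw [hr]; ring
      have hx1 : x ≤ 0.6 := by
        have h5 : x ≤ (2:ℝ) ^ (-(3/4) : ℝ) := by
          rw [hx]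
          calc (p:ℝ) ^ (-(1 - δ)) ≤ (p:ℝ) ^ (-(3/4) : ℝ) :=
                Real.rpow_le_rpow_of_exponent_le (by linarith) (by linarith)
            _ ≤ (2:ℝ) ^ (-(3/4) : ℝ) :=
                Real.rpow_le_rpow_of_nonpos (by norm_num) hp2 (by norm_num)
        have h6 : (2:ℝ) ^ (-(3/4) : ℝ) ≤ 0.6 := by
          have h7 : ((2:ℝ) ^ (-(3/4) : ℝ)) ^ 4 = 1 / 8 := by
            rw [← Real.rpow_natCast, ← Real.rpow_mul (by norm_num)]
            norm_num
          by_contra hcon
          push Not at hcon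
          have h9 : (0.6:ℝ) ^ 4 < ((2:ℝ) ^ (-(3/4) : ℝ)) ^ 4 :=
            pow_lt_pow_left₀ hcon (by norm_num) (by norm_num)
          rw [h7] at h9
          norm_num at h9
        linarith
      have h1x : 0 < 1 - x := by linarith
      have h10 : (1 - x)⁻¹ = 1 + x / (1 - x) := by field_simp; ring
      have h11 : x / (1 - x) ≤ 3 * (1 / (p : ℝ) +
          (Real.exp θ / Real.log N) * (Real.log p / p)) := by
        have h12 : x / (1 - x) ≤ 3 * x := by
          rw [div_le_iff₀ h1x]
          nlinarith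
        linarith
      rw [h10]
      have h12 := Real.add_one_le_exp (x / (1 - x))
      have h13 := Real.exp_le_exp.2 h11
      linarith
  have h3 : ∑ p ∈ N.primesBelow, 3 * (1 / (p : ℝ) +
        (Real.exp θ / Real.log N) * (Real.log p / p)) ≤
      27 + 12 * Real.log (Real.log N) + 24 * Real.exp θ := by
    rw [← Finset.mul_sum, Finset.sum_add_distrib, ← Finset.mul_sum]
    have h4 := sum_inv_primes_le N hN
    have h5 := sum_log_div_le N hN
    have h6 : Real.exp θ / Real.log N * ∑ p ∈ N.primesBelow, Real.log p / (p : ℝ) ≤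
        Real.exp θ / Real.log N * (8 * Real.log N) :=
      mul_le_mul_of_nonneg_left h5 (by positivity)
    have h7 : Real.exp θ / Real.log N * (8 * Real.log N) = 8 * Real.exp θ := by
      field_simp
    linarith
  have h5 : ∑ m ∈ A, (m : ℝ) ^ (-(1 - δ)) ≤
      Real.exp (27 + 12 * Real.log (Real.log N) + 24 * Real.exp θ) := by
    refine h1.trans (h2.trans ?_)
    exact Real.exp_le_exp.2 h3
  have h6 : (A.card : ℝ) ≤ (y:ℝ) ^ (1 - δ) * ∑ m ∈ A, (m : ℝ) ^ (-(1 - δ)) := by
    rw [Finset.mul_sum, Finset.card_eq_sum_ones, Nat.cast_sum]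
    apply Finset.sum_le_sum
    intro m hm
    have hm0 : m ≠ 0 := Nat.ne_zero_of_mem_smoothNumbers (hA m hm)
    have hmR : (0:ℝ) < m := by exact_mod_cast Nat.pos_of_ne_zero hm0
    have hmy : (m:ℝ) ≤ y := by exact_mod_cast hAy m hm
    rw [Real.rpow_neg hmR.le, ← div_eq_mul_inv, ← Real.div_rpow (by linarith) hmR.le]
    rw [Nat.cast_one]
    apply Real.one_le_rpow _ hs.le
    rw [one_le_div hmR]; exact hmy
  have h7 : (y:ℝ) ^ (1 - δ) = y * Real.exp (- (θ * Real.log y / Real.log N)) := by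
    have hy0 : (0:ℝ) < y := by linarith
    rw [sub_eq_add_neg, Real.rpow_add hy0, Real.rpow_one, Real.rpow_def_of_pos hy0]
    congr 2
    rw [hδ]; ring
  calc (A.card : ℝ) ≤ (y:ℝ) ^ (1 - δ) * ∑ m ∈ A, (m : ℝ) ^ (-(1 - δ)) := h6
    _ ≤ (y:ℝ) ^ (1 - δ) * Real.exp (27 + 12 * Real.log (Real.log N) + 24 * Real.exp θ) :=
        mul_le_mul_of_nonneg_left h5 (by positivity)
    _ = _ := by
        rw [h7, mul_assoc, ← Real.exp_add]
        congr 2
        ring

end Pool.Agent.Work.MP_70e905_nt
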