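import Mathlib

set_option autoImplicit false

namespace Pool.Agent.Work.MP_70e905_nt

open Finset

/-- Primes `q ≤ y` such that `q - 1` has no prime factor in `(w, z']`. -/
lemma survivors_subset (y w z' : ℕ) (hz' : 0 < z') :
    ((Finset.Icc 1 y).filter (fun q : ℕ => q.Prime)).filter
        (fun q : ℕ => ∀ l ∈ (Finset.Ioc w z').filter (fun l : ℕ => l.Prime), ¬ q ≡ 1 [MOD l]) ⊆
      (((Finset.Icc 1 y).filter (fun m => m ∈ (w + 1).smoothNumbers)).image (fun m => m + 1)) ∪
      (Finset.Icc 1 (y / z')).biUnion (fun s =>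
        ((Finset.Icc 1 (y / s)).filter (fun m => m.Prime ∧ (s * m + 1).Prime)).image
          (fun m => s * m + 1)) := by
  classical
  intro q hq
  rw [Finset.mem_filter, Finset.mem_filter, Finset.mem_Icc] at hq
  obtain ⟨⟨⟨hq1, hqy⟩, hqp⟩, hq2⟩ := hq
  have hq2' := hqp.two_le
  rw [Finset.mem_union]
  by_cases hsm : q - 1 ∈ (w + 1).smoothNumbers
  · left
    rw [Finset.mem_image]
    refine ⟨q - 1, ?_, by omega⟩
    rw [Finset.mem_filter, Finset.mem_Icc]
    exact ⟨⟨by omega, by omega⟩, hsm⟩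
  · right
    rw [Nat.mem_smoothNumbers'] at hsm
    push Not at hsm
    obtain ⟨l, hlp, hld, hlw⟩ := hsm
    have hlz : z' < l := by
      by_contra hcon
      push Not at hcon
      apply hq2 l
      · rw [Finset.mem_filter, Finset.mem_Ioc]
        exact ⟨⟨by omega, hcon⟩, hlp⟩
      · exact ((Nat.modEq_iff_dvd' (by omega : 1 ≤ q)).2 hld).symm
    obtain ⟨s, hs⟩ := hld
    have hs0 : 1 ≤ s := by
      rcases Nat.eq_zero_or_pos s with h | h
      · subst h; omega
      · exact h
    have hq_eq : q = s * l + 1 := by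
      rw [Nat.mul_comm]; omega
    have hsl : s * l ≤ y := by omega
    rw [Finset.mem_biUnion]
    refine ⟨s, ?_, ?_⟩
    · rw [Finset.mem_Icc]
      refine ⟨hs0, ?_⟩
      rw [Nat.le_div_iff_mul_le hz']
      exact (Nat.mul_le_mul_left s hlz.le).trans hsl
    · rw [Finset.mem_image]
      refine ⟨l, ?_, hq_eq.symm⟩
      rw [Finset.mem_filter, Finset.mem_Icc]
      refine ⟨⟨hlp.pos, ?_⟩, hlp, ?_⟩
      · rw [Nat.le_div_iff_mul_le (by omega)]
        rw [Nat.mul_comm]; exact hsl
      · rw [← hq_eq]; exact hqp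

/-- The number of survivors. -/
lemma survivors_card (C C' : ℝ) (hC : 0 < C) (hC' : 0 < C')
    (hpair : ∀ s X : ℕ, 1 ≤ s → 2 ≤ X →
      (((Finset.Icc 1 X).filter (fun m => m.Prime ∧ (s * m + 1).Prime)).card : ℝ) ≤
        C * ((s : ℝ) / (Nat.totient s)) * X / (Real.log X) ^ 2)
    (hphi : ∀ T : ℕ, 1 ≤ T → ∑ s ∈ Finset.Icc 1 T, 1 / (Nat.totient s : ℝ) ≤
      C' * (1 + Real.log T))
    (y w z' : ℕ) (hz' : 2 ≤ z') (hyz : z' ≤ y) :
    ((((Finset.Icc 1 y).filter (fun q : ℕ => q.Prime)).filter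
        (fun q : ℕ => ∀ l ∈ (Finset.Ioc w z').filter (fun l : ℕ => l.Prime), ¬ q ≡ 1 [MOD l])).card : ℝ) ≤
      (((Finset.Icc 1 y).filter (fun m => m ∈ (w + 1).smoothNumbers)).card : ℝ) +
      C * C' * (1 + Real.log ((y / z' : ℕ) : ℝ)) * y / (Real.log z') ^ 2 := by
  classical
  have h1 := Finset.card_le_card (survivors_subset y w z' (by omega))
  have h2 := h1.trans (Finset.card_union_le _ _)
  have h3 : ((((Finset.Icc 1 y).filter (fun q : ℕ => q.Prime)).filter
        (fun q : ℕ => ∀ l ∈ (Finset.Ioc w z').filter (fun l : ℕ => l.Prime), ¬ q ≡ 1 [MOD l])).card : ℝ) ≤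
      ((((Finset.Icc 1 y).filter (fun m => m ∈ (w + 1).smoothNumbers)).image
        (fun m => m + 1)).card : ℝ) +
      (((Finset.Icc 1 (y / z')).biUnion (fun s =>
        ((Finset.Icc 1 (y / s)).filter (fun m => m.Prime ∧ (s * m + 1).Prime)).image
          (fun m => s * m + 1))).card : ℝ) := by exact_mod_cast h2
  have h4 : ((((Finset.Icc 1 y).filter (fun m => m ∈ (w + 1).smoothNumbers)).image
        (fun m => m + 1)).card : ℝ) ≤
      (((Finset.Icc 1 y).filter (fun m => m ∈ (w + 1).smoothNumbers)).card : ℝ) := by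
    exact_mod_cast Finset.card_image_le
  have hlogz : 0 < Real.log z' := Real.log_pos (by exact_mod_cast (by omega : 1 < z'))
  have h5 : (((Finset.Icc 1 (y / z')).biUnion (fun s =>
        ((Finset.Icc 1 (y / s)).filter (fun m => m.Prime ∧ (s * m + 1).Prime)).image
          (fun m => s * m + 1))).card : ℝ) ≤
      ∑ s ∈ Finset.Icc 1 (y / z'),
        (((Finset.Icc 1 (y / s)).filter (fun m => m.Prime ∧ (s * m + 1).Prime)).card : ℝ) := by
    have h6 := Finset.card_biUnion_le (s := Finset.Icc 1 (y / z')) (t := fun s =>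
        ((Finset.Icc 1 (y / s)).filter (fun m => m.Prime ∧ (s * m + 1).Prime)).image
          (fun m => s * m + 1))
    have h7 : ∑ s ∈ Finset.Icc 1 (y / z'), (((Finset.Icc 1 (y / s)).filter
        (fun m => m.Prime ∧ (s * m + 1).Prime)).image (fun m => s * m + 1)).card ≤
        ∑ s ∈ Finset.Icc 1 (y / z'),
        ((Finset.Icc 1 (y / s)).filter (fun m => m.Prime ∧ (s * m + 1).Prime)).card :=
      Finset.sum_le_sum (fun s _ => Finset.card_image_le)
    exact_mod_cast h6.trans h7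
  have h8 : ∑ s ∈ Finset.Icc 1 (y / z'),
        (((Finset.Icc 1 (y / s)).filter (fun m => m.Prime ∧ (s * m + 1).Prime)).card : ℝ) ≤
      ∑ s ∈ Finset.Icc 1 (y / z'), (C * y / (Real.log z') ^ 2) * (1 / (Nat.totient s : ℝ)) := by
    apply Finset.sum_le_sum
    intro s hs
    rw [Finset.mem_Icc] at hs
    have hs1 := hs.1
    have hsR : (0:ℝ) < s := by exact_mod_cast (by omega : 0 < s)
    have hzs : z' ≤ y / s := by
      rw [Nat.le_div_iff_mul_le (by omega)]
      have := (Nat.le_div_iff_mul_le (by omega : 0 < z')).1 hs.2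
      rw [Nat.mul_comm]; exact this
    have h9 := hpair s (y / s) hs1 (by omega)
    refine h9.trans ?_
    have htot : (0:ℝ) < Nat.totient s := by exact_mod_cast Nat.totient_pos.2 (by omega)
    have hX : ((y / s : ℕ) : ℝ) ≤ y / s := Nat.cast_div_le
    have hlog : Real.log z' ≤ Real.log ((y / s : ℕ) : ℝ) :=
      Real.log_le_log (by exact_mod_cast (by omega : 0 < z')) (by exact_mod_cast hzs)
    calc C * ((s : ℝ) / (Nat.totient s)) * ((y / s : ℕ) : ℝ) / (Real.log ((y / s : ℕ) : ℝ)) ^ 2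
        ≤ C * ((s : ℝ) / (Nat.totient s)) * (y / s) / (Real.log z') ^ 2 := by
          gcongr
      _ = (C * y / (Real.log z') ^ 2) * (1 / (Nat.totient s : ℝ)) := by
          field_simp
  have hT : 1 ≤ y / z' := by
    rw [Nat.le_div_iff_mul_le (by omega)]; omega
  have h10 : ∑ s ∈ Finset.Icc 1 (y / z'), (C * y / (Real.log z') ^ 2) * (1 / (Nat.totient s : ℝ)) ≤
      C * C' * (1 + Real.log ((y / z' : ℕ) : ℝ)) * y / (Real.log z') ^ 2 := by
    rw [← Finset.mul_sum]
    have h11 := hphi (y / z') hT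
    calc (C * y / (Real.log z') ^ 2) * ∑ s ∈ Finset.Icc 1 (y / z'), 1 / (Nat.totient s : ℝ)
        ≤ (C * y / (Real.log z') ^ 2) * (C' * (1 + Real.log ((y / z' : ℕ) : ℝ))) := by
          apply mul_le_mul_of_nonneg_left h11
          positivity
      _ = _ := by ring
  linarith

end Pool.Agent.Work.MP_70e905_nt
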