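import Mathlib
import Pool.Agent.Work.MP_70e905_nt.Cover
import Pool.Agent.Work.MP_70e905_nt.Smooth
import Pool.Agent.Work.MP_70e905_nt.Survive
import Pool.Agent.Work.MP_70e905_nt.Params

set_option autoImplicit false

namespace Pool.Agent.Work.MP_70e905_nt

open Finset Filter

lemma prod_S1_le (M w : ℕ) (hw : 2 * M < w) (hM : 0 < M) :
    ∏ l ∈ (Finset.Ioc (2 * M) w).filter (fun l : ℕ => l.Prime), (1 - 1 / (l : ℝ)) ≤
      (∏ p ∈ Nat.primesBelow (2 * M + 1), (1 - 1 / (p : ℝ)))⁻¹ / Real.log ((w + 1 : ℕ) : ℝ) := by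
  have h1 := prod_primesBelow_le (w + 1) (by omega)
  have hpos : 0 < ∏ p ∈ Nat.primesBelow (2 * M + 1), (1 - 1 / (p : ℝ)) := by
    apply Finset.prod_pos
    intro p hp
    have hp2 : (2:ℝ) ≤ p := by exact_mod_cast (Nat.prime_of_mem_primesBelow hp).two_le
    have : 1 / (p:ℝ) ≤ 1 / 2 := one_div_le_one_div_of_le (by norm_num) hp2
    linarith
  have h2 : ∏ p ∈ Nat.primesBelow (w + 1), (1 - 1 / (p : ℝ)) =
      (∏ p ∈ Nat.primesBelow (2 * M + 1), (1 - 1 / (p : ℝ))) *
      ∏ l ∈ (Finset.Ioc (2 * M) w).filter (fun l : ℕ => l.Prime), (1 - 1 / (l : ℝ)) := by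
    rw [← Finset.prod_union]
    · apply Finset.prod_congr _ (fun _ _ => rfl)
      ext p
      rw [Finset.mem_union, Nat.mem_primesBelow, Nat.mem_primesBelow, Finset.mem_filter,
        Finset.mem_Ioc]
      constructor
      · rintro ⟨h, hp⟩
        by_cases h' : p < 2 * M + 1
        · left; exact ⟨h', hp⟩
        · right; exact ⟨⟨by omega, by omega⟩, hp⟩
      · rintro (⟨h, hp⟩ | ⟨h, hp⟩)
        · exact ⟨by omega, hp⟩
        · exact ⟨by omega, hp⟩
    · rw [Finset.disjoint_left]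
      intro p hp hp'
      rw [Nat.mem_primesBelow] at hp
      rw [Finset.mem_filter, Finset.mem_Ioc] at hp'
      omega
  rw [h2] at h1
  have h3 : ∏ l ∈ (Finset.Ioc (2 * M) w).filter (fun l : ℕ => l.Prime), (1 - 1 / (l : ℝ)) =
      (∏ p ∈ Nat.primesBelow (2 * M + 1), (1 - 1 / (p : ℝ)))⁻¹ *
      ((∏ p ∈ Nat.primesBelow (2 * M + 1), (1 - 1 / (p : ℝ))) *
      ∏ l ∈ (Finset.Ioc (2 * M) w).filter (fun l : ℕ => l.Prime), (1 - 1 / (l : ℝ))) := by
    rw [← mul_assoc, inv_mul_cancel₀ hpos.ne', one_mul]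
  rw [h3]
  calc _ ≤ (∏ p ∈ Nat.primesBelow (2 * M + 1), (1 - 1 / (p : ℝ)))⁻¹ *
        (1 / Real.log ((w + 1 : ℕ) : ℝ)) :=
        mul_le_mul_of_nonneg_left h1 (inv_nonneg.2 hpos.le)
    _ = _ := by rw [mul_one_div]

lemma ev_exp_bound (M : ℕ) : ∀ᶠ z : ℕ in atTop,
    (z : ℝ) + 4 * M * 4 ^ z ≤ Real.exp (2 * z) := by
  have h1 : Tendsto (fun z : ℕ => ((3:ℝ) / 2) ^ z) atTop atTop :=
    tendsto_pow_atTop_atTop_of_one_lt (by norm_num)
  filter_upwards [h1.eventually_ge_atTop (1 + 4 * M)] with z hz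
  have h2 : Real.exp (2 * z) = (Real.exp 2) ^ z := by
    rw [← Real.exp_nat_mul]; congr 1; ring
  have h3 : (6:ℝ) ≤ Real.exp 2 := by
    have h4 : Real.exp 2 = Real.exp 1 * Real.exp 1 := by rw [← Real.exp_add]; norm_num
    have h5 := Real.exp_one_gt_d9
    rw [h4]; nlinarith
  have h6 : (6:ℝ) ^ z ≤ (Real.exp 2) ^ z := pow_le_pow_left₀ (by norm_num) h3 z
  have h7 : (6:ℝ) ^ z = 4 ^ z * (3 / 2) ^ z := by
    rw [← mul_pow]; norm_num
  have h8 : (z:ℝ) ≤ 4 ^ z := by
    have : z < 4 ^ z := Nat.lt_pow_self (by norm_num)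
    exact_mod_cast this.le
  have h9 : (0:ℝ) < 4 ^ z := by positivity
  rw [h2]
  calc (z : ℝ) + 4 * M * 4 ^ z ≤ 4 ^ z + 4 * M * 4 ^ z := by linarith
    _ = 4 ^ z * (1 + 4 * M) := by ring
    _ ≤ 4 ^ z * (3 / 2) ^ z := by nlinarith
    _ = 6 ^ z := h7.symm
    _ ≤ _ := h6

theorem omega_step (C C' : ℝ) (hC : 0 < C) (hC' : 0 < C')
    (hpair : ∀ s X : ℕ, 1 ≤ s → 2 ≤ X →
      (((Finset.Icc 1 X).filter (fun m : ℕ => m.Prime ∧ (s * m + 1).Prime)).card : ℝ) ≤
        C * ((s : ℝ) / (Nat.totient s)) * X / (Real.log X) ^ 2)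
    (hphi : ∀ T : ℕ, 1 ≤ T → ∑ s ∈ Finset.Icc 1 T, 1 / (Nat.totient s : ℝ) ≤
      C' * (1 + Real.log T)) (M a : ℕ) (hM : 0 < M) :
    ∃ c0 : ℝ, 0 < c0 ∧ ∀ᶠ z : ℕ in atTop, ∃ n : ℕ, z < n ∧ (n : ℝ) ≤ Real.exp (2 * z) ∧
      n ≡ 2 * a [MOD 2 * M] ∧ ∀ q : ℕ, q.Prime →
      (q : ℝ) ≤ c0 * z * (Real.log z) ^ 2 * Real.log (Real.log (Real.log z)) /
        (Real.log (Real.log z)) ^ 2 → ¬ (n + q).Prime := by
  classical
  set K1 : ℝ := 12 * C * C' + 1 with hK1
  have hK1pos : 1 ≤ K1 := by rw [hK1]; nlinarith [mul_pos hC hC']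
  set CM : ℝ := (∏ p ∈ Nat.primesBelow (2 * M + 1), (1 - 1 / (p : ℝ)))⁻¹ with hCM
  have hprodpos : 0 < ∏ p ∈ Nat.primesBelow (2 * M + 1), (1 - 1 / (p : ℝ)) := by
    apply Finset.prod_pos
    intro p hp
    have hp2 : (2:ℝ) ≤ p := by exact_mod_cast (Nat.prime_of_mem_primesBelow hp).two_le
    have : 1 / (p:ℝ) ≤ 1 / 2 := one_div_le_one_div_of_le (by norm_num) hp2
    linarith
  have hprodle : ∏ p ∈ Nat.primesBelow (2 * M + 1), (1 - 1 / (p : ℝ)) ≤ 1 := by
    apply Finset.prod_le_one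
    · intro p hp
      have hp2 : (2:ℝ) ≤ p := by exact_mod_cast (Nat.prime_of_mem_primesBelow hp).two_le
      have : 1 / (p:ℝ) ≤ 1 / 2 := one_div_le_one_div_of_le (by norm_num) hp2
      linarith
    · intro p hp
      have : 0 ≤ 1 / (p:ℝ) := by positivity
      linarith
  have hCM1 : 1 ≤ CM := by
    rw [hCM]
    exact (one_le_inv₀ hprodpos).2 hprodle
  set c0 : ℝ := 1 / (4 * K1 * CM * 160) with hc0
  have hc0pos : 0 < c0 := by rw [hc0]; positivity
  have hc01 : c0 ≤ 1 := by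
    rw [hc0, div_le_one (by positivity)]
    nlinarith [mul_le_mul hK1pos hCM1 (by norm_num) (by linarith)]
  set K2 : ℝ := 160 * (Real.log (2 * M + 2) + 1) with hK2
  refine ⟨c0, hc0pos, ?_⟩
  filter_upwards [ev_loglog_ge 32, ev_loglog_sq K2, ev_loglog_sq 1, ev_loglog_sq 640,
    ev_log_ge (2 / c0), ev_log_ge 100, ev_primes_large, ev_exp_bound M, eventually_ge_atTop 100]
    with z ht6 hK2z h1z h608z hLc0 hL100 hlarge hexp hz100
  set L := Real.log (z:ℝ) with hL
  set t := Real.log L with ht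
  have hzR : (100:ℝ) ≤ z := by exact_mod_cast hz100
  have hLpos : 0 < L := by linarith
  have htpos : 0 < t := by linarith
  have hLt : Real.exp t = L := Real.exp_log hLpos
  set s : ℝ := Real.log t with hs
  have hs1 : 1 ≤ s := by
    rw [hs, Real.le_log_iff_exp_le htpos]
    have := Real.exp_one_lt_d9; linarith
  have hst : s ≤ t := by
    have := Real.log_le_sub_one_of_pos htpos; linarith
  set E : ℝ := L * s / (160 * t) with hE
  have hlogM : 0 ≤ Real.log (2 * M + 2) := Real.log_nonneg (by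
    have : (0:ℝ) ≤ M := by positivity
    linarith)
  have hE1 : Real.log (2 * M + 2) + 1 ≤ E := by
    rw [hE, le_div_iff₀ (by positivity)]
    have h2 : K2 * t ≤ L := by
      have : K2 * t ≤ K2 * t ^ 2 := by
        apply mul_le_mul_of_nonneg_left _ (by rw [hK2]; positivity)
        nlinarith
      linarith
    rw [hK2] at h2
    nlinarith
  have hE0 : 1 ≤ E := by linarith
  have hE2 : E ≤ L / 4 := by
    rw [hE, div_le_div_iff₀ (by positivity) (by norm_num)]
    nlinarith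
  set w := ⌊Real.exp E⌋₊ with hw
  have hwle : (w:ℝ) ≤ Real.exp E := Nat.floor_le (Real.exp_pos _).le
  have hwlt : Real.exp E < (w + 1 : ℕ) := by
    have := Nat.lt_floor_add_one (Real.exp E)
    push_cast; exact this
  have hwM : 2 * M + 2 ≤ w := by
    rw [hw]
    apply Nat.le_floor
    push_cast
    have h3 : Real.exp (Real.log (2 * M + 2)) = 2 * M + 2 := Real.exp_log (by positivity)
    rw [← h3]
    exact Real.exp_le_exp.2 (by linarith)
  have hlogw1 : E ≤ Real.log ((w + 1 : ℕ) : ℝ) := by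
    rw [Real.le_log_iff_exp_le (by positivity)]
    exact hwlt.le
  have hlogw2 : Real.log ((w + 1 : ℕ) : ℝ) ≤ 2 * E := by
    rw [Real.log_le_iff_le_exp (by positivity)]
    push_cast
    have h4 : Real.exp (2 * E) = Real.exp E * Real.exp E := by rw [← Real.exp_add]; congr 1; ring
    have h5 : 2 ≤ Real.exp E := by
      have := Real.add_one_le_exp E; linarith
    rw [h4]; nlinarith
  set z' := z / 16 with hz'
  have hz'32 : (z : ℝ) / 32 ≤ z' := by
    have h2 : z ≤ 32 * z' := by omega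
    have h3 : (z:ℝ) ≤ 32 * z' := by exact_mod_cast h2
    linarith
  have hlogz' : L / 2 ≤ Real.log z' := by
    have h3 : Real.log (z / 32) ≤ Real.log z' := Real.log_le_log (by positivity) hz'32
    rw [Real.log_div (by positivity) (by norm_num)] at h3
    have h4 : Real.log 32 ≤ 5 := by
      rw [show (32:ℝ) = 2 ^ 5 by norm_num, Real.log_pow]
      have := Real.log_two_lt_d9
      push_cast
      linarith
    rw [← hL] at h3
    linarith
  have hz'2 : 2 ≤ z' := by omega
  have hwz' : w < z' := by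
    have hwpos : (0:ℝ) < w := by exact_mod_cast (by omega : 0 < w)
    have h6 : Real.log w < Real.log z' := by
      have h7 : Real.log w ≤ E := by
        rw [Real.log_le_iff_le_exp hwpos]; exact hwle
      linarith
    have h8 := (Real.log_lt_log_iff hwpos (by exact_mod_cast (by omega : 0 < z'))).1 h6
    exact_mod_cast h8
  set Y : ℝ := c0 * z * L ^ 2 * s / t ^ 2 with hY
  set y := ⌊Y⌋₊ with hy
  have hY2 : 2 * z ≤ Y := by
    rw [hY, le_div_iff₀ (by positivity)]
    have h9 : 2 ≤ c0 * L := by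
      rw [div_le_iff₀ hc0pos] at hLc0; linarith
    have h10 : t ^ 2 ≤ L := by linarith
    calc 2 * (z:ℝ) * t ^ 2 ≤ 2 * z * L := by
          apply mul_le_mul_of_nonneg_left h10 (by positivity)
      _ ≤ (c0 * L) * z * L := by
          have : 0 ≤ (z:ℝ) * L := by positivity
          nlinarith
      _ = c0 * z * L ^ 2 * 1 := by ring
      _ ≤ c0 * z * L ^ 2 * s := by
          apply mul_le_mul_of_nonneg_left hs1 (by positivity)
  have hYpos : 0 < Y := by linarith
  have hyY : (y:ℝ) ≤ Y := Nat.floor_le hYpos.le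
  have hyz : z ≤ y := by
    rw [hy]; apply Nat.le_floor; linarith
  have hyR : (z:ℝ) ≤ y := by exact_mod_cast hyz
  have hlogy : L ≤ Real.log y := Real.log_le_log (by linarith) hyR
  -- smooth numbers
  have hsmooth : (((Finset.Icc 1 y).filter (fun m => m ∈ (w + 1).smoothNumbers)).card : ℝ) ≤
      y * t / L ^ 2 := by
    have hlw : Real.log ((w + 1 : ℕ) : ℝ) ≤ L := by linarith
    have hlw0 : 0 < Real.log ((w + 1 : ℕ) : ℝ) := by linarith
    have h640 : 640 * t ≤ L := by nlinarith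
    have h11 := smooth_count (w + 1) (by omega) y (by omega)
      ((Finset.Icc 1 y).filter (fun m => m ∈ (w + 1).smoothNumbers))
      (fun m hm => (Finset.mem_filter.1 hm).2)
      (fun m hm => (Finset.mem_Icc.1 (Finset.mem_filter.1 hm).1).2) s (by linarith) (by
        refine le_trans ?_ hlogw1
        rw [hE, le_div_iff₀ (by positivity)]
        nlinarith)
    refine h11.trans ?_
    have hes : Real.exp s = t := Real.exp_log htpos
    have h12 : Real.log (Real.log ((w + 1 : ℕ) : ℝ)) ≤ t := Real.log_le_log hlw0 hlw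
    have h13 : 27 + 12 * Real.log (Real.log ((w + 1 : ℕ) : ℝ)) + 24 * Real.exp s
        - s * Real.log y / Real.log ((w + 1 : ℕ) : ℝ) ≤ -(3 * t) := by
      have h14 : 80 * t ≤ s * Real.log y / Real.log ((w + 1 : ℕ) : ℝ) := by
        rw [le_div_iff₀ hlw0]
        have h15 : 80 * t * Real.log ((w + 1 : ℕ) : ℝ) ≤ 80 * t * (2 * E) :=
          mul_le_mul_of_nonneg_left hlogw2 (by positivity)
        have h16 : 80 * t * (2 * E) = s * L := by
          rw [hE]; field_simp; norm_num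
        have h17 : s * L ≤ s * Real.log y := mul_le_mul_of_nonneg_left hlogy (by linarith)
        linarith
      rw [hes]
      linarith
    have h18 : Real.exp (27 + 12 * Real.log (Real.log ((w + 1 : ℕ) : ℝ)) + 24 * Real.exp s
        - s * Real.log y / Real.log ((w + 1 : ℕ) : ℝ)) ≤ (L ^ 3)⁻¹ := by
      calc _ ≤ Real.exp (-(3 * t)) := Real.exp_le_exp.2 h13
        _ = (L ^ 3)⁻¹ := by
            rw [Real.exp_neg, show (3:ℝ) * t = ((3:ℕ):ℝ) * t by norm_num, Real.exp_nat_mul, hLt]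
    calc (y:ℝ) * Real.exp (27 + 12 * Real.log (Real.log ((w + 1 : ℕ) : ℝ)) + 24 * Real.exp s
        - s * Real.log y / Real.log ((w + 1 : ℕ) : ℝ)) ≤ y * (L ^ 3)⁻¹ := by gcongr
      _ = y * (1 / L) / L ^ 2 := by field_simp
      _ ≤ y * t / L ^ 2 := by
          gcongr
          rw [div_le_iff₀ hLpos]
          nlinarith
  have hsecond : C * C' * (1 + Real.log ((y / z' : ℕ) : ℝ)) * y / (Real.log z') ^ 2 ≤
      12 * C * C' * (y * t / L ^ 2) := by
    have h17 : Real.log ((y / z' : ℕ) : ℝ) ≤ 2 * t := by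
      have h18 : ((y / z' : ℕ) : ℝ) ≤ L ^ 2 := by
        have h19 : ((y / z' : ℕ) : ℝ) ≤ y / z' := Nat.cast_div_le
        have h20 : (y:ℝ) / z' ≤ Y / (z / 32) := by
          apply div_le_div₀ hYpos.le hyY (by positivity) hz'32
        have h21 : Y / (z / 32) = 32 * c0 * s * L ^ 2 / t ^ 2 := by
          rw [hY]; field_simp
        have h22 : 32 * c0 * s * L ^ 2 / t ^ 2 ≤ L ^ 2 := by
          rw [div_le_iff₀ (by positivity)]
          have h23 : 32 * c0 * s ≤ t ^ 2 := by
            have h231 : 32 * c0 * s ≤ 32 * 1 * t := by gcongr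
            nlinarith
          have : 0 ≤ L ^ 2 := by positivity
          nlinarith
        linarith
      have h24 : (0:ℝ) < ((y / z' : ℕ) : ℝ) := by
        have : 0 < y / z' := Nat.div_pos (by omega) (by omega)
        exact_mod_cast this
      calc Real.log ((y / z' : ℕ) : ℝ) ≤ Real.log (L ^ 2) := Real.log_le_log h24 h18
        _ = 2 * t := by rw [Real.log_pow]; push_cast; rfl
    have h25 : (1 + Real.log ((y / z' : ℕ) : ℝ)) ≤ 3 * t := by linarith
    calc C * C' * (1 + Real.log ((y / z' : ℕ) : ℝ)) * y / (Real.log z') ^ 2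
        ≤ C * C' * (3 * t) * y / (L / 2) ^ 2 := by gcongr
      _ = 12 * C * C' * (y * t / L ^ 2) := by field_simp; ring
  have hsurv := survivors_card C C' hC hC' hpair hphi y w z' hz'2 (by omega)
  set R2 := (((Finset.Icc 1 y).filter (fun q : ℕ => q.Prime)).filter
        (fun q : ℕ => ∀ l ∈ (Finset.Ioc w z').filter (fun l : ℕ => l.Prime), ¬ q ≡ 1 [MOD l]))
    with hR2
  have hR2card : (R2.card : ℝ) ≤ K1 * (y * t / L ^ 2) := by
    rw [hK1]; linarith
  have hprodS1 : ∏ l ∈ (Finset.Ioc (2 * M) w).filter (fun l : ℕ => l.Prime), (1 - 1 / (l : ℝ)) ≤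
      CM * (160 * t) / (L * s) := by
    refine (prod_S1_le M w (by omega) hM).trans ?_
    rw [← hCM]
    calc CM / Real.log ((w + 1 : ℕ) : ℝ) ≤ CM / E := by
          apply div_le_div_of_nonneg_left (by linarith) (by linarith) hlogw1
      _ = CM * (160 * t) / (L * s) := by rw [hE]; field_simp
  have hprodS1nonneg : 0 ≤ ∏ l ∈ (Finset.Ioc (2 * M) w).filter (fun l : ℕ => l.Prime),
      (1 - 1 / (l : ℝ)) := by
    apply Finset.prod_nonneg
    intro p hp
    have hp2 : (2:ℝ) ≤ p := by exact_mod_cast (Finset.mem_filter.1 hp).2.two_le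
    have : 1 / (p:ℝ) ≤ 1 / 2 := one_div_le_one_div_of_le (by norm_num) hp2
    linarith
  have hfinal : (R2.card : ℝ) * ∏ l ∈ (Finset.Ioc (2 * M) w).filter (fun l : ℕ => l.Prime),
      (1 - 1 / (l : ℝ)) ≤ (((Finset.Ioc z' z).filter (fun l : ℕ => l.Prime)).card : ℝ) := by
    calc (R2.card : ℝ) * ∏ l ∈ (Finset.Ioc (2 * M) w).filter (fun l : ℕ => l.Prime),
          (1 - 1 / (l : ℝ)) ≤ (K1 * (y * t / L ^ 2)) * (CM * (160 * t) / (L * s)) := by
          apply mul_le_mul hR2card hprodS1 hprodS1nonneg (by positivity)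
      _ ≤ (K1 * (Y * t / L ^ 2)) * (CM * (160 * t) / (L * s)) := by gcongr
      _ = (1 / 4) * (z / L) := by
          rw [hY, hc0]; field_simp
      _ ≤ _ := hlarge
  obtain ⟨n, hn1, hn2, hn3, hn4⟩ := cover ((Finset.Icc 1 y).filter (fun q : ℕ => q.Prime))
    ((Finset.Ioc (2 * M) w).filter (fun l : ℕ => l.Prime))
    ((Finset.Ioc w z').filter (fun l : ℕ => l.Prime))
    ((Finset.Ioc z' z).filter (fun l : ℕ => l.Prime))
    (fun l hl => (Finset.mem_filter.1 hl).2) (fun l hl => (Finset.mem_filter.1 hl).2)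
    (fun l hl => (Finset.mem_filter.1 hl).2)
    (by
      rw [Finset.disjoint_left]
      intro l hl hl'
      rw [Finset.mem_filter, Finset.mem_Ioc] at hl hl'
      omega)
    (by
      rw [Finset.disjoint_left]
      intro l hl hl'
      rw [Finset.mem_filter, Finset.mem_Ioc] at hl hl'
      omega)
    (by
      rw [Finset.disjoint_left]
      intro l hl hl'
      rw [Finset.mem_filter, Finset.mem_Ioc] at hl hl'
      omega)
    (2 * M) (2 * a * (2 * M - 1)) (by omega)
    (by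
      intro l hl
      have h26 : l.Prime ∧ 2 * M < l := by
        rw [Finset.mem_union, Finset.mem_union, Finset.mem_filter, Finset.mem_filter,
          Finset.mem_filter, Finset.mem_Ioc, Finset.mem_Ioc, Finset.mem_Ioc] at hl
        rcases hl with (h | h) | h
        · exact ⟨h.2, h.1.1⟩
        · exact ⟨h.2, by omega⟩
        · exact ⟨h.2, by omega⟩
      exact (Nat.coprime_of_lt_prime (by omega) h26.2 h26.1).symm)
    hfinal z
  have hbound : ∀ l ∈ (Finset.Ioc (2 * M) w).filter (fun l : ℕ => l.Prime) ∪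
    (Finset.Ioc w z').filter (fun l : ℕ => l.Prime) ∪
    (Finset.Ioc z' z).filter (fun l : ℕ => l.Prime), l.Prime ∧ l ≤ z := by
    intro l hl
    rw [Finset.mem_union, Finset.mem_union, Finset.mem_filter, Finset.mem_filter,
      Finset.mem_filter, Finset.mem_Ioc, Finset.mem_Ioc, Finset.mem_Ioc] at hl
    rcases hl with (h | h) | h
    · exact ⟨h.2, by omega⟩
    · exact ⟨h.2, by omega⟩
    · exact ⟨h.2, by omega⟩
  refine ⟨n, hn1, ?_, ?_, ?_⟩
  · have h27 : ∏ l ∈ (Finset.Ioc (2 * M) w).filter (fun l : ℕ => l.Prime) ∪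
        (Finset.Ioc w z').filter (fun l : ℕ => l.Prime) ∪
        (Finset.Ioc z' z).filter (fun l : ℕ => l.Prime), l ≤ 4 ^ z := by
      refine le_trans ?_ (primorial_le_four_pow z)
      unfold primorial
      apply Finset.prod_le_prod_of_subset_of_one_le'
      · intro l hl
        have h28 := hbound l hl
        rw [Finset.mem_filter, Finset.mem_range]
        exact ⟨by omega, h28.1⟩
      · intro l hl _
        exact (Finset.mem_filter.1 hl).2.one_le
    have h29 : n ≤ z + 2 * (2 * M * 4 ^ z) := by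
      refine hn2.trans ?_
      gcongr
    have h30 : (n:ℝ) ≤ z + 4 * M * 4 ^ z := by
      have h31 : (n:ℝ) ≤ ((z + 2 * (2 * M * 4 ^ z) : ℕ) : ℝ) := by exact_mod_cast h29
      push_cast at h31
      linarith
    exact h30.trans hexp
  · have h32 : n + 2 * a * (2 * M - 1) + 2 * a ≡ 0 + 2 * a [MOD 2 * M] :=
      Nat.ModEq.add_right _ ((Nat.modEq_zero_iff_dvd).2 hn3)
    have h33 : n + 2 * a * (2 * M - 1) + 2 * a = n + 2 * M * (2 * a) := by
      have h34 : 2 * a * (2 * M - 1) + 2 * a = 2 * M * (2 * a) := by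
        have h35 : 2 * M - 1 + 1 = 2 * M := by omega
        calc 2 * a * (2 * M - 1) + 2 * a = 2 * a * ((2 * M - 1) + 1) := by ring
          _ = 2 * M * (2 * a) := by rw [h35]; ring
      omega
    rw [h33, Nat.zero_add] at h32
    have h36 : n + 2 * M * (2 * a) ≡ n [MOD 2 * M] := by
      simp [Nat.ModEq]
    exact h36.symm.trans h32
  · intro q hq hqY hnq
    have hqy : q ≤ y := by
      rw [hy]; exact Nat.le_floor hqY
    obtain ⟨l, hl, hdvd⟩ := hn4 q (by
      rw [Finset.mem_filter, Finset.mem_Icc]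
      exact ⟨⟨hq.pos, hqy⟩, hq⟩)
    have h37 := hbound l hl
    rcases (Nat.dvd_prime hnq).1 hdvd with h | h
    · exact h37.1.one_lt.ne' h
    · omega

end Pool.Agent.Work.MP_70e905_nt
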