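import Mathlib
import Pool.Agent.Work.MP_70e905_nt.OmegaStep

set_option autoImplicit false

namespace Pool.Agent.Work.MP_70e905_nt

open Finset Filter

lemma sq_div_log_sq_mono {u v : ℝ} (hu : Real.exp 1 ≤ u) (huv : u ≤ v) :
    u ^ 2 / (Real.log u) ^ 2 ≤ v ^ 2 / (Real.log v) ^ 2 := by
  have hupos : 0 < u := lt_of_lt_of_le (Real.exp_pos 1) hu
  have hvpos : 0 < v := lt_of_lt_of_le hupos huv
  have h1 : Real.log v / v ≤ Real.log u / u :=
    Real.log_div_self_antitoneOn hu (le_trans hu huv) huv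
  have hlu : 1 ≤ Real.log u := by
    rw [Real.le_log_iff_exp_le hupos]; exact hu
  have hlv : 1 ≤ Real.log v := by
    rw [Real.le_log_iff_exp_le hvpos]; exact le_trans hu huv
  have h2 : u / Real.log u ≤ v / Real.log v := by
    rw [div_le_div_iff₀ (by linarith) (by linarith)]
    rw [div_le_div_iff₀ hvpos hupos] at h1
    linarith
  have h3 : 0 ≤ u / Real.log u := by positivity
  have h4 := pow_le_pow_left₀ h3 h2 2
  rwa [div_pow, div_pow] at h4

theorem omega_main (C C' : ℝ) (hC : 0 < C) (hC' : 0 < C')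
    (hpair : ∀ s X : ℕ, 1 ≤ s → 2 ≤ X →
      (((Finset.Icc 1 X).filter (fun m : ℕ => m.Prime ∧ (s * m + 1).Prime)).card : ℝ) ≤
        C * ((s : ℝ) / (Nat.totient s)) * X / (Real.log X) ^ 2)
    (hphi : ∀ T : ℕ, 1 ≤ T → ∑ s ∈ Finset.Icc 1 T, 1 / (Nat.totient s : ℝ) ≤
      C' * (1 + Real.log T)) (M a : ℕ) (hM : 0 < M) :
    ∃ c : ℝ, 0 < c ∧ ∀ N : ℕ, ∃ n : ℕ, N < n ∧ n ≡ 2 * a [MOD 2 * M] ∧
      ∀ p q : ℕ, p.Prime → q.Prime → p = q + n →
        c * Real.log n * (Real.log (Real.log n)) ^ 2 *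
          Real.log (Real.log (Real.log (Real.log n))) / (Real.log (Real.log (Real.log n))) ^ 2
          < (q : ℝ) := by
  obtain ⟨c0, hc0, hev⟩ := omega_step C C' hC hC' hpair hphi M a hM
  refine ⟨c0 / 16, by positivity, ?_⟩
  intro N
  obtain ⟨z, hz, hzN, ht, hz100⟩ := (hev.and ((eventually_ge_atTop N).and
    ((ev_loglog_ge 32).and (eventually_ge_atTop 100)))).exists
  obtain ⟨n, hn1, hn2, hn3, hn4⟩ := hz
  refine ⟨n, by omega, hn3, ?_⟩
  intro p q hp hq hpq
  by_contra hcon
  push Not at hcon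
  have hzR : (100:ℝ) ≤ z := by exact_mod_cast hz100
  set L := Real.log (z:ℝ) with hL
  set t := Real.log L with ht'
  set s := Real.log t with hs'
  have he : Real.exp 1 < 2.7182818286 := Real.exp_one_lt_d9
  have hlog2 := Real.log_two_lt_d9
  have htpos : 0 < t := by linarith
  have hs1 : 1 ≤ s := by
    rw [hs', Real.le_log_iff_exp_le htpos]; linarith
  have hLexp : t + 1 ≤ L := by
    have h1 : Real.exp t ≤ L := by
      by_cases hLp : 0 < L
      · rw [ht', Real.exp_log hLp]
      · have : L = 0 := le_antisymm (not_lt.1 hLp) (Real.log_nonneg (by linarith))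
        rw [ht', this, Real.log_zero] at htpos
        exact absurd htpos (lt_irrefl _)
    have := Real.add_one_le_exp t
    linarith
  have hLpos : 0 < L := by linarith
  have hnR : (z:ℝ) < n := by exact_mod_cast hn1
  have hnpos : (0:ℝ) < n := by linarith
  -- log n
  have hlogn1 : L ≤ Real.log n := Real.log_le_log (by linarith) hnR.le
  have hlogn2 : Real.log n ≤ 2 * z := by
    rw [Real.log_le_iff_le_exp hnpos]; exact hn2
  have hlognpos : 0 < Real.log n := by linarith
  set u := Real.log (Real.log n) with hu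
  set v := Real.log (2 * (z:ℝ)) with hv
  have hut : t ≤ u := Real.log_le_log hLpos hlogn1
  have huv : u ≤ v := Real.log_le_log hlognpos hlogn2
  have hvL : v ≤ 2 * L := by
    rw [hv, Real.log_mul (by norm_num) (by linarith), ← hL]
    linarith
  have hLv : L ≤ v := Real.log_le_log (by linarith) (by linarith)
  have hmono := sq_div_log_sq_mono (u := u) (v := v) (by linarith) huv
  have htlv : t ≤ Real.log v := Real.log_le_log hLpos hLv
  have hlv2 : Real.log v ≤ 2 * t := by
    calc Real.log v ≤ Real.log (2 * L) := Real.log_le_log (by linarith) hvL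
      _ = Real.log 2 + t := by rw [Real.log_mul (by norm_num) hLpos.ne']
      _ ≤ 2 * t := by linarith
  have hbound : v ^ 2 / (Real.log v) ^ 2 ≤ 4 * (L ^ 2 / t ^ 2) := by
    calc v ^ 2 / (Real.log v) ^ 2 ≤ (2 * L) ^ 2 / t ^ 2 := by
          have : 0 ≤ v := by linarith
          gcongr
      _ = 4 * (L ^ 2 / t ^ 2) := by ring
  have hlogu : 1 ≤ Real.log u := by
    rw [Real.le_log_iff_exp_le (by linarith)]; linarith
  have hllu : Real.log (Real.log u) ≤ 2 * s := by
    calc Real.log (Real.log u) ≤ Real.log (2 * t) := by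
          apply Real.log_le_log (by linarith)
          exact (Real.log_le_log (by linarith) huv).trans hlv2
      _ = Real.log 2 + s := by rw [Real.log_mul (by norm_num) htpos.ne']
      _ ≤ 2 * s := by linarith
  have hllu0 : 0 ≤ Real.log (Real.log u) := Real.log_nonneg hlogu
  have hqle : (q:ℝ) ≤ c0 * z * L ^ 2 * s / t ^ 2 := by
    calc (q:ℝ) ≤ c0 / 16 * Real.log n * u ^ 2 * Real.log (Real.log u) / (Real.log u) ^ 2 := hcon
      _ = c0 / 16 * Real.log n * (u ^ 2 / (Real.log u) ^ 2) * Real.log (Real.log u) := by ring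
      _ ≤ c0 / 16 * (2 * z) * (4 * (L ^ 2 / t ^ 2)) * (2 * s) := by
          apply mul_le_mul _ hllu hllu0 (by positivity)
          apply mul_le_mul _ (hmono.trans hbound) (by positivity) (by positivity)
          apply mul_le_mul_of_nonneg_left hlogn2 (by positivity)
      _ = c0 * z * L ^ 2 * s / t ^ 2 := by ring
  apply hn4 q hq hqle
  rw [Nat.add_comm, ← hpq]
  exact hp

end Pool.Agent.Work.MP_70e905_nt
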