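import Mathlib
import Pool.Agent.Work.Sieve.MeanPhi

set_option autoImplicit false

namespace Pool.Agent.Work.MP_70e905_nt

open Finset

lemma abel_identity (a : ℕ → ℝ) (T : ℕ) :
    ∑ s ∈ Finset.Icc 1 (T + 1), a s / s =
      (∑ s ∈ Finset.Icc 1 (T + 1), a s) / ((T + 1 : ℕ) : ℝ) +
      ∑ r ∈ Finset.Icc 1 T, (∑ s ∈ Finset.Icc 1 r, a s) / (r * (r + 1)) := by
  induction T with
  | zero => simp
  | succ T ih =>
    rw [Finset.sum_Icc_succ_top (by omega : 1 ≤ T + 1 + 1), ih,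
      Finset.sum_Icc_succ_top (by omega : 1 ≤ T + 1 + 1),
      Finset.sum_Icc_succ_top (by omega : 1 ≤ T + 1) (fun r : ℕ =>
        (∑ s ∈ Finset.Icc 1 r, a s) / ((r:ℝ) * (r + 1)))]
    set A := ∑ s ∈ Finset.Icc 1 (T + 1), a s
    push_cast
    have h1 : (T:ℝ) + 1 ≠ 0 := by positivity
    have h2 : (T:ℝ) + 1 + 1 ≠ 0 := by positivity
    field_simp
    ring

lemma harm_aux (S : ℕ) :
    ∑ i ∈ Finset.Icc 1 (S + 1), ((i:ℝ))⁻¹ = 1 + ∑ r ∈ Finset.Icc 1 S, (1 / ((r:ℝ) + 1)) := by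
  induction S with
  | zero => simp
  | succ S ih =>
    rw [Finset.sum_Icc_succ_top (by omega), ih,
      Finset.sum_Icc_succ_top (by omega : 1 ≤ S + 1)]
    push_cast
    rw [one_div ((S:ℝ) + 1 + 1)]
    ring

lemma sum_inv_totient_le (T : ℕ) (hT : 1 ≤ T) :
    ∑ s ∈ Finset.Icc 1 T, 1 / (Nat.totient s : ℝ) ≤ 36 * (1 + Real.log T) := by
  obtain ⟨S, rfl⟩ : ∃ S, T = S + 1 := ⟨T - 1, by omega⟩
  set a : ℕ → ℝ := fun m => ((m : ℝ) / (Nat.totient m : ℝ)) ^ 2 with ha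
  have h1 : ∑ s ∈ Finset.Icc 1 (S + 1), 1 / (Nat.totient s : ℝ) ≤
      ∑ s ∈ Finset.Icc 1 (S + 1), a s / s := by
    apply Finset.sum_le_sum
    intro s hs
    rw [Finset.mem_Icc] at hs
    have hsR : (0:ℝ) < s := by exact_mod_cast (by omega : 0 < s)
    have htot : (0:ℝ) < Nat.totient s := by exact_mod_cast Nat.totient_pos.2 (by omega)
    have hle : (Nat.totient s : ℝ) ≤ s := by exact_mod_cast Nat.totient_le s
    rw [ha]
    have h2 : ((s : ℝ) / (Nat.totient s : ℝ)) ^ 2 / s =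
        (1 / (Nat.totient s : ℝ)) * ((s : ℝ) / (Nat.totient s : ℝ)) := by
      field_simp
    simp only [h2]
    have h3 : 1 ≤ (s : ℝ) / (Nat.totient s : ℝ) := by
      rw [one_le_div htot]; exact hle
    have h4 : 0 < 1 / (Nat.totient s : ℝ) := by positivity
    nlinarith
  refine h1.trans ?_
  rw [abel_identity]
  have hA : ∀ r : ℕ, ∑ s ∈ Finset.Icc 1 r, a s ≤ 36 * r := fun r =>
    Pool.Agent.Work.Sieve.sum_sq_div_totient_le r
  have h5 : (∑ s ∈ Finset.Icc 1 (S + 1), a s) / ((S + 1 : ℕ) : ℝ) ≤ 36 := by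
    rw [div_le_iff₀ (by positivity)]
    exact hA (S + 1)
  have h6 : ∑ r ∈ Finset.Icc 1 S, (∑ s ∈ Finset.Icc 1 r, a s) / ((r:ℝ) * (r + 1)) ≤
      ∑ r ∈ Finset.Icc 1 S, 36 * (1 / ((r:ℝ) + 1)) := by
    apply Finset.sum_le_sum
    intro r hr
    rw [Finset.mem_Icc] at hr
    have hrR : (0:ℝ) < r := by exact_mod_cast (by omega : 0 < r)
    rw [div_le_iff₀ (by positivity)]
    have := hA r
    have h7 : 36 * (1 / ((r:ℝ) + 1)) * ((r:ℝ) * (r + 1)) = 36 * r := by field_simp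
    linarith
  have h8 : ∑ r ∈ Finset.Icc 1 S, (1 / ((r:ℝ) + 1)) ≤ Real.log ((S + 1 : ℕ) : ℝ) := by
    have h9 := harmonic_le_one_add_log (S + 1)
    rw [harmonic_eq_sum_Icc] at h9
    push_cast at h9
    have h10 := harm_aux S
    rw [h10] at h9
    push_cast
    linarith
  rw [← Finset.mul_sum] at h6
  linarith

end Pool.Agent.Work.MP_70e905_nt
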