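import Mathlib
import Pool.Agent.Work.MP_70e905_nt.EPrime

open Finset Nat
open Pool.Agent.Work.Sieve

namespace Pool.Agent.Work.MP_70e905_nt

/-- Abstract counting lemma for the second regime. -/
theorem card_strip_aux (n M H l : ℕ) (hl : 1 ≤ l) (ff : ℕ → ℕ → ℕ)
    (h1 : ∀ r ∈ Finset.Icc 1 H, ∀ a b : ℕ, a ≤ b → l ∣ ff a r → l ∣ ff b r → l ∣ (b - a) * n)
    (h2 : ∀ r ∈ Finset.Icc 1 H, ∀ a ∈ Finset.Icc 1 M, l ∣ ff a r → Nat.gcd n l ∣ r) :
    ((((Finset.Icc 1 M) ×ˢ (Finset.Icc 1 H)).filter (fun w => l ∣ ff w.1 w.2)).card : ℝ) ≤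
      (M : ℝ) * H / l + H := by
  set g := Nat.gcd n l with hg
  have hg1 : 1 ≤ g := Nat.gcd_pos_of_pos_right n hl
  have hgl : g ∣ l := Nat.gcd_dvd_right n l
  obtain ⟨k, hk⟩ := hgl
  have hk1 : 1 ≤ k := by
    rcases Nat.eq_zero_or_pos k with h | h
    · rw [h] at hk; omega
    · exact h
  have hmaps : ∀ w ∈ ((Finset.Icc 1 M) ×ˢ (Finset.Icc 1 H)).filter (fun w => l ∣ ff w.1 w.2),
      w.2 ∈ (Finset.Ioc 0 H).filter (fun r => g ∣ r) := by
    intro w hw
    rw [Finset.mem_filter, Finset.mem_product] at hw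
    obtain ⟨⟨a1, a2⟩, a3⟩ := hw
    rw [Finset.mem_filter, Finset.mem_Ioc]
    have := Finset.mem_Icc.mp a2
    exact ⟨⟨by omega, this.2⟩, h2 w.2 a2 w.1 a1 a3⟩
  rw [Finset.card_eq_sum_card_fiberwise hmaps]
  push_cast
  have hfib : ∀ r ∈ (Finset.Ioc 0 H).filter (fun r => g ∣ r),
      (((((Finset.Icc 1 M) ×ˢ (Finset.Icc 1 H)).filter (fun w => l ∣ ff w.1 w.2)).filter
        (fun w => w.2 = r)).card : ℝ) ≤ (M : ℝ) / k + 1 := by
    intro r hr
    rw [Finset.mem_filter, Finset.mem_Ioc] at hr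
    have hr' : r ∈ Finset.Icc 1 H := Finset.mem_Icc.mpr ⟨by omega, hr.1.2⟩
    set T := (Finset.Icc 1 M).filter (fun m => l ∣ ff m r) with hT
    have hle : ((((Finset.Icc 1 M) ×ˢ (Finset.Icc 1 H)).filter (fun w => l ∣ ff w.1 w.2)).filter
        (fun w => w.2 = r)).card ≤ T.card := by
      apply Finset.card_le_card_of_injOn (fun w => w.1)
      · intro w hw
        rw [Finset.mem_coe, Finset.mem_filter, Finset.mem_filter, Finset.mem_product] at hw
        obtain ⟨⟨⟨b1, b2⟩, b3⟩, b4⟩ := hw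
        rw [Finset.mem_coe, hT, Finset.mem_filter]
        refine ⟨b1, ?_⟩
        rw [← b4]; exact b3
      · intro w hw v hv hwv
        rw [Finset.mem_coe, Finset.mem_filter] at hw hv
        exact Prod.ext hwv (by rw [hw.2, hv.2])
    have hsp := card_spaced M k hk1 T (Finset.filter_subset _ _) (by
      intro a ha b hb hab
      rw [hT, Finset.mem_filter] at ha hb
      have h3 := h1 r hr' a b hab ha.2 hb.2
      obtain ⟨n', hn'⟩ := Nat.gcd_dvd_left n l
      rw [← hg] at hn'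
      rw [hk, hn'] at h3
      have h4 : k ∣ (b - a) * n' := by
        have : g * k ∣ g * ((b - a) * n') := by
          rw [show g * ((b - a) * n') = (b - a) * (g * n') by ring]; exact h3
        exact Nat.dvd_of_mul_dvd_mul_left (by omega) this
      have hcop : Nat.Coprime k n' := by
        have h5 : Nat.gcd n l = g * Nat.gcd n' k := by
          conv_lhs => rw [hn', hk]
          rw [Nat.gcd_mul_left]
        rw [← hg] at h5
        have h6 : Nat.gcd n' k = 1 := by
          have : g * Nat.gcd n' k = g * 1 := by omega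
          exact Nat.eq_of_mul_eq_mul_left (by omega) this
        rw [Nat.coprime_comm]
        exact h6
      exact hcop.dvd_of_dvd_mul_right h4)
    refine le_trans ?_ hsp
    exact_mod_cast hle
  refine (Finset.sum_le_sum hfib).trans ?_
  rw [Finset.sum_const, nsmul_eq_mul, Nat.Ioc_filter_dvd_card_eq_div]
  have hgr : (1 : ℝ) ≤ g := by exact_mod_cast hg1
  have hkr : (0 : ℝ) < k := by exact_mod_cast hk1
  have hlr : (l : ℝ) = g * k := by rw [hk]; push_cast; ring
  have h3 : ((H / g : ℕ) : ℝ) ≤ (H : ℝ) / g := Nat.cast_div_le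
  have h4 : (H : ℝ) / g ≤ H := div_le_self (Nat.cast_nonneg H) hgr
  calc ((H / g : ℕ) : ℝ) * ((M : ℝ) / k + 1) ≤ ((H : ℝ) / g) * ((M : ℝ) / k + 1) := by gcongr
    _ = (M : ℝ) * H / l + (H : ℝ) / g := by rw [hlr]; field_simp
    _ ≤ (M : ℝ) * H / l + H := by linarith

theorem card_strip_plus (n M H l : ℕ) (hl : 1 ≤ l) :
    ((((Finset.Icc 1 M) ×ˢ (Finset.Icc 1 H)).filter (fun w => l ∣ w.1 * n + w.2)).card : ℝ) ≤
      (M : ℝ) * H / l + min (M : ℝ) H := by
  have hA : ((((Finset.Icc 1 M) ×ˢ (Finset.Icc 1 H)).filter (fun w => l ∣ w.1 * n + w.2)).card : ℝ) ≤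
      (M : ℝ) * H / l + H := by
    apply card_strip_aux n M H l hl (fun a r => a * n + r)
    · intro r _ a b hab h1 h2
      have h3 : b * n + r - (a * n + r) = (b - a) * n := by
        rw [Nat.add_sub_add_right, Nat.sub_mul]
      rw [← h3]
      exact Nat.dvd_sub h2 h1
    · intro r _ a _ h1
      have h2 : Nat.gcd n l ∣ a * n + r := (Nat.gcd_dvd_right n l).trans h1
      have h3 : Nat.gcd n l ∣ a * n := (Nat.gcd_dvd_left n l).mul_left a
      exact (Nat.dvd_add_right h3).mp h2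
  have hB : ((((Finset.Icc 1 M) ×ˢ (Finset.Icc 1 H)).filter (fun w => l ∣ w.1 * n + w.2)).card : ℝ) ≤
      (M : ℝ) * H / l + M := by
    have hmaps : ∀ w ∈ ((Finset.Icc 1 M) ×ˢ (Finset.Icc 1 H)).filter
        (fun w => l ∣ w.1 * n + w.2), w.1 ∈ Finset.Icc 1 M := by
      intro w hw
      rw [Finset.mem_filter, Finset.mem_product] at hw
      exact hw.1.1
    rw [Finset.card_eq_sum_card_fiberwise hmaps]
    push_cast
    have hfib : ∀ m ∈ Finset.Icc 1 M, (((((Finset.Icc 1 M) ×ˢ (Finset.Icc 1 H)).filter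
        (fun w => l ∣ w.1 * n + w.2)).filter (fun w => w.1 = m)).card : ℝ) ≤ (H : ℝ) / l + 1 := by
      intro m _
      refine le_trans ?_ (card_multiples_Icc (m * n) H l hl)
      norm_cast
      apply Finset.card_le_card_of_injOn (fun w => m * n + w.2)
      · intro w hw
        rw [Finset.mem_coe, Finset.mem_filter, Finset.mem_filter, Finset.mem_product,
          Finset.mem_Icc, Finset.mem_Icc] at hw
        obtain ⟨⟨⟨b1, b2⟩, b3⟩, b4⟩ := hw
        rw [Finset.mem_coe, Finset.mem_filter, Finset.mem_Icc]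
        rw [b4] at b3
        refine ⟨⟨?_, ?_⟩, b3⟩
        · show m * n + 1 ≤ m * n + w.2
          omega
        · show m * n + w.2 ≤ m * n + H
          omega
      · intro w hw v hv hwv
        rw [Finset.mem_coe, Finset.mem_filter] at hw hv
        simp only at hwv
        exact Prod.ext (by rw [hw.2, hv.2]) (by omega)
    refine (Finset.sum_le_sum hfib).trans (le_of_eq ?_)
    rw [Finset.sum_const, Nat.card_Icc, nsmul_eq_mul]
    simp only [Nat.add_sub_cancel]
    ring
  rcases le_total (M : ℝ) H with h | h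
  · rw [min_eq_left h]; exact hB
  · rw [min_eq_right h]; exact hA

theorem card_strip_minus (n M H l : ℕ) (hHn : H < n) (hl : 1 ≤ l) :
    ((((Finset.Icc 1 M) ×ˢ (Finset.Icc 1 H)).filter (fun w => l ∣ w.1 * n - w.2)).card : ℝ) ≤
      (M : ℝ) * H / l + min (M : ℝ) H := by
  have hA : ((((Finset.Icc 1 M) ×ˢ (Finset.Icc 1 H)).filter (fun w => l ∣ w.1 * n - w.2)).card : ℝ) ≤
      (M : ℝ) * H / l + H := by
    have heq : ((Finset.Icc 1 M) ×ˢ (Finset.Icc 1 H)).filter (fun w => l ∣ w.1 * n - w.2) =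
        ((Finset.Icc 1 M) ×ˢ (Finset.Icc 1 H)).filter
          (fun w => l ∣ (if w.1 = 0 then 1 else w.1 * n - w.2)) := by
      apply Finset.filter_congr
      intro w hw
      rw [Finset.mem_product, Finset.mem_Icc] at hw
      rw [if_neg (by omega)]
    rcases Nat.eq_or_lt_of_le hl with hl1 | hl1
    · -- l = 1
      rw [← hl1]
      calc ((((Finset.Icc 1 M) ×ˢ (Finset.Icc 1 H)).filter (fun w => 1 ∣ w.1 * n - w.2)).card : ℝ)
          ≤ (((Finset.Icc 1 M) ×ˢ (Finset.Icc 1 H)).card : ℝ) := by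
            exact_mod_cast Finset.card_filter_le _ _
        _ = (M : ℝ) * H := by
            rw [Finset.card_product, Nat.card_Icc, Nat.card_Icc]
            push_cast
            simp
        _ ≤ (M : ℝ) * H / ((1 : ℕ) : ℝ) + H := by
            have : (0 : ℝ) ≤ H := Nat.cast_nonneg H
            simp
    · rw [heq]
      apply card_strip_aux n M H l hl (fun a r => if a = 0 then 1 else a * n - r)
      · intro r hr a b hab h1 h2
        rw [Finset.mem_Icc] at hr
        by_cases ha : a = 0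
        · simp only [ha, if_true] at h1
          have := Nat.dvd_one.mp h1
          omega
        · have hb : b ≠ 0 := by omega
          simp only [ha, hb, if_false] at h1 h2
          have han : r < a * n := lt_of_lt_of_le (by omega) (Nat.le_mul_of_pos_left n (Nat.pos_of_ne_zero ha))
          have hbn : a * n ≤ b * n := Nat.mul_le_mul_right n hab
          have h3 : b * n - r - (a * n - r) = (b - a) * n := by
            rw [Nat.sub_mul]; omega
          rw [← h3]
          exact Nat.dvd_sub h2 h1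
      · intro r hr a ha h1
        rw [Finset.mem_Icc] at hr ha
        rw [if_neg (by omega)] at h1
        have han : r < a * n := lt_of_lt_of_le (by omega) (Nat.le_mul_of_pos_left n (by omega))
        have h2 : Nat.gcd n l ∣ a * n - r := (Nat.gcd_dvd_right n l).trans h1
        have h3 : Nat.gcd n l ∣ a * n := (Nat.gcd_dvd_left n l).mul_left a
        have h4 : a * n - (a * n - r) = r := by omega
        rw [← h4]
        exact Nat.dvd_sub h3 h2
  have hB : ((((Finset.Icc 1 M) ×ˢ (Finset.Icc 1 H)).filter (fun w => l ∣ w.1 * n - w.2)).card : ℝ) ≤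
      (M : ℝ) * H / l + M := by
    have hmaps : ∀ w ∈ ((Finset.Icc 1 M) ×ˢ (Finset.Icc 1 H)).filter
        (fun w => l ∣ w.1 * n - w.2), w.1 ∈ Finset.Icc 1 M := by
      intro w hw
      rw [Finset.mem_filter, Finset.mem_product] at hw
      exact hw.1.1
    rw [Finset.card_eq_sum_card_fiberwise hmaps]
    push_cast
    have hfib : ∀ m ∈ Finset.Icc 1 M, (((((Finset.Icc 1 M) ×ˢ (Finset.Icc 1 H)).filter
        (fun w => l ∣ w.1 * n - w.2)).filter (fun w => w.1 = m)).card : ℝ) ≤ (H : ℝ) / l + 1 := by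
      intro m hm
      rw [Finset.mem_Icc] at hm
      have hmn : n ≤ m * n := Nat.le_mul_of_pos_left n (by omega)
      refine le_trans ?_ (card_multiples_Icc (m * n - H - 1) H l hl)
      norm_cast
      apply Finset.card_le_card_of_injOn (fun w => m * n - w.2)
      · intro w hw
        rw [Finset.mem_coe, Finset.mem_filter, Finset.mem_filter, Finset.mem_product,
          Finset.mem_Icc, Finset.mem_Icc] at hw
        obtain ⟨⟨⟨b1, b2⟩, b3⟩, b4⟩ := hw
        rw [Finset.mem_coe, Finset.mem_filter, Finset.mem_Icc]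
        rw [b4] at b3
        refine ⟨⟨?_, ?_⟩, b3⟩
        · show m * n - H - 1 + 1 ≤ m * n - w.2
          omega
        · show m * n - w.2 ≤ m * n - H - 1 + H
          omega
      · intro w hw v hv hwv
        rw [Finset.mem_coe, Finset.mem_filter, Finset.mem_filter, Finset.mem_product,
          Finset.mem_Icc, Finset.mem_Icc] at hw hv
        simp only at hwv
        obtain ⟨⟨⟨b1, b2⟩, b3⟩, b4⟩ := hw
        obtain ⟨⟨⟨c1, c2⟩, c3⟩, c4⟩ := hv
        exact Prod.ext (by rw [b4, c4]) (by omega)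
    refine (Finset.sum_le_sum hfib).trans (le_of_eq ?_)
    rw [Finset.sum_const, Nat.card_Icc, nsmul_eq_mul]
    simp only [Nat.add_sub_cancel]
    ring
  rcases le_total (M : ℝ) H with h | h
  · rw [min_eq_left h]; exact hB
  · rw [min_eq_right h]; exact hA

theorem sum_divisors_primorial_le (L : ℕ) :
    ∑ d ∈ (primorial L).divisors, (1 : ℝ) / d ≤ ∏ p ∈ Nat.primesLE L, (1 + (1 : ℝ) / p) := by
  rw [Finset.prod_one_add]
  have hsq : ∀ d ∈ (primorial L).divisors, ∏ p ∈ d.primeFactors, p = d := by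
    intro d hd
    exact Nat.prod_primeFactors_of_squarefree
      (Squarefree.squarefree_of_dvd (Nat.dvd_of_mem_divisors hd) (squarefree_primorial L))
  have hinj : Set.InjOn (fun d : ℕ => d.primeFactors) ((primorial L).divisors : Set ℕ) := by
    intro d hd e he hde
    simp only at hde
    rw [← hsq d hd, ← hsq e he, hde]
  have h1 : ∑ d ∈ (primorial L).divisors, (1 : ℝ) / d =
      ∑ t ∈ (primorial L).divisors.image (fun d : ℕ => d.primeFactors), ∏ p ∈ t, (1 : ℝ) / p := by
    rw [Finset.sum_image hinj]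
    apply Finset.sum_congr rfl
    intro d hd
    conv_lhs => rw [← hsq d hd]
    push_cast
    rw [Finset.prod_div_distrib, Finset.prod_const_one]
  rw [h1]
  apply Finset.sum_le_sum_of_subset_of_nonneg
  · intro t ht
    rw [Finset.mem_image] at ht
    obtain ⟨d, hd, rfl⟩ := ht
    rw [Finset.mem_powerset, ← primeFactors_primorial]
    exact Nat.primeFactors_mono (Nat.dvd_of_mem_divisors hd) (primorial_ne_zero L)
  · intro t _ _
    exact Finset.prod_nonneg (fun p _ => by positivity)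

/-- second moment of the truncated divisor sum over a family of integers -/
theorem second_moment (W : Finset (ℕ × ℕ)) (ff : ℕ × ℕ → ℕ) (L : ℕ) (A B : ℝ)
    (hA : 0 ≤ A) (hB : 0 ≤ B)
    (hW : ∀ l : ℕ, 1 ≤ l → (((W.filter (fun w => l ∣ ff w)).card : ℕ) : ℝ) ≤ A / l + B) :
    ∑ w ∈ W, (∑ d ∈ (primorial L).divisors.filter (fun d => d ∣ ff w), (1 : ℝ) / d) ^ 2 ≤
      9 * A + B * (∏ p ∈ Nat.primesLE L, (1 + (1 : ℝ) / p)) ^ 2 := by
  set D := (primorial L).divisors with hD
  have hDpos : ∀ d ∈ D, 1 ≤ d := fun d hd => Nat.pos_of_mem_divisors hd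
  have h1 : ∀ w ∈ W, (∑ d ∈ D.filter (fun d => d ∣ ff w), (1 : ℝ) / d) ^ 2 =
      ∑ d ∈ D, ∑ e ∈ D, if d ∣ ff w ∧ e ∣ ff w then (1 : ℝ) / d * (1 / e) else 0 := by
    intro w _
    rw [pow_two, Finset.sum_mul_sum, Finset.sum_filter]
    apply Finset.sum_congr rfl
    intro d _
    split_ifs with hd
    · rw [Finset.sum_filter]
      apply Finset.sum_congr rfl
      intro e _
      simp [hd]
    · symm
      apply Finset.sum_eq_zero
      intro e _
      simp [hd]
  rw [Finset.sum_congr rfl h1, Finset.sum_comm]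
  have h2 : ∀ d ∈ D, (∑ w ∈ W, ∑ e ∈ D,
        if d ∣ ff w ∧ e ∣ ff w then (1 : ℝ) / d * (1 / e) else 0) ≤
      ∑ e ∈ D, (A * ((1 : ℝ) / (d * √d) * (1 / (e * √e))) + B * ((1 : ℝ) / d * (1 / e))) := by
    intro d hd
    rw [Finset.sum_comm]
    apply Finset.sum_le_sum
    intro e he
    rw [← Finset.sum_filter, Finset.sum_const, nsmul_eq_mul]
    have hd1 := hDpos d hd
    have he1 := hDpos e he
    have hd0 : (0 : ℝ) < d := by exact_mod_cast hd1
    have he0 : (0 : ℝ) < e := by exact_mod_cast he1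
    have hlpos : 0 < Nat.lcm d e := Nat.lcm_pos hd1 he1
    have hcard : (((W.filter (fun w => d ∣ ff w ∧ e ∣ ff w)).card : ℕ) : ℝ) ≤
        A / (Nat.lcm d e : ℝ) + B := by
      have h3 : W.filter (fun w => d ∣ ff w ∧ e ∣ ff w) = W.filter (fun w => Nat.lcm d e ∣ ff w) := by
        apply Finset.filter_congr
        intro w _
        rw [Nat.lcm_dvd_iff]
      rw [h3]
      exact hW _ hlpos
    have hl : √(d : ℝ) * √(e : ℝ) ≤ (Nat.lcm d e : ℝ) := by
      have h4 : (d : ℝ) ≤ (Nat.lcm d e : ℝ) := by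
        exact_mod_cast Nat.le_of_dvd hlpos (Nat.dvd_lcm_left d e)
      have h5 : (e : ℝ) ≤ (Nat.lcm d e : ℝ) := by
        exact_mod_cast Nat.le_of_dvd hlpos (Nat.dvd_lcm_right d e)
      calc √(d : ℝ) * √(e : ℝ) ≤ √(Nat.lcm d e : ℝ) * √(Nat.lcm d e : ℝ) := by
            gcongr
        _ = (Nat.lcm d e : ℝ) := Real.mul_self_sqrt (by positivity)
    have hsd : 0 < √(d : ℝ) := Real.sqrt_pos.mpr hd0
    have hse : 0 < √(e : ℝ) := Real.sqrt_pos.mpr he0
    calc (((W.filter (fun w => d ∣ ff w ∧ e ∣ ff w)).card : ℕ) : ℝ) * ((1 : ℝ) / d * (1 / e))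
        ≤ (A / (Nat.lcm d e : ℝ) + B) * ((1 : ℝ) / d * (1 / e)) := by gcongr
      _ ≤ (A / (√(d : ℝ) * √(e : ℝ)) + B) * ((1 : ℝ) / d * (1 / e)) := by gcongr
      _ = _ := by field_simp
  refine (Finset.sum_le_sum h2).trans ?_
  have h3 : ∑ d ∈ D, ∑ e ∈ D,
      (A * ((1 : ℝ) / (d * √d) * (1 / (e * √e))) + B * ((1 : ℝ) / d * (1 / e))) =
      A * ((∑ d ∈ D, (1 : ℝ) / (d * √d)) * (∑ e ∈ D, (1 : ℝ) / (e * √e))) +
      B * ((∑ d ∈ D, (1 : ℝ) / d) * (∑ e ∈ D, (1 : ℝ) / e)) := by
    rw [Finset.sum_mul_sum, Finset.sum_mul_sum, Finset.mul_sum, Finset.mul_sum,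
      ← Finset.sum_add_distrib]
    apply Finset.sum_congr rfl
    intro d _
    rw [Finset.mul_sum, Finset.mul_sum, ← Finset.sum_add_distrib]
  rw [h3]
  have h4 : ∑ d ∈ D, (1 : ℝ) / (d * √d) ≤ 3 := by
    refine le_trans ?_ (sum_inv_sqrt_cube_le (primorial L))
    apply Finset.sum_le_sum_of_subset_of_nonneg
    · intro d hd
      rw [Finset.mem_Icc]
      exact ⟨hDpos d hd, Nat.divisor_le hd⟩
    · intro d _ _; positivity
  have h5 : 0 ≤ ∑ d ∈ D, (1 : ℝ) / (d * √d) := Finset.sum_nonneg (fun d _ => by positivity)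
  have h6 := sum_divisors_primorial_le L
  have h7 : 0 ≤ ∑ d ∈ D, (1 : ℝ) / d := Finset.sum_nonneg (fun d _ => by positivity)
  calc A * ((∑ d ∈ D, (1 : ℝ) / (d * √d)) * (∑ e ∈ D, (1 : ℝ) / (e * √e))) +
      B * ((∑ d ∈ D, (1 : ℝ) / d) * (∑ e ∈ D, (1 : ℝ) / e))
      ≤ A * (3 * 3) + B * ((∏ p ∈ Nat.primesLE L, (1 + (1 : ℝ) / p)) *
          (∏ p ∈ Nat.primesLE L, (1 + (1 : ℝ) / p))) := by gcongr
    _ = _ := by ring

end Pool.Agent.Work.MP_70e905_nt
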