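import Mathlib
import Pool.Agent.Work.Sieve.PairBound
import Pool.Agent.Work.Sieve.MeanPhi

open Finset Nat
open Pool.Agent.Work.Sieve

namespace Pool.Agent.Work.MP_70e905_nt

/-- number of primes in the window `[z, z+H]` -/
def NW (H z : ℕ) : ℕ := ((Finset.range (H + 1)).filter (fun i => (z + i).Prime)).card

/-- number of `q ≤ X` with `q` and `q + h` prime -/
def BB (X h : ℕ) : ℕ := ((Finset.Icc 1 X).filter (fun q => q.Prime ∧ (q + h).Prime)).card

theorem NW_eq_sum (H z : ℕ) : (NW H z : ℝ) = ∑ i ∈ Finset.range (H + 1),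
    if (z + i).Prime then (1 : ℝ) else 0 := by
  unfold NW
  rw [Finset.card_filter]
  push_cast
  rfl

theorem primeCounting_eq (x : ℕ) : Nat.primeCounting x = ((Finset.Icc 1 x).filter Nat.Prime).card := by
  have h2 : (Nat.primesLE x).card = Nat.primeCounting x := by
    rw [Nat.primesLE, Nat.primesBelow_card_eq_primeCounting', Nat.primeCounting]
  rw [← h2]
  congr 1
  ext p
  rw [Nat.mem_primesLE, Finset.mem_filter, Finset.mem_Icc]
  constructor
  · rintro ⟨h1, h3⟩; exact ⟨⟨h3.one_lt.le, h1⟩, h3⟩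
  · rintro ⟨⟨_, h1⟩, h3⟩; exact ⟨h1, h3⟩

theorem sumNW_ge (H x : ℕ) :
    ((H : ℝ) + 1) * ((Nat.primeCounting x : ℝ) - H) ≤ ∑ z ∈ Finset.Icc 1 x, (NW H z : ℝ) := by
  simp_rw [NW_eq_sum]
  rw [Finset.sum_comm]
  have h1 : ∀ i ∈ Finset.range (H + 1), ((Nat.primeCounting x : ℝ) - H) ≤
      ∑ z ∈ Finset.Icc 1 x, if (z + i).Prime then (1 : ℝ) else 0 := by
    intro i hi
    rw [Finset.mem_range] at hi
    have h2 : (∑ z ∈ Finset.Icc 1 x, if (z + i).Prime then (1 : ℝ) else 0) =
        (((Finset.Icc 1 x).filter (fun z => (z + i).Prime)).card : ℝ) := by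
      rw [Finset.card_filter]; push_cast; rfl
    rw [h2]
    have h3 : Nat.primeCounting x ≤ ((Finset.Icc 1 x).filter (fun z => (z + i).Prime)).card + H := by
      rw [primeCounting_eq]
      have hsub : (Finset.Icc 1 x).filter Nat.Prime ⊆
          (((Finset.Icc 1 x).filter (fun z => (z + i).Prime)).image (fun z => z + i)) ∪
            Finset.Icc 1 i := by
        intro p hp
        rw [Finset.mem_filter, Finset.mem_Icc] at hp
        rw [Finset.mem_union, Finset.mem_image, Finset.mem_Icc]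
        by_cases h : p ≤ i
        · exact Or.inr ⟨hp.1.1, h⟩
        · left
          refine ⟨p - i, ?_, by omega⟩
          rw [Finset.mem_filter, Finset.mem_Icc]
          refine ⟨⟨by omega, by omega⟩, ?_⟩
          rw [Nat.sub_add_cancel (by omega)]
          exact hp.2
      have h4 := (Finset.card_le_card hsub).trans (Finset.card_union_le _ _)
      have h5 := Finset.card_image_le (s := (Finset.Icc 1 x).filter (fun z => (z + i).Prime))
        (f := fun z => z + i)
      rw [Nat.card_Icc] at h4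
      omega
    have h6 : (Nat.primeCounting x : ℝ) ≤
        (((Finset.Icc 1 x).filter (fun z => (z + i).Prime)).card : ℝ) + H := by exact_mod_cast h3
    linarith
  have h7 := Finset.sum_le_sum h1
  rw [Finset.sum_const, Finset.card_range, nsmul_eq_mul] at h7
  push_cast at h7
  exact h7

theorem cross_le_BB (H x i t : ℕ) (hi : i ≤ H) :
    (∑ z ∈ Finset.Icc 1 x, (if (z + i).Prime then (1 : ℝ) else 0) *
      (if (z + i + t).Prime then (1 : ℝ) else 0)) ≤ BB (x + H) t := by
  have h1 : (∑ z ∈ Finset.Icc 1 x, (if (z + i).Prime then (1 : ℝ) else 0) *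
      (if (z + i + t).Prime then (1 : ℝ) else 0)) =
      (((Finset.Icc 1 x).filter (fun z => (z + i).Prime ∧ (z + i + t).Prime)).card : ℝ) := by
    rw [Finset.card_filter]
    push_cast
    apply Finset.sum_congr rfl
    intro z _
    by_cases h1 : (z + i).Prime <;> by_cases h2 : (z + i + t).Prime <;> simp [h1, h2]
  rw [h1]
  unfold BB
  norm_cast
  apply Finset.card_le_card_of_injOn (fun z => z + i)
  · intro z hz
    rw [Finset.mem_coe, Finset.mem_filter, Finset.mem_Icc] at hz
    rw [Finset.mem_coe, Finset.mem_filter, Finset.mem_Icc]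
    refine ⟨⟨?_, ?_⟩, hz.2⟩
    · show 1 ≤ z + i
      omega
    · show z + i ≤ x + H
      omega
  · intro z _ w _ hzw
    simp only at hzw
    omega

theorem sumNW_sq_le (H x : ℕ) :
    ∑ z ∈ Finset.Icc 1 x, (NW H z : ℝ) ^ 2 ≤ ((H : ℝ) + 1) *
      ((Nat.primeCounting (x + H) : ℝ) + 2 * ∑ r ∈ Finset.Icc 1 H, (BB (x + H) r : ℝ)) := by
  have h1 : ∀ z ∈ Finset.Icc 1 x, (NW H z : ℝ) ^ 2 =
      ∑ i ∈ Finset.range (H + 1), ∑ j ∈ Finset.range (H + 1),
        (if (z + i).Prime then (1 : ℝ) else 0) * (if (z + j).Prime then (1 : ℝ) else 0) := by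
    intro z _
    rw [pow_two, NW_eq_sum, Finset.sum_mul_sum]
  rw [Finset.sum_congr rfl h1, Finset.sum_comm]
  have h2 : ∀ i ∈ Finset.range (H + 1), (∑ z ∈ Finset.Icc 1 x, ∑ j ∈ Finset.range (H + 1),
        (if (z + i).Prime then (1 : ℝ) else 0) * (if (z + j).Prime then (1 : ℝ) else 0)) ≤
      (Nat.primeCounting (x + H) : ℝ) + 2 * ∑ r ∈ Finset.Icc 1 H, (BB (x + H) r : ℝ) := by
    intro i hi
    rw [Finset.mem_range] at hi
    rw [Finset.sum_comm]
    -- split j into j = i, j > i, j < i
    have h3 : ∀ j ∈ Finset.range (H + 1), (∑ z ∈ Finset.Icc 1 x,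
        (if (z + i).Prime then (1 : ℝ) else 0) * (if (z + j).Prime then (1 : ℝ) else 0)) ≤
        (if j = i then (Nat.primeCounting (x + H) : ℝ) else 0) +
        ((if i < j then (BB (x + H) (j - i) : ℝ) else 0) +
         (if j < i then (BB (x + H) (i - j) : ℝ) else 0)) := by
      intro j hj
      rw [Finset.mem_range] at hj
      rcases lt_trichotomy j i with h | h | h
      · rw [if_neg h.ne, if_neg (by omega), if_pos h, zero_add, zero_add]
        refine le_trans (le_of_eq ?_) (cross_le_BB H x j (i - j) (by omega))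
        apply Finset.sum_congr rfl
        intro z _
        rw [mul_comm]
        congr 3
        rw [show z + j + (i - j) = z + i by omega]
      · subst h
        rw [if_pos rfl, if_neg (lt_irrefl _), add_zero, add_zero]
        have h4 : (∑ z ∈ Finset.Icc 1 x, (if (z + j).Prime then (1 : ℝ) else 0) *
            (if (z + j).Prime then (1 : ℝ) else 0)) =
            (((Finset.Icc 1 x).filter (fun z => (z + j).Prime)).card : ℝ) := by
          rw [Finset.card_filter]
          push_cast
          apply Finset.sum_congr rfl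
          intro z _
          by_cases h1 : (z + j).Prime <;> simp [h1]
        rw [h4, primeCounting_eq]
        norm_cast
        apply Finset.card_le_card_of_injOn (fun z => z + j)
        · intro z hz
          rw [Finset.mem_coe, Finset.mem_filter, Finset.mem_Icc] at hz
          rw [Finset.mem_coe, Finset.mem_filter, Finset.mem_Icc]
          refine ⟨⟨?_, ?_⟩, hz.2⟩
          · show 1 ≤ z + j
            omega
          · show z + j ≤ x + H
            omega
        · intro z _ w _ hzw
          simp only at hzw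
          omega
      · rw [if_neg h.ne', if_pos h, if_neg (by omega), zero_add, add_zero]
        refine le_trans (le_of_eq ?_) (cross_le_BB H x i (j - i) (by omega))
        apply Finset.sum_congr rfl
        intro z _
        congr 3
        rw [show z + i + (j - i) = z + j by omega]
    refine (Finset.sum_le_sum h3).trans ?_
    rw [Finset.sum_add_distrib, Finset.sum_add_distrib]
    have h5 : (∑ j ∈ Finset.range (H + 1), if j = i then (Nat.primeCounting (x + H) : ℝ) else 0) =
        (Nat.primeCounting (x + H) : ℝ) := by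
      rw [Finset.sum_ite_eq', if_pos (Finset.mem_range.mpr hi)]
    have h6 : (∑ j ∈ Finset.range (H + 1), if i < j then (BB (x + H) (j - i) : ℝ) else 0) ≤
        ∑ r ∈ Finset.Icc 1 H, (BB (x + H) r : ℝ) := by
      rw [← Finset.sum_filter]
      have hinj : Set.InjOn (fun j => j - i) ((Finset.range (H + 1)).filter (fun j => i < j) : Set ℕ) := by
        intro a ha b hb hab
        rw [Finset.mem_coe, Finset.mem_filter] at ha hb
        simp only at hab
        omega
      rw [← Finset.sum_image (f := fun r => (BB (x + H) r : ℝ)) hinj]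
      apply Finset.sum_le_sum_of_subset_of_nonneg
      · intro r hr
        rw [Finset.mem_image] at hr
        obtain ⟨j, hj, rfl⟩ := hr
        rw [Finset.mem_filter, Finset.mem_range] at hj
        rw [Finset.mem_Icc]
        omega
      · intro r _ _; positivity
    have h7 : (∑ j ∈ Finset.range (H + 1), if j < i then (BB (x + H) (i - j) : ℝ) else 0) ≤
        ∑ r ∈ Finset.Icc 1 H, (BB (x + H) r : ℝ) := by
      rw [← Finset.sum_filter]
      have hinj : Set.InjOn (fun j => i - j) ((Finset.range (H + 1)).filter (fun j => j < i) : Set ℕ) := by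
        intro a ha b hb hab
        rw [Finset.mem_coe, Finset.mem_filter] at ha hb
        simp only at hab
        omega
      rw [← Finset.sum_image (f := fun r => (BB (x + H) r : ℝ)) hinj]
      apply Finset.sum_le_sum_of_subset_of_nonneg
      · intro r hr
        rw [Finset.mem_image] at hr
        obtain ⟨j, hj, rfl⟩ := hr
        rw [Finset.mem_filter, Finset.mem_range] at hj
        rw [Finset.mem_Icc]
        omega
      · intro r _ _; positivity
    linarith
  refine (Finset.sum_le_sum h2).trans (le_of_eq ?_)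
  rw [Finset.sum_const, Finset.card_range, nsmul_eq_mul]
  push_cast
  ring

theorem cross_sum_le (H x t : ℕ) (ht : H < t) :
    ∑ z ∈ Finset.Icc 1 x, (NW H z : ℝ) * (NW H (z + t) : ℝ) ≤
      ((H : ℝ) + 1) * ∑ h ∈ Finset.Icc (t - H) (t + H), (BB (x + H) h : ℝ) := by
  have h1 : ∀ z ∈ Finset.Icc 1 x, (NW H z : ℝ) * (NW H (z + t) : ℝ) =
      ∑ i ∈ Finset.range (H + 1), ∑ j ∈ Finset.range (H + 1),
        (if (z + i).Prime then (1 : ℝ) else 0) * (if (z + t + j).Prime then (1 : ℝ) else 0) := by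
    intro z _
    rw [NW_eq_sum, NW_eq_sum, Finset.sum_mul_sum]
  rw [Finset.sum_congr rfl h1, Finset.sum_comm]
  have h2 : ∀ i ∈ Finset.range (H + 1), (∑ z ∈ Finset.Icc 1 x, ∑ j ∈ Finset.range (H + 1),
        (if (z + i).Prime then (1 : ℝ) else 0) * (if (z + t + j).Prime then (1 : ℝ) else 0)) ≤
      ∑ h ∈ Finset.Icc (t - H) (t + H), (BB (x + H) h : ℝ) := by
    intro i hi
    rw [Finset.mem_range] at hi
    rw [Finset.sum_comm]
    have h3 : ∀ j ∈ Finset.range (H + 1), (∑ z ∈ Finset.Icc 1 x,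
        (if (z + i).Prime then (1 : ℝ) else 0) * (if (z + t + j).Prime then (1 : ℝ) else 0)) ≤
        (BB (x + H) (t + j - i) : ℝ) := by
      intro j hj
      refine le_trans (le_of_eq ?_) (cross_le_BB H x i (t + j - i) (by omega))
      apply Finset.sum_congr rfl
      intro z _
      congr 3
      rw [show z + i + (t + j - i) = z + t + j by omega]
    refine (Finset.sum_le_sum h3).trans ?_
    have hinj : Set.InjOn (fun j => t + j - i) (Finset.range (H + 1) : Set ℕ) := by
      intro a ha b hb hab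
      simp only at hab
      omega
    rw [← Finset.sum_image (f := fun r => (BB (x + H) r : ℝ)) hinj]
    apply Finset.sum_le_sum_of_subset_of_nonneg
    · intro r hr
      rw [Finset.mem_image] at hr
      obtain ⟨j, hj, rfl⟩ := hr
      rw [Finset.mem_range] at hj
      rw [Finset.mem_Icc]
      omega
    · intro r _ _; positivity
  refine (Finset.sum_le_sum h2).trans (le_of_eq ?_)
  rw [Finset.sum_const, Finset.card_range, nsmul_eq_mul]
  push_cast
  ring

/-- starting points of windows with a prime -/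
def ZZ (H x : ℕ) : Finset ℕ := (Finset.Icc 1 x).filter (fun z => 0 < NW H z)

theorem sumNW_sq_le_card (H x : ℕ) :
    (∑ z ∈ Finset.Icc 1 x, (NW H z : ℝ)) ^ 2 ≤
      ((ZZ H x).card : ℝ) * ∑ z ∈ Finset.Icc 1 x, (NW H z : ℝ) ^ 2 := by
  have h1 : ∑ z ∈ Finset.Icc 1 x, (NW H z : ℝ) = ∑ z ∈ ZZ H x, (NW H z : ℝ) := by
    unfold ZZ
    rw [Finset.sum_filter]
    apply Finset.sum_congr rfl
    intro z _
    split_ifs with h
    · rfl
    · have : NW H z = 0 := by omega
      rw [this]; simp
  rw [h1]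
  refine (sq_sum_le_card_mul_sum_sq (s := ZZ H x) (f := fun z => (NW H z : ℝ))).trans ?_
  gcongr
  unfold ZZ
  exact Finset.filter_subset _ _

/-- pairs of window starting points in the same class modulo `n` -/
def DZ (H n x : ℕ) : Finset (ℕ × ℕ) :=
  ((ZZ H x) ×ˢ (ZZ H x)).filter (fun w => w.2 < w.1 ∧ w.1 % n = w.2 % n)

theorem card_ZZ_sq_le {n : ℕ} (hn : 0 < n) (H x : ℕ) :
    ((ZZ H x).card : ℝ) ^ 2 ≤ (n : ℝ) * ((ZZ H x).card + 2 * (DZ H n x).card) := by
  set R := Finset.range n with hR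
  have hRcard : R.card = n := Finset.card_range n
  have hmaps : ∀ p ∈ ZZ H x, p % n ∈ R := by
    intro p _
    rw [hR, Finset.mem_range]
    exact Nat.mod_lt _ hn
  have h1 : (ZZ H x).card = ∑ r ∈ R, ((ZZ H x).filter (fun p => p % n = r)).card :=
    Finset.card_eq_sum_card_fiberwise hmaps
  have h2 : ((ZZ H x).card : ℝ) ^ 2 ≤ (R.card : ℝ) *
      ∑ r ∈ R, (((ZZ H x).filter (fun p => p % n = r)).card : ℝ) ^ 2 := by
    rw [h1]
    push_cast
    exact sq_sum_le_card_mul_sum_sq
  have h3 : ∑ r ∈ R, (((ZZ H x).filter (fun p => p % n = r)).card : ℝ) ^ 2 =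
      ((((ZZ H x) ×ˢ (ZZ H x)).filter (fun w => w.1 % n = w.2 % n)).card : ℝ) := by
    have hmaps2 : ∀ w ∈ ((ZZ H x) ×ˢ (ZZ H x)).filter (fun w => w.1 % n = w.2 % n), w.1 % n ∈ R := by
      intro w hw
      rw [Finset.mem_filter, Finset.mem_product] at hw
      exact hmaps _ hw.1.1
    rw [Finset.card_eq_sum_card_fiberwise hmaps2]
    push_cast
    apply Finset.sum_congr rfl
    intro r _
    rw [pow_two, ← Nat.cast_mul, ← Finset.card_product]
    congr 2
    ext w
    simp only [Finset.mem_product, Finset.mem_filter]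
    constructor
    · rintro ⟨⟨a1, a2⟩, ⟨b1, b2⟩⟩
      exact ⟨⟨⟨a1, b1⟩, by rw [a2, b2]⟩, a2⟩
    · rintro ⟨⟨⟨a1, b1⟩, c⟩, a2⟩
      exact ⟨⟨a1, a2⟩, ⟨b1, by rw [← c, a2]⟩⟩
  have h4 : ((((ZZ H x) ×ˢ (ZZ H x)).filter (fun w => w.1 % n = w.2 % n)).card : ℝ) ≤
      (ZZ H x).card + 2 * (DZ H n x).card := by
    have hsub : ((ZZ H x) ×ˢ (ZZ H x)).filter (fun w => w.1 % n = w.2 % n) ⊆
        ((ZZ H x).image (fun p => (p, p)) ∪ DZ H n x) ∪ (DZ H n x).image (fun w => (w.2, w.1)) := by
      intro w hw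
      rw [Finset.mem_filter, Finset.mem_product] at hw
      obtain ⟨⟨a, b⟩, c⟩ := hw
      rw [Finset.mem_union, Finset.mem_union, Finset.mem_image, Finset.mem_image]
      rcases lt_trichotomy w.1 w.2 with h | h | h
      · right
        refine ⟨(w.2, w.1), ?_, rfl⟩
        rw [DZ, Finset.mem_filter, Finset.mem_product]
        exact ⟨⟨b, a⟩, h, c.symm⟩
      · left; left
        exact ⟨w.1, a, Prod.ext rfl h⟩
      · left; right
        rw [DZ, Finset.mem_filter, Finset.mem_product]
        exact ⟨⟨a, b⟩, h, c⟩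
    have h5 := (Finset.card_le_card hsub).trans (Finset.card_union_le _ _)
    have h6 := Finset.card_union_le ((ZZ H x).image (fun p => (p, p))) (DZ H n x)
    have h7 := Finset.card_image_le (s := ZZ H x) (f := fun p => (p, p))
    have h8 := Finset.card_image_le (s := DZ H n x) (f := fun w => (w.2, w.1))
    have h9 : (((ZZ H x) ×ˢ (ZZ H x)).filter (fun w => w.1 % n = w.2 % n)).card ≤
        (ZZ H x).card + 2 * (DZ H n x).card := by omega
    exact_mod_cast h9
  rw [hRcard, h3] at h2
  refine h2.trans ?_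
  gcongr

/-- `m` is good up to error `H`. -/
def GoodH (H n X m : ℕ) : Prop := ∃ p q : ℕ, p.Prime ∧ q.Prime ∧ p ≤ X ∧ q + m * n ≤ p + H ∧
  p ≤ q + m * n + H

open Classical in
theorem card_DZ_le {n H M : ℕ} (hHn : H < n) :
    ((DZ H n (M * n)).card : ℝ) ≤
      ∑ m ∈ (Finset.Icc 1 M).filter (fun m => GoodH H n (M * n + H) m),
        ((H : ℝ) + 1) * ∑ h ∈ Finset.Icc (m * n - H) (m * n + H), (BB (M * n + H) h : ℝ) := by
  have hn : 0 < n := by omega
  set x := M * n with hxdef
  set G := (Finset.Icc 1 M).filter (fun m => GoodH H n (x + H) m) with hG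
  have hdata : ∀ w ∈ DZ H n x, w.1 = w.2 + (w.1 - w.2) / n * n ∧ w.1 ≤ x ∧ 1 ≤ w.2 ∧
      1 ≤ (w.1 - w.2) / n ∧ (w.1 - w.2) / n ≤ M ∧ 0 < NW H w.1 ∧ 0 < NW H w.2 := by
    intro w hw
    rw [DZ, Finset.mem_filter, Finset.mem_product, ZZ, Finset.mem_filter, Finset.mem_filter,
      Finset.mem_Icc, Finset.mem_Icc] at hw
    obtain ⟨⟨⟨⟨a1, a2⟩, a3⟩, ⟨⟨b1, b2⟩, b3⟩⟩, c, e⟩ := hw
    have hdvd : n ∣ w.1 - w.2 := (Nat.modEq_iff_dvd' c.le).mp e.symm
    have h1 := Nat.div_mul_cancel hdvd
    refine ⟨by omega, a2, b1, ?_, ?_, a3, b3⟩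
    · exact Nat.div_pos (Nat.le_of_dvd (by omega) hdvd) hn
    · have : (w.1 - w.2) / n * n ≤ M * n := by omega
      exact Nat.le_of_mul_le_mul_right this hn
  have hmaps : ∀ w ∈ DZ H n x, (w.1 - w.2) / n ∈ G := by
    intro w hw
    obtain ⟨h1, h2, h3, h4, h5, h6, h7⟩ := hdata w hw
    rw [hG, Finset.mem_filter, Finset.mem_Icc]
    refine ⟨⟨h4, h5⟩, ?_⟩
    obtain ⟨i, hi⟩ := Finset.card_pos.mp h6
    obtain ⟨j, hj⟩ := Finset.card_pos.mp h7
    rw [Finset.mem_filter, Finset.mem_range] at hi hj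
    refine ⟨w.1 + i, w.2 + j, hi.2, hj.2, by omega, ?_, ?_⟩
    · omega
    · omega
  rw [Finset.card_eq_sum_card_fiberwise hmaps]
  push_cast
  apply Finset.sum_le_sum
  intro m hm
  rw [hG, Finset.mem_filter, Finset.mem_Icc] at hm
  have hmn : H < m * n := lt_of_lt_of_le hHn (Nat.le_mul_of_pos_left n (by omega))
  refine le_trans ?_ (cross_sum_le H x (m * n) hmn)
  have h1 : (((DZ H n x).filter (fun w => (w.1 - w.2) / n = m)).card : ℝ) ≤
      (((Finset.Icc 1 x).filter (fun z => 0 < NW H z ∧ 0 < NW H (z + m * n))).card : ℝ) := by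
    norm_cast
    apply Finset.card_le_card_of_injOn (fun w => w.2)
    · intro w hw
      rw [Finset.mem_coe, Finset.mem_filter] at hw
      obtain ⟨h1, h2, h3, h4, h5, h6, h7⟩ := hdata w hw.1
      rw [hw.2] at h1
      rw [Finset.mem_coe, Finset.mem_filter, Finset.mem_Icc]
      refine ⟨⟨h3, ?_⟩, h7, ?_⟩
      · show w.2 ≤ x
        omega
      · show 0 < NW H (w.2 + m * n)
        rw [← h1]; exact h6
    · intro w hw v hv hwv
      rw [Finset.mem_coe, Finset.mem_filter] at hw hv
      obtain ⟨h3, _⟩ := hdata w hw.1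
      obtain ⟨h3', _⟩ := hdata v hv.1
      rw [hw.2] at h3
      rw [hv.2] at h3'
      simp only at hwv
      exact Prod.ext (by rw [h3, h3', hwv]) hwv
  refine h1.trans ?_
  rw [Finset.card_filter]
  push_cast
  apply Finset.sum_le_sum
  intro z _
  split_ifs with h
  · have e1 : (1 : ℝ) ≤ NW H z := by exact_mod_cast h.1
    have e2 : (1 : ℝ) ≤ NW H (z + m * n) := by exact_mod_cast h.2
    nlinarith
  · positivity

end Pool.Agent.Work.MP_70e905_nt
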