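import Mathlib
import Pool.Agent.Work.MP_70e905_nt.MultiplesMain
import Pool.Agent.Work.MP_70e905_nt.Windows
import Pool.Agent.Work.MP_70e905_nt.Strips

open Finset Nat
open Pool.Agent.Work.Sieve

namespace Pool.Agent.Work.MP_70e905_nt

theorem pi_lower {x : ℕ} (hx : 100000 ≤ x) :
    (x : ℝ) / (2 * Real.log x) + 2 * Real.log x ≤ Nat.primeCounting x := by
  have hxr : (100000 : ℝ) ≤ x := by exact_mod_cast hx
  have hlog : 0 < Real.log x := Real.log_pos (by linarith)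
  have hpi := Chebyshev.pi_ge x
  have hl2 := Real.log_two_gt_d9
  refine le_trans ?_ hpi
  rw [le_div_iff₀ hlog]
  have e1 : ((x : ℝ) / (2 * Real.log x) + 2 * Real.log x) * Real.log x =
      x / 2 + 2 * (Real.log x) ^ 2 := by field_simp
  rw [e1]
  have e2 := log_sq_le (x := x) (by linarith)
  set t := √(x : ℝ) with ht
  have ht2 : t ^ 2 = x := Real.sq_sqrt (by linarith)
  have ht300 : (300 : ℝ) ≤ t := by
    rw [ht]
    apply Real.le_sqrt_of_sq_le
    linarith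
  have e3 : Real.log (x + 1) ≤ 2 * t := by
    have a1 : Real.log ((x : ℝ) + 1) = 2 * Real.log (√((x : ℝ) + 1)) := by
      rw [Real.log_sqrt (by linarith)]; ring
    have a2 : Real.log (√((x : ℝ) + 1)) ≤ √((x : ℝ) + 1) - 1 :=
      Real.log_le_sub_one_of_pos (Real.sqrt_pos.mpr (by linarith))
    have a3 : √((x : ℝ) + 1) ≤ t + 1 := by
      rw [Real.sqrt_le_left (by linarith)]
      rw [← ht2]
      nlinarith
    linarith
  nlinarith

theorem pi_upper {x X : ℕ} (hx : 100000 ≤ x) (hX : X ≤ 2 * x) :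
    (Nat.primeCounting X : ℝ) ≤ 7 * (x / Real.log x) := by
  have hxr : (100000 : ℝ) ≤ x := by exact_mod_cast hx
  have hlog : 0 < Real.log x := Real.log_pos (by linarith)
  have h1 : (Nat.primeCounting X : ℝ) ≤ (Nat.primeCounting (2 * x) : ℝ) := by
    exact_mod_cast Nat.monotone_primeCounting hX
  have h2 := Chebyshev.pi_le_log4_mul_div (x := ((2 * x : ℕ) : ℝ)) (by push_cast; linarith)
  rw [Nat.floor_natCast] at h2
  push_cast at h2
  refine h1.trans (h2.trans ?_)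
  have h3 : Real.log (√(2 * (x : ℝ))) = Real.log (2 * x) / 2 := Real.log_sqrt (by positivity)
  have h4 : Real.log x ≤ Real.log (2 * x) := Real.log_le_log (by linarith) (by linarith)
  have h5 : Real.log 4 * (2 * x) / Real.log (√(2 * (x : ℝ))) ≤ 4 * Real.log 4 * (x / Real.log x) := by
    rw [h3]
    have : Real.log 4 * (2 * (x : ℝ)) / (Real.log (2 * x) / 2) =
        4 * Real.log 4 * (x / Real.log (2 * x)) := by field_simp; norm_num
    rw [this]
    have hl4 : 0 < Real.log 4 := Real.log_pos (by norm_num)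
    gcongr
  have h6 : √(2 * (x : ℝ)) ≤ x / Real.log x := by
    rw [le_div_iff₀ hlog]
    have e2 := log_sq_le (x := (x : ℝ)) (by linarith)
    have h7 : (√(2 * (x : ℝ)) * Real.log x) ^ 2 ≤ (x : ℝ) ^ 2 := by
      rw [mul_pow, Real.sq_sqrt (by positivity)]
      set t := √(x : ℝ) with ht
      have ht2 : t ^ 2 = x := Real.sq_sqrt (by linarith)
      have ht300 : (300 : ℝ) ≤ t := by
        rw [ht]
        apply Real.le_sqrt_of_sq_le
        linarith
      have h8 : 2 * (x : ℝ) * (Real.log x) ^ 2 ≤ 2 * x * (16 * t) := by gcongr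
      nlinarith [mul_nonneg (by linarith : (0 : ℝ) ≤ x) (by linarith : (0 : ℝ) ≤ t)]
    exact le_of_sq_le_sq h7 (by linarith)
  have h9 : Real.log 4 ≤ 1.4 := by
    have : Real.log 4 = 2 * Real.log 2 := by
      rw [show (4 : ℝ) = 2 ^ 2 by norm_num, Real.log_pow]; norm_num
    rw [this]
    have := Real.log_two_lt_d9
    linarith
  have h10 : 0 ≤ (x : ℝ) / Real.log x := by positivity
  nlinarith

theorem BB_le {x H h : ℕ} (hx : 100000 ≤ x) (hH : H ≤ x) (hh : 0 < h) :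
    (BB (x + H) h : ℝ) ≤ 432 * (x / (Real.log x) ^ 2) * ((h : ℝ) / (Nat.totient h : ℝ)) := by
  have hxr : (100000 : ℝ) ≤ x := by exact_mod_cast hx
  have hlog : 0 < Real.log x := Real.log_pos (by linarith)
  have h1 := pair_bound_shift (h := h) hh (X := x + H) (by omega)
  refine h1.trans ?_
  have hHr : (H : ℝ) ≤ x := by exact_mod_cast hH
  have hH0 : (0 : ℝ) ≤ H := Nat.cast_nonneg H
  have h2 : (((x + H : ℕ) : ℝ)) / (Real.log ((x + H : ℕ) : ℝ)) ^ 2 ≤ 2 * (x / (Real.log x) ^ 2) := by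
    push_cast
    have h3 : Real.log x ≤ Real.log ((x : ℝ) + H) := Real.log_le_log (by linarith) (by linarith)
    calc ((x : ℝ) + H) / (Real.log ((x : ℝ) + H)) ^ 2 ≤ (2 * x) / (Real.log x) ^ 2 := by
          gcongr
          linarith
      _ = _ := by ring
  have h3 : 0 ≤ (h : ℝ) / (Nat.totient h : ℝ) := by positivity
  calc 216 * ((h : ℝ) / (Nat.totient h : ℝ)) * (((x + H : ℕ) : ℝ) / (Real.log ((x + H : ℕ) : ℝ)) ^ 2)
      ≤ 216 * ((h : ℝ) / (Nat.totient h : ℝ)) * (2 * (x / (Real.log x) ^ 2)) := by gcongr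
    _ = _ := by ring

theorem sum_div_totient_le (M : ℕ) :
    ∑ m ∈ Finset.Icc 1 M, ((m : ℝ) / (Nat.totient m : ℝ)) ≤ 36 * M := by
  refine le_trans ?_ (sum_sq_div_totient_le M)
  apply Finset.sum_le_sum
  intro m hm
  rw [Finset.mem_Icc] at hm
  have := one_le_div_totient (k := m) (by omega)
  nlinarith

/-- lower bound for the number of good windows -/
theorem card_ZZ_ge {x H : ℕ} (hx : 100000 ≤ x) (hH : (H : ℝ) + 1 ≤ Real.log x) :
    ((H : ℝ) + 1) * x / (124444 * Real.log x) ≤ ((ZZ H x).card : ℝ) := by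
  have hxr : (100000 : ℝ) ≤ x := by exact_mod_cast hx
  have hlog : 0 < Real.log x := Real.log_pos (by linarith)
  have hH0 : (0 : ℝ) ≤ H := Nat.cast_nonneg H
  have hlogx : Real.log x ≤ x := (Real.log_le_sub_one_of_pos (by linarith)).trans (by linarith)
  have hHx : H ≤ x := by
    have : (H : ℝ) ≤ x := by linarith
    exact_mod_cast this
  have h1 := sumNW_ge H x
  have h2 := sumNW_sq_le H x
  have h3 := sumNW_sq_le_card H x
  have hpl := pi_lower hx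
  have hpu := pi_upper hx (X := x + H) (by omega)
  set S1 := ∑ z ∈ Finset.Icc 1 x, (NW H z : ℝ) with hS1
  set S2 := ∑ z ∈ Finset.Icc 1 x, (NW H z : ℝ) ^ 2 with hS2
  set W : ℝ := ((ZZ H x).card : ℝ) with hW
  have hS1ge : ((H : ℝ) + 1) * (x / (2 * Real.log x)) ≤ S1 := by
    refine le_trans ?_ h1
    gcongr
    linarith
  have hBB : ∑ r ∈ Finset.Icc 1 H, (BB (x + H) r : ℝ) ≤ 432 * (x / (Real.log x) ^ 2) * (36 * H) := by
    calc ∑ r ∈ Finset.Icc 1 H, (BB (x + H) r : ℝ) ≤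
          ∑ r ∈ Finset.Icc 1 H, 432 * (x / (Real.log x) ^ 2) * ((r : ℝ) / (Nat.totient r : ℝ)) := by
          apply Finset.sum_le_sum
          intro r hr
          rw [Finset.mem_Icc] at hr
          exact BB_le hx hHx (by omega)
      _ = 432 * (x / (Real.log x) ^ 2) * ∑ r ∈ Finset.Icc 1 H, ((r : ℝ) / (Nat.totient r : ℝ)) := by
          rw [Finset.mul_sum]
      _ ≤ _ := by
          gcongr
          exact sum_div_totient_le H
  have hS2le : S2 ≤ ((H : ℝ) + 1) * (31111 * (x / Real.log x)) := by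
    refine h2.trans ?_
    gcongr
    have h4 : 432 * (x / (Real.log x) ^ 2) * (36 * (H : ℝ)) ≤ 15552 * (x / Real.log x) := by
      have h5 : 432 * (x / (Real.log x) ^ 2) * (36 * (H : ℝ)) =
          15552 * (x / Real.log x) * (H / Real.log x) := by ring
      rw [h5]
      have h6 : (H : ℝ) / Real.log x ≤ 1 := by
        rw [div_le_one hlog]; linarith
      have h7 : 0 ≤ 15552 * ((x : ℝ) / Real.log x) := by positivity
      nlinarith
    linarith
  have hxl : 0 < (x : ℝ) / Real.log x := by positivity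
  have hW0 : 0 ≤ W := Nat.cast_nonneg _
  have h5 : (((H : ℝ) + 1) * (x / (2 * Real.log x))) ^ 2 ≤
      W * (((H : ℝ) + 1) * (31111 * (x / Real.log x))) := by
    calc (((H : ℝ) + 1) * (x / (2 * Real.log x))) ^ 2 ≤ S1 ^ 2 := by gcongr
      _ ≤ W * S2 := h3
      _ ≤ _ := by gcongr
  have h6 : (((H : ℝ) + 1) * (x / (2 * Real.log x))) ^ 2 =
      (((H : ℝ) + 1) * (x / Real.log x)) * (((H : ℝ) + 1) * x / (4 * Real.log x)) := by
    field_simp; norm_num
  have h7 : W * (((H : ℝ) + 1) * (31111 * (x / Real.log x))) =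
      (((H : ℝ) + 1) * (x / Real.log x)) * (31111 * W) := by ring
  rw [h6, h7] at h5
  have h8 := le_of_mul_le_mul_left h5 (by positivity)
  have h9 : ((H : ℝ) + 1) * x / (124444 * Real.log x) =
      (((H : ℝ) + 1) * x / (4 * Real.log x)) / 31111 := by field_simp; norm_num
  rw [h9]
  linarith

/-- `(k+1)^8 ≤ C √ℓ` -/
theorem pow_eight_bound {t : ℝ} (ht : 1 ≤ t) :
    (2 + 2 * Real.log (t + 1)) ^ 8 ≤ 34 ^ 8 * (2 * √t) := by
  have h0 : (0 : ℝ) ≤ t + 1 := by linarith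
  have h1 : Real.log (t + 1) ≤ (t + 1) ^ ((1 : ℝ) / 16) / (1 / 16) :=
    Real.log_le_rpow_div h0 (by norm_num)
  have h2 : (1 : ℝ) ≤ (t + 1) ^ ((1 : ℝ) / 16) := Real.one_le_rpow (by linarith) (by norm_num)
  have h3 : 0 ≤ Real.log (t + 1) := Real.log_nonneg (by linarith)
  have h4 : 2 + 2 * Real.log (t + 1) ≤ 34 * (t + 1) ^ ((1 : ℝ) / 16) := by
    have : (t + 1) ^ ((1 : ℝ) / 16) / (1 / 16) = 16 * (t + 1) ^ ((1 : ℝ) / 16) := by ring
    linarith
  have h5 : (2 + 2 * Real.log (t + 1)) ^ 8 ≤ (34 * (t + 1) ^ ((1 : ℝ) / 16)) ^ 8 := by gcongr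
  have h6 : ((t + 1) ^ ((1 : ℝ) / 16)) ^ 8 = √(t + 1) := by
    rw [← Real.rpow_natCast, ← Real.rpow_mul h0, Real.sqrt_eq_rpow]
    norm_num
  have h7 : √(t + 1) ≤ 2 * √t := by
    rw [Real.sqrt_le_left (by positivity), mul_pow, Real.sq_sqrt (by linarith)]
    linarith
  rw [mul_pow, h6] at h5
  refine h5.trans ?_
  gcongr

/-- the truncation level -/
theorem exists_level {ell : ℝ} (hell : 10 ≤ ell) : ∃ k : ℕ, ell ≤ (2 : ℝ) ^ (k + 1) ∧
    (k : ℝ) + 1 ≤ 2 + 2 * Real.log (ell + 1) := by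
  set N := ⌈ell⌉₊ with hN
  have hN1 : 1 < N := by
    rw [hN, Nat.lt_ceil]
    push_cast
    linarith
  have hNL : N ≤ 2 ^ (Nat.clog 2 N) := Nat.le_pow_clog (by norm_num) N
  have hellN : ell ≤ N := Nat.le_ceil ell
  have hNell : (N : ℝ) ≤ ell + 1 := (Nat.ceil_lt_add_one (by linarith)).le
  have hkpos : 0 < Nat.clog 2 N := Nat.clog_pos (by norm_num) (by omega)
  refine ⟨Nat.clog 2 N, ?_, ?_⟩
  · have h1 : (N : ℝ) ≤ ((2 ^ (Nat.clog 2 N) : ℕ) : ℝ) := by exact_mod_cast hNL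
    push_cast at h1
    rw [pow_succ]
    have h2 : (0 : ℝ) ≤ 2 ^ (Nat.clog 2 N) := by positivity
    linarith
  · have h1 : 2 ^ (Nat.clog 2 N - 1) < N := by
      have := Nat.pow_pred_clog_lt_self (b := 2) (by norm_num) hN1
      simpa using this
    have h2 : ((2 : ℝ) ^ (Nat.clog 2 N - 1)) ≤ ell + 1 := by
      have : ((2 ^ (Nat.clog 2 N - 1) : ℕ) : ℝ) ≤ N := by exact_mod_cast h1.le
      push_cast at this
      linarith
    have h3 := Real.log_le_log (by positivity) h2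
    rw [Real.log_pow] at h3
    have h4 := Real.log_two_gt_d9
    have h5 : ((Nat.clog 2 N - 1 : ℕ) : ℝ) = (Nat.clog 2 N : ℝ) - 1 := by
      rw [Nat.cast_sub hkpos]; simp
    rw [h5] at h3
    have h6 : 0 ≤ (Nat.clog 2 N : ℝ) - 1 := by
      have : (1 : ℝ) ≤ (Nat.clog 2 N : ℝ) := by exact_mod_cast hkpos
      linarith
    nlinarith

/-- the square of the product, bounded by the square root of the level -/
theorem exists_prod_const : ∃ C₃ : ℝ, 0 < C₃ ∧ ∀ (k : ℕ) (ell : ℝ), 10 ≤ ell →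
    (k : ℝ) + 1 ≤ 2 + 2 * Real.log (ell + 1) →
    (∏ p ∈ Nat.primesLE (2 ^ (k + 1)), (1 + (1 : ℝ) / p)) ^ 2 ≤ C₃ * √ell := by
  refine ⟨4 * Real.exp 8 * (34 ^ 8 * 2), by positivity, ?_⟩
  intro k ell hell hk
  have hPi0 : 0 ≤ ∏ p ∈ Nat.primesLE (2 ^ (k + 1)), (1 + (1 : ℝ) / p) :=
    Finset.prod_nonneg (fun p _ => by positivity)
  have hPile := prod_one_add_le k
  have hb := pow_eight_bound (t := ell) (by linarith)
  have h1 : (∏ p ∈ Nat.primesLE (2 ^ (k + 1)), (1 + (1 : ℝ) / p)) ^ 2 ≤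
      (2 * Real.exp 4 * ((k : ℝ) + 1) ^ 4) ^ 2 := pow_le_pow_left₀ hPi0 hPile 2
  have h2 : (2 * Real.exp 4 * ((k : ℝ) + 1) ^ 4) ^ 2 = 4 * Real.exp 8 * ((k : ℝ) + 1) ^ 8 := by
    have : Real.exp 8 = Real.exp 4 ^ 2 := by
      rw [← Real.exp_nat_mul]; norm_num
    rw [this]
    ring
  have h3 : ((k : ℝ) + 1) ^ 8 ≤ (2 + 2 * Real.log (ell + 1)) ^ 8 :=
    pow_le_pow_left₀ (by positivity) hk 8
  have he : 0 < Real.exp 8 := Real.exp_pos 8
  have h4 : 4 * Real.exp 8 * ((k : ℝ) + 1) ^ 8 ≤ 4 * Real.exp 8 * (34 ^ 8 * (2 * √ell)) :=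
    mul_le_mul_of_nonneg_left (h3.trans hb) (by positivity)
  have h5 : 4 * Real.exp 8 * (34 ^ 8 * (2 * √ell)) = 4 * Real.exp 8 * (34 ^ 8 * 2) * √ell := by
    ring
  linarith

/-- the truncated divisor sum controls `h / φ(h)` -/
theorem exists_pt_const : ∃ C₄ : ℝ, 0 < C₄ ∧ ∀ (x k : ℕ), 100000 ≤ x →
    Real.log (x : ℝ) ≤ (2 : ℝ) ^ (k + 1) → ∀ h : ℕ, 0 < h → h ≤ 2 * x →
    ((h : ℝ) / (Nat.totient h : ℝ)) ^ 2 ≤ C₄ *
      (∑ d ∈ (primorial (2 ^ (k + 1))).divisors.filter (fun d => d ∣ h), (1 : ℝ) / d) ^ 2 := by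
  refine ⟨(2 * Real.exp 8) ^ 2, by positivity, ?_⟩
  intro x k hx hk h hh hhx
  have hxr : (100000 : ℝ) ≤ x := by exact_mod_cast hx
  have hell1 : 1 ≤ Real.log (x : ℝ) := by
    rw [Real.le_log_iff_exp_le (by linarith)]
    have := Real.exp_one_lt_d9
    linarith
  have hL1 : 1 ≤ 2 ^ (k + 1) := Nat.one_le_two_pow
  have h1 := trunc_bound (h := h) (by omega) (2 ^ (k + 1)) hL1
  have h2 := card_primeFactors_le hh
  have h3 : Real.log h ≤ 2 * Real.log (x : ℝ) := by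
    have h4 : (h : ℝ) ≤ 2 * x := by exact_mod_cast hhx
    have h5 : Real.log h ≤ Real.log (2 * x) := Real.log_le_log (by exact_mod_cast hh) h4
    rw [Real.log_mul (by norm_num) (by linarith)] at h5
    have h6 := Real.log_two_lt_d9
    linarith
  have hl2 := Real.log_two_gt_d9
  have h4 : (h.primeFactors.card : ℝ) ≤ 4 * Real.log (x : ℝ) := by
    refine h2.trans ?_
    rw [div_le_iff₀ (by linarith)]
    nlinarith
  have hLr : (0 : ℝ) < ((2 ^ (k + 1) : ℕ) : ℝ) := by exact_mod_cast hL1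
  have h5 : 2 * (h.primeFactors.card : ℝ) / ((2 ^ (k + 1) : ℕ) : ℝ) ≤ 8 := by
    rw [div_le_iff₀ hLr]
    push_cast
    linarith
  have h6 : 0 ≤ ∑ d ∈ (primorial (2 ^ (k + 1))).divisors.filter (fun d => d ∣ h), (1 : ℝ) / d :=
    Finset.sum_nonneg (fun d _ => by positivity)
  have h7 : (h : ℝ) / (Nat.totient h : ℝ) ≤ 2 * Real.exp 8 *
      ∑ d ∈ (primorial (2 ^ (k + 1))).divisors.filter (fun d => d ∣ h), (1 : ℝ) / d := by
    refine h1.trans ?_
    have h8 : Real.exp (2 * (h.primeFactors.card : ℝ) / ((2 ^ (k + 1) : ℕ) : ℝ)) ≤ Real.exp 8 :=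
      Real.exp_le_exp.mpr h5
    exact mul_le_mul_of_nonneg_right (mul_le_mul_of_nonneg_left h8 (by norm_num)) h6
  have h9 : 0 ≤ (h : ℝ) / (Nat.totient h : ℝ) := by positivity
  have h10 := pow_le_pow_left₀ h9 h7 2
  rw [mul_pow] at h10
  exact h10

/-- mean square over the strips -/
theorem strips_bound : ∃ C₂ : ℝ, 0 < C₂ ∧ ∀ n M H : ℕ, 1 ≤ M → 1 ≤ H → H < n →
    100000 ≤ M * n → Real.log ((M * n : ℕ) : ℝ) ≤ (M : ℝ) * H →
    (∑ w ∈ (Finset.Icc 1 M) ×ˢ (Finset.Icc 1 H),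
      (((w.1 * n + w.2 : ℕ) : ℝ) / (Nat.totient (w.1 * n + w.2) : ℝ)) ^ 2 ≤ C₂ * (M * H)) ∧
    (∑ w ∈ (Finset.Icc 1 M) ×ˢ (Finset.Icc 1 H),
      (((w.1 * n - w.2 : ℕ) : ℝ) / (Nat.totient (w.1 * n - w.2) : ℝ)) ^ 2 ≤ C₂ * (M * H)) := by
  obtain ⟨C₃, hC₃, hprod⟩ := exists_prod_const
  obtain ⟨C₄, hC₄, hptc⟩ := exists_pt_const
  refine ⟨C₄ * (9 + C₃), by positivity, ?_⟩
  intro n M H hM hH hHn hx hl
  have hxr : (100000 : ℝ) ≤ ((M * n : ℕ) : ℝ) := by exact_mod_cast hx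
  have hell10 : 10 ≤ Real.log ((M * n : ℕ) : ℝ) := by
    rw [Real.le_log_iff_exp_le (by linarith)]
    have h1 : Real.exp 10 = (Real.exp 1) ^ 10 := by rw [← Real.exp_nat_mul]; norm_num
    have h2 : Real.exp 1 < 2.7182818286 := Real.exp_one_lt_d9
    have h3 : (Real.exp 1) ^ 10 ≤ (2.7182818286 : ℝ) ^ 10 := by gcongr
    have h4 : (2.7182818286 : ℝ) ^ 10 ≤ 100000 := by norm_num
    linarith
  have hn : 0 < n := by omega
  obtain ⟨k, hk1, hk2⟩ := exists_level hell10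
  have hPi2 := hprod k _ hell10 hk2
  have hpt := hptc (M * n) k hx hk1
  set Pi := ∏ p ∈ Nat.primesLE (2 ^ (k + 1)), (1 + (1 : ℝ) / p) with hPi
  have hMr0 : (0 : ℝ) ≤ M := Nat.cast_nonneg M
  have hHr0 : (0 : ℝ) ≤ H := Nat.cast_nonneg H
  have hmin : min (M : ℝ) H * Pi ^ 2 ≤ C₃ * (M * H) := by
    have h1 : √(Real.log ((M * n : ℕ) : ℝ)) ≤ max (M : ℝ) H := by
      rw [Real.sqrt_le_left (le_max_of_le_left hMr0)]
      refine hl.trans ?_
      rw [pow_two]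
      exact mul_le_mul (le_max_left _ _) (le_max_right _ _) hHr0 (le_max_of_le_left hMr0)
    have h2 : min (M : ℝ) H * max (M : ℝ) H = M * H := min_mul_max _ _
    have hm0 : 0 ≤ min (M : ℝ) H := le_min hMr0 hHr0
    calc min (M : ℝ) H * Pi ^ 2 ≤ min (M : ℝ) H * (C₃ * √(Real.log ((M * n : ℕ) : ℝ))) :=
          mul_le_mul_of_nonneg_left hPi2 hm0
      _ ≤ min (M : ℝ) H * (C₃ * max (M : ℝ) H) :=
          mul_le_mul_of_nonneg_left (mul_le_mul_of_nonneg_left h1 hC₃.le) hm0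
      _ = C₃ * (min (M : ℝ) H * max (M : ℝ) H) := by ring
      _ = _ := by rw [h2]
  have hMH : (0 : ℝ) ≤ (M : ℝ) * H := by positivity
  have hminn : (0 : ℝ) ≤ min (M : ℝ) H := le_min hMr0 hHr0
  have hle_x : ∀ w ∈ (Finset.Icc 1 M) ×ˢ (Finset.Icc 1 H), w.1 * n ≤ M * n ∧ n ≤ w.1 * n ∧
      1 ≤ w.2 ∧ w.2 ≤ H := by
    intro w hw
    rw [Finset.mem_product, Finset.mem_Icc, Finset.mem_Icc] at hw
    exact ⟨Nat.mul_le_mul_right n hw.1.2, Nat.le_mul_of_pos_left n (by omega), hw.2.1, hw.2.2⟩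
  have hfin : 9 * ((M : ℝ) * H) + min (M : ℝ) H * Pi ^ 2 ≤ (9 + C₃) * (M * H) := by linarith
  constructor
  · have hsm := second_moment ((Finset.Icc 1 M) ×ˢ (Finset.Icc 1 H)) (fun w => w.1 * n + w.2)
      (2 ^ (k + 1)) _ _ hMH hminn (fun l hl => card_strip_plus n M H l hl)
    calc ∑ w ∈ (Finset.Icc 1 M) ×ˢ (Finset.Icc 1 H),
        (((w.1 * n + w.2 : ℕ) : ℝ) / (Nat.totient (w.1 * n + w.2) : ℝ)) ^ 2
        ≤ ∑ w ∈ (Finset.Icc 1 M) ×ˢ (Finset.Icc 1 H), C₄ *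
          (∑ d ∈ (primorial (2 ^ (k + 1))).divisors.filter (fun d => d ∣ w.1 * n + w.2),
            (1 : ℝ) / d) ^ 2 := by
          apply Finset.sum_le_sum
          intro w hw
          obtain ⟨a1, a2, a3, a4⟩ := hle_x w hw
          exact hpt _ (by omega) (by omega)
      _ = C₄ * ∑ w ∈ (Finset.Icc 1 M) ×ˢ (Finset.Icc 1 H),
          (∑ d ∈ (primorial (2 ^ (k + 1))).divisors.filter (fun d => d ∣ w.1 * n + w.2),
            (1 : ℝ) / d) ^ 2 := by
          rw [Finset.mul_sum]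
      _ ≤ C₄ * (9 * (M * H) + min (M : ℝ) H * Pi ^ 2) := mul_le_mul_of_nonneg_left hsm hC₄.le
      _ ≤ C₄ * ((9 + C₃) * (M * H)) := mul_le_mul_of_nonneg_left hfin hC₄.le
      _ = _ := by ring
  · have hsm := second_moment ((Finset.Icc 1 M) ×ˢ (Finset.Icc 1 H)) (fun w => w.1 * n - w.2)
      (2 ^ (k + 1)) _ _ hMH hminn (fun l hl => card_strip_minus n M H l hHn hl)
    calc ∑ w ∈ (Finset.Icc 1 M) ×ˢ (Finset.Icc 1 H),
        (((w.1 * n - w.2 : ℕ) : ℝ) / (Nat.totient (w.1 * n - w.2) : ℝ)) ^ 2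
        ≤ ∑ w ∈ (Finset.Icc 1 M) ×ˢ (Finset.Icc 1 H), C₄ *
          (∑ d ∈ (primorial (2 ^ (k + 1))).divisors.filter (fun d => d ∣ w.1 * n - w.2),
            (1 : ℝ) / d) ^ 2 := by
          apply Finset.sum_le_sum
          intro w hw
          obtain ⟨a1, a2, a3, a4⟩ := hle_x w hw
          exact hpt _ (by omega) (by omega)
      _ = C₄ * ∑ w ∈ (Finset.Icc 1 M) ×ˢ (Finset.Icc 1 H),
          (∑ d ∈ (primorial (2 ^ (k + 1))).divisors.filter (fun d => d ∣ w.1 * n - w.2),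
            (1 : ℝ) / d) ^ 2 := by
          rw [Finset.mul_sum]
      _ ≤ C₄ * (9 * (M * H) + min (M : ℝ) H * Pi ^ 2) := mul_le_mul_of_nonneg_left hsm hC₄.le
      _ ≤ C₄ * ((9 + C₃) * (M * H)) := mul_le_mul_of_nonneg_left hfin hC₄.le
      _ = _ := by ring

end Pool.Agent.Work.MP_70e905_nt
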