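import Mathlib
import Pool.Agent.Work.MP_70e905_nt.RegimeB

open Finset Nat
open Pool.Agent.Work.Sieve

namespace Pool.Agent.Work.MP_70e905_nt

theorem sum_Icc_split (f : ℕ → ℝ) {t : ℕ} (H : ℕ) (hH : H ≤ t) :
    ∑ h ∈ Finset.Icc (t - H) (t + H), f h =
      f t + (∑ r ∈ Finset.Icc 1 H, f (t + r) + ∑ r ∈ Finset.Icc 1 H, f (t - r)) := by
  induction H with
  | zero => simp
  | succ k ih =>
    have hk := ih (by omega)
    have h1 : Finset.Icc (t - (k + 1)) (t + (k + 1)) =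
        insert (t - (k + 1)) (insert (t + (k + 1)) (Finset.Icc (t - k) (t + k))) := by
      ext y
      simp only [Finset.mem_Icc, Finset.mem_insert]
      omega
    rw [h1, Finset.sum_insert, Finset.sum_insert, hk, Finset.sum_Icc_succ_top (by omega),
      Finset.sum_Icc_succ_top (by omega)]
    · ring
    · simp only [Finset.mem_Icc]; omega
    · simp only [Finset.mem_Icc, Finset.mem_insert]; omega

theorem div_totient_mul_le {m n : ℕ} (hm : 0 < m) (hn : 0 < n) :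
    ((m * n : ℕ) : ℝ) / (Nat.totient (m * n) : ℝ) ≤
      ((n : ℝ) / (Nat.totient n : ℝ)) * ((m : ℝ) / (Nat.totient m : ℝ)) := by
  have h1 : (0 : ℝ) < Nat.totient m := by exact_mod_cast Nat.totient_pos.mpr hm
  have h2 : (0 : ℝ) < Nat.totient n := by exact_mod_cast Nat.totient_pos.mpr hn
  have h3 : (Nat.totient m : ℝ) * Nat.totient n ≤ Nat.totient (m * n) := by
    exact_mod_cast Nat.totient_super_multiplicative m n
  have h4 : (0 : ℝ) < (Nat.totient m : ℝ) * Nat.totient n := by positivity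
  calc ((m * n : ℕ) : ℝ) / (Nat.totient (m * n) : ℝ)
      ≤ ((m * n : ℕ) : ℝ) / ((Nat.totient m : ℝ) * Nat.totient n) := by
        gcongr
    _ = _ := by push_cast; field_simp

/-- Cauchy's inequality on `G × [1,H]` -/
theorem strip_cauchy (G : Finset ℕ) (M H : ℕ) (hG : G ⊆ Finset.Icc 1 M) (f : ℕ → ℕ → ℝ)
    (B : ℝ) (hB : ∑ w ∈ (Finset.Icc 1 M) ×ˢ (Finset.Icc 1 H), (f w.1 w.2) ^ 2 ≤ B) :
    (∑ m ∈ G, ∑ r ∈ Finset.Icc 1 H, f m r) ^ 2 ≤ ((G.card : ℝ) * H) * B := by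
  rw [← Finset.sum_product (s := G) (t := Finset.Icc 1 H) (f := fun w => f w.1 w.2)]
  refine (sq_sum_le_card_mul_sum_sq (s := G ×ˢ Finset.Icc 1 H) (f := fun w => f w.1 w.2)).trans ?_
  rw [Finset.card_product, Nat.card_Icc]
  push_cast
  have h1 : ∑ w ∈ G ×ˢ Finset.Icc 1 H, (f w.1 w.2) ^ 2 ≤ B := by
    refine le_trans ?_ hB
    apply Finset.sum_le_sum_of_subset_of_nonneg
    · exact Finset.product_subset_product_left hG
    · intro w _ _; positivity
  exact mul_le_mul_of_nonneg_left h1 (by positivity)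

/-- lower bound for the number of pairs of windows -/
theorem card_DZ_ge {n M H : ℕ} (hx : 100000 ≤ M * n) (hn : 0 < n)
    (hH : (H : ℝ) + 1 ≤ Real.log ((M * n : ℕ) : ℝ))
    (hHM : 248888 * Real.log ((M * n : ℕ) : ℝ) ≤ ((H : ℝ) + 1) * M) :
    (((M * n : ℕ) : ℝ) / (Real.log ((M * n : ℕ) : ℝ)) ^ 2) * (((H : ℝ) + 1) ^ 2 * M) /
      (4 * 124444 ^ 2) ≤ ((DZ H n (M * n)).card : ℝ) := by
  have hxr : (100000 : ℝ) ≤ ((M * n : ℕ) : ℝ) := by exact_mod_cast hx
  have hlog : 0 < Real.log ((M * n : ℕ) : ℝ) := Real.log_pos (by linarith)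
  have hnr : (0 : ℝ) < n := by exact_mod_cast hn
  have h1 := card_ZZ_ge hx hH
  have h2 := card_ZZ_sq_le hn H (M * n)
  have hxeq : ((M * n : ℕ) : ℝ) = (M : ℝ) * n := by push_cast; ring
  set ell := Real.log ((M * n : ℕ) : ℝ) with hell
  set W : ℝ := ((ZZ H (M * n)).card : ℝ) with hW
  set D : ℝ := ((DZ H n (M * n)).card : ℝ) with hD
  have hW2n : 2 * (n : ℝ) ≤ W := by
    refine le_trans ?_ h1
    rw [le_div_iff₀ (by positivity), hxeq]
    nlinarith
  have h3 : W ^ 2 ≤ 4 * n * D := by nlinarith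
  have h4 : (((H : ℝ) + 1) * ((M * n : ℕ) : ℝ) / (124444 * ell)) ^ 2 ≤ W ^ 2 := by
    gcongr
  have h5 : (((H : ℝ) + 1) * ((M * n : ℕ) : ℝ) / (124444 * ell)) ^ 2 =
      (4 * n) * ((((M * n : ℕ) : ℝ) / ell ^ 2) * (((H : ℝ) + 1) ^ 2 * M) / (4 * 124444 ^ 2)) := by
    rw [hxeq]
    field_simp
  rw [h5] at h4
  have h6 := h4.trans h3
  exact le_of_mul_le_mul_left h6 (by positivity)

open Classical in
/-- upper bound for the number of pairs of windows -/
theorem card_DZ_le_sum {n M H : ℕ} (hx : 100000 ≤ M * n) (hHn : H < n) (hM : 1 ≤ M) :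
    ((DZ H n (M * n)).card : ℝ) ≤
      432 * ((H : ℝ) + 1) * (((M * n : ℕ) : ℝ) / (Real.log ((M * n : ℕ) : ℝ)) ^ 2) *
      ∑ m ∈ (Finset.Icc 1 M).filter (fun m => GoodH H n (M * n + H) m),
        ∑ h ∈ Finset.Icc (m * n - H) (m * n + H), ((h : ℝ) / (Nat.totient h : ℝ)) := by
  refine (card_DZ_le (M := M) hHn).trans ?_
  rw [Finset.mul_sum]
  apply Finset.sum_le_sum
  intro m hm
  rw [Finset.mem_filter, Finset.mem_Icc] at hm
  have hnx : n ≤ M * n := Nat.le_mul_of_pos_left n (by omega)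
  have hmn : n ≤ m * n := Nat.le_mul_of_pos_left n (by omega)
  have h1 : ∑ h ∈ Finset.Icc (m * n - H) (m * n + H), (BB (M * n + H) h : ℝ) ≤
      432 * (((M * n : ℕ) : ℝ) / (Real.log ((M * n : ℕ) : ℝ)) ^ 2) *
        ∑ h ∈ Finset.Icc (m * n - H) (m * n + H), ((h : ℝ) / (Nat.totient h : ℝ)) := by
    rw [Finset.mul_sum]
    apply Finset.sum_le_sum
    intro h hh
    rw [Finset.mem_Icc] at hh
    exact BB_le hx (by omega) (by omega)
  have h2 : (0 : ℝ) ≤ (H : ℝ) + 1 := by positivity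
  refine (mul_le_mul_of_nonneg_left h1 h2).trans (le_of_eq ?_)
  ring

open Classical in
theorem regimeB : ∃ K c : ℝ, 0 < K ∧ 0 < c ∧ ∀ n M H : ℕ, 100000 ≤ M → 1 ≤ H → H < n →
    (H : ℝ) + 1 ≤ Real.log ((M * n : ℕ) : ℝ) →
    248888 * Real.log ((M * n : ℕ) : ℝ) ≤ ((H : ℝ) + 1) * M →
    K * ((n : ℝ) / (Nat.totient n : ℝ)) ≤ (H : ℝ) + 1 →
    c * M ≤ (((Finset.Icc 1 M).filter (fun m => GoodH H n (M * n + H) m)).card : ℝ) := by
  obtain ⟨C₂, hC₂, hstrip⟩ := strips_bound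
  refine ⟨72 * (1728 * 124444 ^ 2), 1 / (16 * C₂ * (1728 * 124444 ^ 2) ^ 2), by positivity,
    by positivity, ?_⟩
  intro n M H hM hH1 hHn hHl hHM hK
  have hn : 0 < n := by omega
  have hx : 100000 ≤ M * n := le_trans hM (Nat.le_mul_of_pos_right M hn)
  have hxr : (100000 : ℝ) ≤ ((M * n : ℕ) : ℝ) := by exact_mod_cast hx
  have hlog : 0 < Real.log ((M * n : ℕ) : ℝ) := Real.log_pos (by linarith)
  have hHr : (1 : ℝ) ≤ H := by exact_mod_cast hH1
  have hMr : (100000 : ℝ) ≤ M := by exact_mod_cast hM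
  have hge := card_DZ_ge hx hn hHl hHM
  have hle := card_DZ_le_sum hx hHn (by omega : 1 ≤ M)
  obtain ⟨hs1, hs2⟩ := hstrip n M H (by omega) hH1 hHn hx (by nlinarith)
  set G := (Finset.Icc 1 M).filter (fun m => GoodH H n (M * n + H) m) with hG
  have hGsub : G ⊆ Finset.Icc 1 M := Finset.filter_subset _ _
  set A := ((M * n : ℕ) : ℝ) / (Real.log ((M * n : ℕ) : ℝ)) ^ 2 with hA
  have hA0 : 0 < A := by positivity
  set T := ∑ m ∈ G, ∑ h ∈ Finset.Icc (m * n - H) (m * n + H), ((h : ℝ) / (Nat.totient h : ℝ))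
    with hT
  -- lower bound of T
  have hTge : ((H : ℝ) + 1) * M ≤ (1728 * 124444 ^ 2) * T := by
    have h1 := hge.trans hle
    have h2 : A * (((H : ℝ) + 1) ^ 2 * M) / (4 * 124444 ^ 2) =
        (A * ((H : ℝ) + 1) / (4 * 124444 ^ 2)) * (((H : ℝ) + 1) * M) := by ring
    have h3 : 432 * ((H : ℝ) + 1) * A * T =
        (A * ((H : ℝ) + 1) / (4 * 124444 ^ 2)) * ((1728 * 124444 ^ 2) * T) := by ring
    rw [h2, h3] at h1
    exact le_of_mul_le_mul_left h1 (by positivity)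
  -- split of T
  set T1 := ∑ m ∈ G, ∑ r ∈ Finset.Icc 1 H,
    (((m * n + r : ℕ) : ℝ) / (Nat.totient (m * n + r) : ℝ)) with hT1
  set T2 := ∑ m ∈ G, ∑ r ∈ Finset.Icc 1 H,
    (((m * n - r : ℕ) : ℝ) / (Nat.totient (m * n - r) : ℝ)) with hT2
  set T0 := ∑ m ∈ G, (((m * n : ℕ) : ℝ) / (Nat.totient (m * n) : ℝ)) with hT0
  have hsplit : T = T0 + (T1 + T2) := by
    rw [hT, hT0, hT1, hT2, ← Finset.sum_add_distrib, ← Finset.sum_add_distrib]
    apply Finset.sum_congr rfl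
    intro m hm
    have hm1 := hGsub hm
    rw [Finset.mem_Icc] at hm1
    have hmn : n ≤ m * n := Nat.le_mul_of_pos_left n (by omega)
    exact sum_Icc_split (fun h => ((h : ℝ) / (Nat.totient h : ℝ))) H (by omega)
  have hq : 0 ≤ (n : ℝ) / (Nat.totient n : ℝ) := by positivity
  have hT0le : T0 ≤ ((n : ℝ) / (Nat.totient n : ℝ)) * (36 * M) := by
    calc T0 ≤ ∑ m ∈ G, ((n : ℝ) / (Nat.totient n : ℝ)) * ((m : ℝ) / (Nat.totient m : ℝ)) := by
          apply Finset.sum_le_sum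
          intro m hm
          have hm1 := hGsub hm
          rw [Finset.mem_Icc] at hm1
          exact div_totient_mul_le (by omega) hn
      _ = ((n : ℝ) / (Nat.totient n : ℝ)) * ∑ m ∈ G, ((m : ℝ) / (Nat.totient m : ℝ)) := by
          rw [Finset.mul_sum]
      _ ≤ ((n : ℝ) / (Nat.totient n : ℝ)) * ∑ m ∈ Finset.Icc 1 M, ((m : ℝ) / (Nat.totient m : ℝ)) := by
          apply mul_le_mul_of_nonneg_left _ hq
          apply Finset.sum_le_sum_of_subset_of_nonneg hGsub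
          intro m _ _; positivity
      _ ≤ _ := mul_le_mul_of_nonneg_left (sum_div_totient_le M) hq
  have hT1sq := strip_cauchy G M H hGsub
    (fun m r => (((m * n + r : ℕ) : ℝ) / (Nat.totient (m * n + r) : ℝ))) _ hs1
  have hT2sq := strip_cauchy G M H hGsub
    (fun m r => (((m * n - r : ℕ) : ℝ) / (Nat.totient (m * n - r) : ℝ))) _ hs2
  rw [← hT1] at hT1sq
  rw [← hT2] at hT2sq
  set g : ℝ := (G.card : ℝ) with hg
  have hg0 : 0 ≤ g := Nat.cast_nonneg _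
  set E : ℝ := 1728 * 124444 ^ 2 with hE
  have hE0 : 0 < E := by positivity
  have hT0le2 : E * T0 ≤ ((H : ℝ) + 1) * M / 2 := by
    have h1 : E * T0 ≤ E * (((n : ℝ) / (Nat.totient n : ℝ)) * (36 * M)) :=
      mul_le_mul_of_nonneg_left hT0le hE0.le
    have h2 : E * (((n : ℝ) / (Nat.totient n : ℝ)) * (36 * M)) =
        (72 * E * ((n : ℝ) / (Nat.totient n : ℝ))) * M / 2 := by ring
    rw [h2] at h1
    refine h1.trans ?_
    have h3 := mul_le_mul_of_nonneg_right hK (by linarith : (0 : ℝ) ≤ M)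
    linarith
  have hmain : ((H : ℝ) + 1) * M / 2 ≤ E * (T1 + T2) := by
    rw [hsplit] at hTge
    linarith
  have hT10 : 0 ≤ T1 := by
    apply Finset.sum_nonneg; intro m _; apply Finset.sum_nonneg; intro r _; positivity
  have hT20 : 0 ≤ T2 := by
    apply Finset.sum_nonneg; intro m _; apply Finset.sum_nonneg; intro r _; positivity
  have hsum : (T1 + T2) ^ 2 ≤ 4 * ((g * H) * (C₂ * (M * H))) := by
    have h1 : (T1 + T2) ^ 2 ≤ 2 * T1 ^ 2 + 2 * T2 ^ 2 := by nlinarith [sq_nonneg (T1 - T2)]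
    linarith
  have hfin1 : (((H : ℝ) + 1) * M / 2) ^ 2 ≤ E ^ 2 * (4 * ((g * H) * (C₂ * (M * H)))) := by
    calc (((H : ℝ) + 1) * M / 2) ^ 2 ≤ (E * (T1 + T2)) ^ 2 := by
          apply pow_le_pow_left₀ (by positivity) hmain
      _ = E ^ 2 * (T1 + T2) ^ 2 := by ring
      _ ≤ _ := mul_le_mul_of_nonneg_left hsum (by positivity)
  have hfin2 : ((H : ℝ) * M / 2) ^ 2 ≤ (((H : ℝ) + 1) * M / 2) ^ 2 := by
    apply pow_le_pow_left₀ (by positivity)
    nlinarith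
  have hfin3 := hfin2.trans hfin1
  have hfin4 : ((H : ℝ) ^ 2 * M / 4) * M ≤ ((H : ℝ) ^ 2 * M / 4) * (16 * C₂ * E ^ 2 * g) := by
    calc ((H : ℝ) ^ 2 * M / 4) * M = ((H : ℝ) * M / 2) ^ 2 := by ring
      _ ≤ E ^ 2 * (4 * ((g * H) * (C₂ * (M * H)))) := hfin3
      _ = _ := by ring
  have hfin5 := le_of_mul_le_mul_left hfin4 (by positivity)
  rw [one_div, inv_mul_le_iff₀ (by positivity)]
  exact hfin5

end Pool.Agent.Work.MP_70e905_nt
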