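import Mathlib
import Pool.Agent.Work.Sieve.PairBound
import Pool.Agent.Work.Sieve.MeanPhi

open Finset Nat

namespace Pool.Agent.Work.MP_70e905_nt.Thin

/-- `h / φ(h)` -/
noncomputable def sg (h : ℕ) : ℝ := (h : ℝ) / (Nat.totient h : ℝ)

theorem sg_nonneg (h : ℕ) : 0 ≤ sg h := by unfold sg; positivity

/-- total weight over ordered pairs of distinct elements -/
noncomputable def energy (B : Finset ℕ) : ℝ :=
  ∑ q ∈ B, ∑ q' ∈ B.erase q, sg (max q q' - min q q')

theorem energy_nonneg (B : Finset ℕ) : 0 ≤ energy B :=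
  Finset.sum_nonneg fun _ _ => Finset.sum_nonneg fun _ _ => sg_nonneg _

theorem energy_erase (B : Finset ℕ) {a : ℕ} (ha : a ∈ B) :
    energy B = energy (B.erase a) + 2 * ∑ q' ∈ B.erase a, sg (max a q' - min a q') := by
  unfold energy
  rw [← Finset.add_sum_erase B _ ha]
  have h1 : ∀ q ∈ B.erase a, ∑ q' ∈ B.erase q, sg (max q q' - min q q') =
      sg (max a q - min a q) + ∑ q' ∈ (B.erase a).erase q, sg (max q q' - min q q') := by
    intro q hq
    have haq : a ∈ B.erase q := by
      rw [Finset.mem_erase] at hq ⊢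
      exact ⟨fun h => hq.1 h.symm, ha⟩
    rw [← Finset.add_sum_erase _ _ haq, max_comm, min_comm, Finset.erase_right_comm]
  rw [Finset.sum_congr rfl h1, Finset.sum_add_distrib]
  ring

/-- selecting a subset of prescribed size of small energy -/
theorem exists_subset (S : Finset ℕ) : ∀ m : ℕ, m ≤ S.card → ∃ B ⊆ S, B.card = m ∧
    energy B * ((S.card : ℝ) * ((S.card : ℝ) - 1)) ≤ energy S * ((m : ℝ) * ((m : ℝ) - 1)) := by
  intro m hm
  induction hk : S.card - m generalizing m with
  | zero =>
    refine ⟨S, Finset.Subset.refl _, by omega, ?_⟩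
    have : S.card = m := by omega
    rw [this]
  | succ k ih =>
    obtain ⟨B, hBS, hBc, hE⟩ := ih (m + 1) (by omega) (by omega)
    have hne : B.Nonempty := by
      rw [← Finset.card_pos]; omega
    -- element with the largest row
    set row : ℕ → ℝ := fun a => ∑ q' ∈ B.erase a, sg (max a q' - min a q') with hrow
    obtain ⟨a, ha, hmax⟩ := Finset.exists_max_image B row hne
    refine ⟨B.erase a, (Finset.erase_subset _ _).trans hBS, ?_, ?_⟩
    · rw [Finset.card_erase_of_mem ha, hBc]; omega
    · have h1 := energy_erase B ha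
      have h2 : energy B ≤ (m + 1) * row a := by
        have : energy B = ∑ q ∈ B, row q := rfl
        rw [this]
        calc ∑ q ∈ B, row q ≤ ∑ q ∈ B, row a := Finset.sum_le_sum fun q hq => hmax q hq
          _ = (m + 1) * row a := by rw [Finset.sum_const, hBc, nsmul_eq_mul]; push_cast; ring
      have h3 : energy (B.erase a) * (m + 1) ≤ energy B * (m - 1) := by
        have h4 : energy (B.erase a) = energy B - 2 * row a := by rw [h1]; ring
        rw [h4]
        nlinarith [h2]
      have hm0 : (0 : ℝ) ≤ m := by positivity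
      have hSn : (0 : ℝ) ≤ (S.card : ℝ) * ((S.card : ℝ) - 1) := by
        have : (1 : ℝ) ≤ S.card := by exact_mod_cast (by omega : 1 ≤ S.card)
        nlinarith
      push_cast at hE
      -- multiply by (m+1)
      rcases Nat.eq_zero_or_pos m with h0 | h0
      · subst h0
        have : energy (B.erase a) = 0 := by
          have h5 : (B.erase a).card = 0 := by rw [Finset.card_erase_of_mem ha, hBc]
          rw [Finset.card_eq_zero] at h5
          rw [h5]; simp [energy]
        rw [this]; simp
      · have hm1 : (1 : ℝ) ≤ m := by exact_mod_cast h0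
        have h6 : energy (B.erase a) * (m + 1) * ((S.card : ℝ) * ((S.card : ℝ) - 1)) ≤
            energy S * ((m : ℝ) * ((m : ℝ) - 1)) * (m + 1) := by
          calc energy (B.erase a) * (m + 1) * ((S.card : ℝ) * ((S.card : ℝ) - 1))
              ≤ energy B * (m - 1) * ((S.card : ℝ) * ((S.card : ℝ) - 1)) := by gcongr
            _ = (energy B * ((S.card : ℝ) * ((S.card : ℝ) - 1))) * (m - 1) := by ring
            _ ≤ (energy S * (((m : ℝ) + 1) * ((m : ℝ) + 1 - 1))) * (m - 1) := by
                apply mul_le_mul_of_nonneg_right hE (by linarith)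
            _ = energy S * ((m : ℝ) * ((m : ℝ) - 1)) * (m + 1) := by ring
        have hpos : (0 : ℝ) < m + 1 := by linarith
        nlinarith [h6]

/-- lower bound for the number of primes -/
theorem pi_lower {N : ℕ} (hN : 2 ^ 24 ≤ N) :
    (N : ℝ) / (2 * Real.log N) ≤ (N.primeCounting : ℝ) - √N := by
  have hNr : (2 : ℝ) ^ 24 ≤ N := by exact_mod_cast hN
  have hN0 : (0 : ℝ) < N := by linarith [show (0 : ℝ) < 2 ^ 24 by positivity]
  have hlog : 0 < Real.log N := Real.log_pos (by linarith [show (1 : ℝ) < 2 ^ 24 by norm_num])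
  have h1 := Chebyshev.pi_ge N
  rw [div_le_iff₀ hlog] at h1
  set s : ℝ := (N : ℝ) ^ ((1 : ℝ) / 4) with hs
  have hs64 : 64 ≤ s := by
    rw [hs]
    calc (64 : ℝ) = ((2 : ℝ) ^ 24) ^ ((1 : ℝ) / 4) := by
          rw [← Real.rpow_natCast, ← Real.rpow_mul (by norm_num)]
          norm_num
      _ ≤ _ := by gcongr
  have hs4 : s ^ 4 = N := by
    rw [hs, ← Real.rpow_natCast, ← Real.rpow_mul hN0.le]; norm_num
  have hs2 : √(N : ℝ) = s ^ 2 := by
    rw [← hs4, show s ^ 4 = (s ^ 2) ^ 2 by ring, Real.sqrt_sq (by positivity)]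
  have hl1 : Real.log N ≤ 4 * s := by
    have := Real.log_le_rpow_div hN0.le (show (0 : ℝ) < 1 / 4 by norm_num)
    rw [← hs] at this
    linarith
  have hl2 : Real.log (N + 1) ≤ Real.log N + 1 := by
    have h3 : Real.log (N + 1) ≤ Real.log (N * Real.exp 1) := by
      apply Real.log_le_log (by linarith)
      have : (2 : ℝ) ≤ Real.exp 1 := by
        have := Real.add_one_le_exp (1 : ℝ)
        linarith
      nlinarith
    rw [Real.log_mul hN0.ne' (Real.exp_pos _).ne', Real.log_exp] at h3
    exact h3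
  have hlog2 : (0.69 : ℝ) ≤ Real.log 2 := by linarith [Real.log_two_gt_d9]
  rw [hs2, div_le_iff₀ (by positivity)]
  have h4 : s ^ 2 * Real.log N ≤ 4 * s ^ 3 := by nlinarith [sq_nonneg s]
  have h5 : 4 * s ^ 3 ≤ s ^ 4 / 16 := by nlinarith [pow_pos (by linarith : (0 : ℝ) < s) 3]
  have h6 : 4 * s + 1 ≤ s ^ 4 / 16 := by nlinarith [pow_pos (by linarith : (0 : ℝ) < s) 3, sq_nonneg s, h5, mul_pos (by linarith : (0 : ℝ) < s) (by linarith : (0 : ℝ) < s)]
  have h7 : (N : ℝ) * Real.log 2 - Real.log (N + 1) ≤ N.primeCounting * Real.log N := h1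
  nlinarith

end Pool.Agent.Work.MP_70e905_nt.Thin
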