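import Mathlib
import Pool.Agent.Work.MP_70e905_nt.ThinA

open Finset Nat

namespace Pool.Agent.Work.MP_70e905_nt.Thin

/-- energy of a set of primes below `Y` -/
theorem energy_primes_le {Y : ℕ} (hY : 2 ≤ Y) (S : Finset ℕ) (hS : ∀ q ∈ S, q.Prime ∧ q ≤ Y) :
    energy S ≤ 15552 * ((Y : ℝ) / Real.log Y) ^ 2 := by
  classical
  have hYr : (2 : ℝ) ≤ Y := by exact_mod_cast hY
  have hlog : 0 < Real.log Y := Real.log_pos (by linarith)
  -- energy is twice the sum over q < q'
  have h1 : energy S ≤ 2 * ∑ q ∈ S, ∑ q' ∈ S.filter (fun q' => q < q'), sg (q' - q) := by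
    unfold energy
    have h2 : ∀ q ∈ S, ∑ q' ∈ S.erase q, sg (max q q' - min q q') =
        ∑ q' ∈ S.filter (fun q' => q < q'), sg (q' - q) +
        ∑ q' ∈ S.filter (fun q' => q' < q), sg (q - q') := by
      intro q hq
      have h3 : S.erase q = S.filter (fun q' => q < q') ∪ S.filter (fun q' => q' < q) := by
        ext x
        simp only [Finset.mem_erase, Finset.mem_union, Finset.mem_filter]
        constructor
        · rintro ⟨h, hx⟩
          rcases lt_or_gt_of_ne h with h | h
          · exact Or.inr ⟨hx, h⟩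
          · exact Or.inl ⟨hx, h⟩
        · rintro (⟨hx, h⟩ | ⟨hx, h⟩)
          · exact ⟨by omega, hx⟩
          · exact ⟨by omega, hx⟩
      rw [h3, Finset.sum_union]
      · congr 1
        · refine Finset.sum_congr rfl fun x hx => ?_
          rw [Finset.mem_filter] at hx
          rw [max_eq_right hx.2.le, min_eq_left hx.2.le]
        · refine Finset.sum_congr rfl fun x hx => ?_
          rw [Finset.mem_filter] at hx
          rw [max_eq_left hx.2.le, min_eq_right hx.2.le]
      · rw [Finset.disjoint_filter]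
        intro x _ h h'
        omega
    rw [Finset.sum_congr rfl h2, Finset.sum_add_distrib]
    have h4 : ∑ q ∈ S, ∑ q' ∈ S.filter (fun q' => q' < q), sg (q - q') =
        ∑ q ∈ S, ∑ q' ∈ S.filter (fun q' => q < q'), sg (q' - q) := by
      simp only [Finset.sum_filter]
      rw [Finset.sum_comm]
    rw [h4]
    linarith
  -- reorganise by the difference
  have h5 : ∑ q ∈ S, ∑ q' ∈ S.filter (fun q' => q < q'), sg (q' - q) ≤
      ∑ h ∈ Finset.Icc 1 Y, sg h *
        (((Finset.Icc 1 Y).filter (fun m : ℕ => m.Prime ∧ (m + h).Prime)).card : ℝ) := by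
    have h6 : ∀ q ∈ S, ∑ q' ∈ S.filter (fun q' => q < q'), sg (q' - q) ≤
        ∑ h ∈ Finset.Icc 1 Y, if (q + h).Prime then sg h else 0 := by
      intro q hq
      rw [← Finset.sum_filter]
      have himg : ∑ q' ∈ S.filter (fun q' => q < q'), sg (q' - q) =
          ∑ h ∈ (S.filter (fun q' => q < q')).image (fun q' => q' - q), sg h := by
        rw [Finset.sum_image]
        intro a ha b hb hab
        simp only [Finset.coe_filter, Set.mem_ofPred_eq] at ha hb
        simp only at hab
        omega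
      rw [himg]
      apply Finset.sum_le_sum_of_subset_of_nonneg
      · intro h hh
        rw [Finset.mem_image] at hh
        obtain ⟨q', hq', rfl⟩ := hh
        rw [Finset.mem_filter] at hq'
        have := hS q' hq'.1
        rw [Finset.mem_filter, Finset.mem_Icc]
        refine ⟨⟨by omega, by omega⟩, ?_⟩
        rw [show q + (q' - q) = q' by omega]
        exact this.1
      · intro _ _ _; exact sg_nonneg _
    calc ∑ q ∈ S, ∑ q' ∈ S.filter (fun q' => q < q'), sg (q' - q)
        ≤ ∑ q ∈ S, ∑ h ∈ Finset.Icc 1 Y, (if (q + h).Prime then sg h else 0) :=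
          Finset.sum_le_sum h6
      _ = ∑ h ∈ Finset.Icc 1 Y, ∑ q ∈ S, (if (q + h).Prime then sg h else 0) :=
          Finset.sum_comm
      _ ≤ _ := by
          refine Finset.sum_le_sum fun h _ => ?_
          rw [← Finset.sum_filter, Finset.sum_const, nsmul_eq_mul, mul_comm]
          apply mul_le_mul_of_nonneg_left _ (sg_nonneg h)
          have : (S.filter (fun q => (q + h).Prime)).card ≤
              ((Finset.Icc 1 Y).filter (fun m : ℕ => m.Prime ∧ (m + h).Prime)).card := by
            apply Finset.card_le_card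
            intro q hq
            rw [Finset.mem_filter] at hq ⊢
            have := hS q hq.1
            exact ⟨Finset.mem_Icc.2 ⟨this.1.one_lt.le, this.2⟩, this.1, hq.2⟩
          exact_mod_cast this
  have h7 : ∑ h ∈ Finset.Icc 1 Y, sg h *
        (((Finset.Icc 1 Y).filter (fun m : ℕ => m.Prime ∧ (m + h).Prime)).card : ℝ) ≤
      ∑ h ∈ Finset.Icc 1 Y, 216 * ((Y : ℝ) / (Real.log Y) ^ 2) * (sg h) ^ 2 := by
    refine Finset.sum_le_sum fun h hh => ?_
    rw [Finset.mem_Icc] at hh
    have := Sieve.pair_bound_shift (h := h) (by omega) hY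
    have h8 : 216 * ((Y : ℝ) / (Real.log Y) ^ 2) * (sg h) ^ 2 =
        sg h * (216 * ((h : ℝ) / (Nat.totient h : ℝ)) * ((Y : ℝ) / (Real.log Y) ^ 2)) := by
      unfold sg; ring
    rw [h8]
    exact mul_le_mul_of_nonneg_left this (sg_nonneg h)
  have h9 : ∑ h ∈ Finset.Icc 1 Y, 216 * ((Y : ℝ) / (Real.log Y) ^ 2) * (sg h) ^ 2 ≤
      216 * ((Y : ℝ) / (Real.log Y) ^ 2) * (36 * Y) := by
    rw [← Finset.mul_sum]
    apply mul_le_mul_of_nonneg_left _ (by positivity)
    exact Sieve.sum_sq_div_totient_le Y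
  have h10 : 2 * (216 * ((Y : ℝ) / (Real.log Y) ^ 2) * (36 * Y)) =
      15552 * ((Y : ℝ) / Real.log Y) ^ 2 := by
    field_simp
    ring
  linarith

/-- `S ↦ S²/(S+a)` monotonicity packaged as an inequality -/
theorem second_moment_ineq {Z S O s a : ℝ} (hs : 0 < s) (ha : 0 ≤ a) (hZ : 0 ≤ Z) (hsS : s ≤ S) (hOa : O ≤ a)
    (h : S ^ 2 ≤ Z * (S + O)) : s ^ 2 ≤ Z * (s + a) := by
  have hS : 0 < S := by linarith
  have h1 : S ^ 2 ≤ Z * (S + a) := h.trans (by gcongr)
  -- s^2 (S+a) ≤ S^2 (s+a)
  have h2 : s ^ 2 * (S + a) ≤ S ^ 2 * (s + a) := by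
    have : S ^ 2 * (s + a) - s ^ 2 * (S + a) = (S - s) * (S * s + a * (S + s)) := by ring
    nlinarith [mul_nonneg (sub_nonneg.2 hsS) (by positivity : 0 ≤ S * s + a * (S + s))]
  have h3 : s ^ 2 * (S + a) ≤ Z * (s + a) * (S + a) := by
    calc s ^ 2 * (S + a) ≤ S ^ 2 * (s + a) := h2
      _ ≤ (Z * (S + a)) * (s + a) := by gcongr
      _ = _ := by ring
  exact le_of_mul_le_mul_right h3 (by linarith)

/-- The second moment argument for a finite set `B` of odd primes. -/
theorem card_lower {N : ℕ} (hN : 2 ^ 24 ≤ N) (B : Finset ℕ)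
    (hB : ∀ q ∈ B, q.Prime ∧ 2 < q ∧ (q : ℝ) ≤ √N) (hne : B.Nonempty) (E : ℝ)
    (hE : energy B ≤ E * (B.card : ℝ) ^ 2) (hE1 : 1 ≤ E) (hBN : (B.card : ℝ) ≤ Real.log N) :
    ((B.card : ℝ) / Real.log N) * N / (4000 * E) ≤
      (((Finset.Icc 1 N).filter (fun n => Even n ∧ ∃ q ∈ B, (n + q).Prime)).card : ℝ) := by
  classical
  have hNr : (2 : ℝ) ^ 24 ≤ N := by exact_mod_cast hN
  have h24 : (2 : ℝ) < (2 : ℝ) ^ 24 := by norm_num
  have hN0 : (0 : ℝ) < N := by linarith
  have hlog : 0 < Real.log N := Real.log_pos (by linarith)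
  set b : ℝ := (B.card : ℝ) with hb
  have hb0 : 0 < b := by rw [hb]; exact_mod_cast hne.card_pos
  set Zs : Finset ℕ := (Finset.Icc 1 N).filter (fun n => Even n ∧ ∃ q ∈ B, (n + q).Prime) with hZs
  set r : ℕ → ℝ := fun n => ∑ q ∈ B, if (n + q).Prime then (1 : ℝ) else 0 with hr
  have hqN : ∀ q ∈ B, q ≤ N := by
    intro q hq
    have h1 := (hB q hq).2.2
    have h2 : √(N : ℝ) ≤ N := by
      rw [Real.sqrt_le_left hN0.le]
      nlinarith
    exact_mod_cast h1.trans h2
  -- r vanishes off Zs
  have hr0 : ∀ n ∈ Finset.Icc 1 N, n ∉ Zs → r n = 0 := by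
    intro n hn hnZ
    rw [hr]
    apply Finset.sum_eq_zero
    intro q hq
    rw [if_neg]
    intro hp
    apply hnZ
    rw [hZs, Finset.mem_filter]
    refine ⟨hn, ?_, q, hq, hp⟩
    have hq3 := hB q hq
    have hqodd : Odd q := hq3.1.odd_of_ne_two (by omega)
    have hpodd : Odd (n + q) := by
      apply hp.odd_of_ne_two
      rw [Finset.mem_Icc] at hn
      omega
    rw [Nat.odd_add] at hpodd
    by_contra hne
    rw [Nat.not_even_iff_odd] at hne
    exact (Nat.not_even_iff_odd.2 hqodd) (hpodd.1 hne)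
  have hsum1 : ∑ n ∈ Finset.Icc 1 N, r n = ∑ n ∈ Zs, r n := by
    symm
    apply Finset.sum_subset (Finset.filter_subset _ _)
    intro n hn hnZ
    exact hr0 n hn hnZ
  -- Cauchy-Schwarz
  have hCS : (∑ n ∈ Zs, r n) ^ 2 ≤ (Zs.card : ℝ) * ∑ n ∈ Zs, (r n) ^ 2 := by
    exact sq_sum_le_card_mul_sum_sq
  have hsq : ∑ n ∈ Zs, (r n) ^ 2 ≤ ∑ n ∈ Finset.Icc 1 N, (r n) ^ 2 :=
    Finset.sum_le_sum_of_subset_of_nonneg (Finset.filter_subset _ _) fun _ _ _ => sq_nonneg _
  -- first moment
  have hS : b * (N / (2 * Real.log N)) ≤ ∑ n ∈ Finset.Icc 1 N, r n := by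
    rw [hr]
    simp only
    rw [Finset.sum_comm]
    have hone : ∀ q ∈ B, (N : ℝ) / (2 * Real.log N) ≤
        ∑ n ∈ Finset.Icc 1 N, (if (n + q).Prime then (1 : ℝ) else 0) := by
      intro q hq
      have h1 := pi_lower hN
      refine h1.trans ?_
      rw [← Finset.sum_filter, Finset.sum_const, nsmul_eq_mul, mul_one]
      have h2 : (N.primeCounting : ℝ) ≤
          (((Finset.Icc 1 N).filter (fun n => (n + q).Prime)).card : ℝ) + q := by
        have h3 : N.primeCounting ≤ ((Finset.Icc 1 N).filter (fun n => (n + q).Prime)).card + q := by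
          rw [Nat.primeCounting, Nat.primeCounting', Nat.count_eq_card_filter_range]
          have hsub : (Finset.range (N + 1)).filter Nat.Prime ⊆
              ((Finset.Icc 1 N).filter (fun n => (n + q).Prime)).image (fun n => n + q) ∪
              Finset.Icc 1 q := by
            intro p hp
            rw [Finset.mem_filter, Finset.mem_range] at hp
            rw [Finset.mem_union]
            rcases Nat.lt_or_ge q p with h | h
            · left
              rw [Finset.mem_image]
              refine ⟨p - q, ?_, by omega⟩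
              rw [Finset.mem_filter, Finset.mem_Icc]
              refine ⟨⟨by omega, by omega⟩, ?_⟩
              rw [show p - q + q = p by omega]
              exact hp.2
            · right
              rw [Finset.mem_Icc]
              exact ⟨hp.2.one_lt.le, h⟩
          calc ((Finset.range (N + 1)).filter Nat.Prime).card ≤ _ := Finset.card_le_card hsub
            _ ≤ _ := Finset.card_union_le _ _
            _ ≤ _ := by
                have h5 := Finset.card_image_le (s := (Finset.Icc 1 N).filter (fun n => (n + q).Prime))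
                  (f := fun n => n + q)
                rw [Nat.card_Icc]
                omega
        exact_mod_cast h3
      have h4 := (hB q hq).2.2
      linarith
    calc b * (N / (2 * Real.log N)) = ∑ q ∈ B, (N : ℝ) / (2 * Real.log N) := by
          rw [Finset.sum_const, nsmul_eq_mul]
      _ ≤ _ := Finset.sum_le_sum hone
  -- second moment
  have hM : ∑ n ∈ Finset.Icc 1 N, (r n) ^ 2 ≤ ∑ n ∈ Finset.Icc 1 N, r n +
      432 * (N / (Real.log N) ^ 2) * energy B := by
    have h1 : ∀ n, (r n) ^ 2 = r n + ∑ q ∈ B, ∑ q' ∈ B.erase q,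
        (if (n + q).Prime ∧ (n + q').Prime then (1 : ℝ) else 0) := by
      intro n
      rw [hr]
      simp only
      rw [sq, Finset.sum_mul_sum, ← Finset.sum_add_distrib]
      refine Finset.sum_congr rfl fun q hq => ?_
      rw [← Finset.add_sum_erase B _ hq]
      congr 1
      · split_ifs <;> simp
      · refine Finset.sum_congr rfl fun q' _ => ?_
        by_cases h1 : (n + q).Prime <;> by_cases h2 : (n + q').Prime <;> simp [h1, h2]
    simp only [h1]
    rw [Finset.sum_add_distrib]
    gcongr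
    rw [Finset.sum_comm]
    unfold energy
    rw [Finset.mul_sum]
    refine Finset.sum_le_sum fun q hq => ?_
    rw [Finset.sum_comm, Finset.mul_sum]
    refine Finset.sum_le_sum fun q' hq' => ?_
    rw [Finset.mem_erase] at hq'
    rw [← Finset.sum_filter, Finset.sum_const, nsmul_eq_mul, mul_one]
    -- count n ≤ N with n+q, n+q' prime
    set u := min q q' with hu
    set v := max q q' with hv
    have huv : u < v := by
      rw [hu, hv]
      rcases lt_or_gt_of_ne hq'.1 with h | h
      · rw [min_eq_right h.le, max_eq_left h.le]; exact h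
      · rw [min_eq_left h.le, max_eq_right h.le]; exact h
    have huN : u ≤ N := (min_le_left _ _).trans (hqN q hq)
    have hcard : ((Finset.Icc 1 N).filter (fun n => (n + q).Prime ∧ (n + q').Prime)).card ≤
        ((Finset.Icc 1 (2 * N)).filter (fun m : ℕ => m.Prime ∧ (m + (v - u)).Prime)).card := by
      apply Finset.card_le_card_of_injOn (fun n => n + u)
      · intro n hn
        simp only [Finset.coe_filter, Finset.mem_Icc, Set.mem_ofPred_eq] at hn ⊢
        refine ⟨⟨by omega, by omega⟩, ?_, ?_⟩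
        · rcases le_total q q' with h | h
          · rw [hu, min_eq_left h]; exact hn.2.1
          · rw [hu, min_eq_right h]; exact hn.2.2
        · rw [show n + u + (v - u) = n + v by omega]
          rcases le_total q q' with h | h
          · rw [hv, max_eq_right h]; exact hn.2.2
          · rw [hv, max_eq_left h]; exact hn.2.1
      · intro a _ b _ hab
        simp only at hab
        omega
    have hpb := Sieve.pair_bound_shift (h := v - u) (by omega) (X := 2 * N) (by omega)
    have h2 : ((((Finset.Icc 1 N).filter (fun n => (n + q).Prime ∧ (n + q').Prime)).card : ℕ) : ℝ) ≤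
        216 * sg (v - u) * (((2 * N : ℕ) : ℝ) / (Real.log ((2 * N : ℕ) : ℝ)) ^ 2) := by
      refine le_trans ?_ hpb
      exact_mod_cast hcard
    refine h2.trans ?_
    have h3 : Real.log N ≤ Real.log ((2 * N : ℕ) : ℝ) := by
      apply Real.log_le_log hN0
      push_cast; linarith
    have h4 : ((2 * N : ℕ) : ℝ) / (Real.log ((2 * N : ℕ) : ℝ)) ^ 2 ≤ 2 * N / (Real.log N) ^ 2 := by
      push_cast at h3 ⊢
      gcongr
    calc 216 * sg (v - u) * (((2 * N : ℕ) : ℝ) / (Real.log ((2 * N : ℕ) : ℝ)) ^ 2)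
        ≤ 216 * sg (v - u) * (2 * N / (Real.log N) ^ 2) := by
          apply mul_le_mul_of_nonneg_left h4
          have := sg_nonneg (v - u)
          positivity
      _ = 432 * (N / (Real.log N) ^ 2) * sg (v - u) := by ring
  -- conclude
  set S := ∑ n ∈ Finset.Icc 1 N, r n with hSdef
  have hZ0 : (0 : ℝ) ≤ (Zs.card : ℝ) := by positivity
  have hmain : S ^ 2 ≤ (Zs.card : ℝ) * (S + 432 * (N / (Real.log N) ^ 2) * energy B) := by
    calc S ^ 2 = (∑ n ∈ Zs, r n) ^ 2 := by rw [hsum1]
      _ ≤ (Zs.card : ℝ) * ∑ n ∈ Zs, (r n) ^ 2 := hCS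
      _ ≤ (Zs.card : ℝ) * ∑ n ∈ Finset.Icc 1 N, (r n) ^ 2 := by gcongr
      _ ≤ _ := by gcongr
  have hO : 432 * (N / (Real.log N) ^ 2) * energy B ≤ 432 * (N / (Real.log N) ^ 2) * (E * b ^ 2) := by
    gcongr
  have hfin := second_moment_ineq (Z := (Zs.card : ℝ)) (S := S)
    (O := 432 * (N / (Real.log N) ^ 2) * energy B)
    (s := b * (N / (2 * Real.log N))) (a := 432 * (N / (Real.log N) ^ 2) * (E * b ^ 2))
    (by positivity) (by positivity) hZ0 hS hO hmain
  -- set t = b / log N
  set t : ℝ := b / Real.log N with ht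
  have ht0 : 0 < t := by positivity
  have ht1 : t ≤ 1 := by rw [ht, div_le_one hlog]; exact hBN
  have e1 : b * (N / (2 * Real.log N)) = t * N / 2 := by rw [ht]; field_simp
  have e2 : 432 * (N / (Real.log N) ^ 2) * (E * b ^ 2) = 432 * E * t ^ 2 * N := by
    rw [ht]; field_simp
  rw [e1, e2] at hfin
  -- (tN/2)^2 ≤ Z (tN/2 + 432 E t² N)
  have h5 : t * N / 2 + 432 * E * t ^ 2 * N ≤ (433 * E * t) * N := by
    have hEt : t ≤ E * t := by nlinarith
    have hEt2 : E * t ^ 2 ≤ E * t := by
      have : t ^ 2 ≤ t := by nlinarith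
      exact mul_le_mul_of_nonneg_left this (by linarith)
    have : t / 2 + 432 * E * t ^ 2 ≤ 433 * E * t := by nlinarith
    calc t * N / 2 + 432 * E * t ^ 2 * N = (t / 2 + 432 * E * t ^ 2) * N := by ring
      _ ≤ (433 * E * t) * N := by gcongr
  have h6 : (t * N / 2) ^ 2 ≤ (Zs.card : ℝ) * ((433 * E * t) * N) :=
    hfin.trans (by gcongr)
  rw [div_le_iff₀ (by positivity)]
  have h7 : (t * N) * (t * N) ≤ (t * N) * (Zs.card * (4000 * E)) := by
    nlinarith [mul_nonneg hZ0 (by positivity : 0 ≤ E * t * N)]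
  exact le_of_mul_le_mul_left h7 (by positivity)

end Pool.Agent.Work.MP_70e905_nt.Thin
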