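import Mathlib
import Pool.Agent.Work.MP_70e905_nt.ThinB

open Finset Nat

namespace Pool.Agent.Work.MP_70e905_nt.Thin

/-- primes in the block `(2^(2^i), 2^(2^(i+1))]` -/
def blk (i : ℕ) : Finset ℕ :=
  (Finset.Ioc (2 ^ 2 ^ i) (2 ^ 2 ^ (i + 1))).filter Nat.Prime

theorem mem_blk {i q : ℕ} : q ∈ blk i ↔ (2 ^ 2 ^ i < q ∧ q ≤ 2 ^ 2 ^ (i + 1)) ∧ q.Prime := by
  simp [blk]

theorem pow_index {i : ℕ} (hi : 4 ≤ i) : 2 * i + 2 ≤ 2 ^ (i + 1) := by
  induction i, hi using Nat.le_induction with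
  | base => norm_num
  | succ n hn ih => rw [pow_succ]; omega

theorem log_Y (i : ℕ) : Real.log ((2 ^ 2 ^ (i + 1) : ℕ) : ℝ) = 2 ^ (i + 1) * Real.log 2 := by
  push_cast
  rw [Real.log_pow]
  push_cast
  ring

theorem card_blk_ge {i : ℕ} (hi : 4 ≤ i) :
    ((2 ^ 2 ^ (i + 1) : ℕ) : ℝ) / (2 * Real.log ((2 ^ 2 ^ (i + 1) : ℕ) : ℝ)) ≤ ((blk i).card : ℝ) := by
  set Y : ℕ := 2 ^ 2 ^ (i + 1) with hY
  have h24 : 2 ^ 24 ≤ Y := by
    rw [hY]
    apply Nat.pow_le_pow_right (by norm_num)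
    have : 2 ^ 5 ≤ 2 ^ (i + 1) := Nat.pow_le_pow_right (by norm_num) (by omega)
    omega
  have h1 := pi_lower h24
  have hsq : √(Y : ℝ) = ((2 ^ 2 ^ i : ℕ) : ℝ) := by
    have : (Y : ℝ) = (((2 ^ 2 ^ i : ℕ) : ℝ)) ^ 2 := by
      rw [hY]; push_cast; rw [← pow_mul, ← pow_succ]
    rw [this, Real.sqrt_sq (by positivity)]
  rw [hsq] at h1
  refine h1.trans ?_
  have h2 : Y.primeCounting ≤ (blk i).card + 2 ^ 2 ^ i := by
    rw [Nat.primeCounting, Nat.primeCounting', Nat.count_eq_card_filter_range]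
    have hsub : (Finset.range (Y + 1)).filter Nat.Prime ⊆ blk i ∪ Finset.Icc 1 (2 ^ 2 ^ i) := by
      intro p hp
      rw [Finset.mem_filter, Finset.mem_range] at hp
      rw [Finset.mem_union, mem_blk, Finset.mem_Icc]
      rcases Nat.lt_or_ge (2 ^ 2 ^ i) p with h | h
      · left; exact ⟨⟨h, by omega⟩, hp.2⟩
      · right; exact ⟨hp.2.one_lt.le, h⟩
    calc _ ≤ _ := Finset.card_le_card hsub
      _ ≤ _ := Finset.card_union_le _ _
      _ = _ := by rw [Nat.card_Icc]; simp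
  have h3 : (Y.primeCounting : ℝ) ≤ ((blk i).card : ℝ) + ((2 ^ 2 ^ i : ℕ) : ℝ) := by exact_mod_cast h2
  linarith

/-- good subset of a block -/
theorem exists_good {i : ℕ} (hi : 4 ≤ i) {m : ℕ} (hm : m ≤ 2 ^ i) :
    ∃ B ⊆ blk i, B.card = m ∧ energy B ≤ 124416 * (m : ℝ) ^ 2 := by
  set Y : ℕ := 2 ^ 2 ^ (i + 1) with hY
  have hcard := card_blk_ge hi
  rw [← hY] at hcard
  have hlogY : Real.log (Y : ℝ) = 2 ^ (i + 1) * Real.log 2 := by rw [hY]; exact log_Y i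
  have hlog2 : Real.log 2 ≤ 0.7 := by linarith [Real.log_two_lt_d9]
  have hlog2p : 0 < Real.log 2 := Real.log_pos (by norm_num)
  have hYpos : (0 : ℝ) < Y := by rw [hY]; positivity
  have hlogpos : 0 < Real.log (Y : ℝ) := by rw [hlogY]; positivity
  -- 2 * 2^i ≤ card
  have hYge : (2 : ℝ) ^ (2 * i + 2) ≤ Y := by
    rw [hY]; push_cast
    exact pow_le_pow_right₀ (by norm_num) (pow_index hi)
  have hbig : (2 : ℝ) ^ i ≤ ((blk i).card : ℝ) := by
    refine le_trans ?_ hcard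
    rw [le_div_iff₀ (by positivity), hlogY]
    calc (2 : ℝ) ^ i * (2 * (2 ^ (i + 1) * Real.log 2)) = 2 ^ (2 * i + 2) * Real.log 2 := by ring
      _ ≤ 2 ^ (2 * i + 2) * 1 := by gcongr; linarith
      _ ≤ Y := by linarith
  have hmn : m ≤ (blk i).card := by
    have : (2 : ℕ) ^ i ≤ (blk i).card := by exact_mod_cast hbig
    omega
  obtain ⟨B, hB, hBc, hE⟩ := exists_subset (blk i) m hmn
  refine ⟨B, hB, hBc, ?_⟩
  have hES := energy_primes_le (Y := Y) (by
    rw [hY]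
    calc 2 = 2 ^ 1 := by norm_num
      _ ≤ _ := Nat.pow_le_pow_right (by norm_num) (Nat.one_le_two_pow)) (blk i)
    (fun q hq => ⟨(mem_blk.1 hq).2, (mem_blk.1 hq).1.2⟩)
  set n : ℝ := ((blk i).card : ℝ) with hn
  have hn16 : 16 ≤ n := by
    refine le_trans ?_ hbig
    calc (16 : ℝ) = 2 ^ 4 := by norm_num
      _ ≤ 2 ^ i := pow_le_pow_right₀ (by norm_num) hi
  have h1 : (Y : ℝ) / Real.log Y ≤ 2 * n := by
    rw [div_le_iff₀ hlogpos]
    rw [div_le_iff₀ (by positivity)] at hcard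
    linarith
  have h2 : energy (blk i) ≤ 62208 * n ^ 2 := by
    have h3 : ((Y : ℝ) / Real.log Y) ^ 2 ≤ (2 * n) ^ 2 := by gcongr
    calc energy (blk i) ≤ 15552 * ((Y : ℝ) / Real.log Y) ^ 2 := hES
      _ ≤ 15552 * (2 * n) ^ 2 := by gcongr
      _ = _ := by ring
  have hm0 : (0 : ℝ) ≤ m := by positivity
  have h4 : energy B * (n ^ 2 / 2) ≤ (62208 * n ^ 2) * (m : ℝ) ^ 2 := by
    have h5 : n ^ 2 / 2 ≤ n * (n - 1) := by nlinarith
    calc energy B * (n ^ 2 / 2) ≤ energy B * (n * (n - 1)) :=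
          mul_le_mul_of_nonneg_left h5 (energy_nonneg B)
      _ ≤ energy (blk i) * ((m : ℝ) * ((m : ℝ) - 1)) := hE
      _ ≤ energy (blk i) * ((m : ℝ) ^ 2) := by
          apply mul_le_mul_of_nonneg_left _ (energy_nonneg _)
          nlinarith
      _ ≤ _ := by gcongr
  have hn2 : 0 < n ^ 2 := by positivity
  nlinarith

theorem main : ∃ c : ℝ, 0 < c ∧ ∀ ε : ℝ, 0 < ε → ε ≤ 1 →
    ∃ Q : Set ℕ, (∀ q ∈ Q, q.Prime) ∧
      (∀ x : ℝ, 1 ≤ x → (({q ∈ Q | (q : ℝ) ≤ x}).ncard : ℝ) ≤ ε * Real.log x) ∧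
      ∃ y₀ : ℕ, ∀ y N : ℕ, y₀ ≤ y → y ≤ N →
        c * ε * (Real.log y / Real.log N) * N ≤ (({n : ℕ | 1 ≤ n ∧ n ≤ N ∧ Even n ∧
          ∃ p q : ℕ, p.Prime ∧ q ∈ Q ∧ q ≤ y ∧ n + q = p}).ncard : ℝ) := by
  classical
  refine ⟨1 / (48 * (4000 * 124416)), by norm_num, ?_⟩
  intro ε hε hε1
  have hex : ∀ i : ℕ, ∃ B : Finset ℕ, B ⊆ blk i ∧ (B.card : ℝ) ≤ ε / 4 * 2 ^ i ∧
      (4 ≤ i → B.card = ⌊ε / 4 * 2 ^ i⌋₊ ∧ energy B ≤ 124416 * (B.card : ℝ) ^ 2) := by
    intro i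
    have hnn : 0 ≤ ε / 4 * 2 ^ i := by positivity
    by_cases hi : 4 ≤ i
    · have hle : ⌊ε / 4 * 2 ^ i⌋₊ ≤ 2 ^ i := by
        have h1 : ε / 4 * 2 ^ i ≤ ((2 ^ i : ℕ) : ℝ) := by
          push_cast
          have : (0 : ℝ) < 2 ^ i := by positivity
          nlinarith
        exact Nat.floor_le_of_le h1
      obtain ⟨B, hB, hBc, hE⟩ := exists_good hi hle
      refine ⟨B, hB, ?_, fun _ => ⟨hBc, ?_⟩⟩
      · rw [hBc]; exact Nat.floor_le hnn
      · rw [hBc]; exact hE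
    · refine ⟨∅, by simp, by simpa using hnn, fun h => absurd h hi⟩
  choose B hBsub hBcard hBgood using hex
  set Q : Set ℕ := {q | ∃ i, q ∈ B i} with hQ
  refine ⟨Q, ?_, ?_, ?_⟩
  · rintro q ⟨i, hi⟩
    exact (mem_blk.1 (hBsub i hi)).2
  · intro x hx
    have hlogx : 0 ≤ Real.log x := Real.log_nonneg hx
    -- K minimal with x ≤ 2^(2^K)
    have hexK : ∃ K : ℕ, x ≤ (2 : ℝ) ^ 2 ^ K := by
      obtain ⟨n, hn⟩ := exists_nat_gt x
      refine ⟨n, hn.le.trans ?_⟩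
      have h1 : n < 2 ^ 2 ^ n := lt_trans Nat.lt_two_pow_self
        (Nat.pow_lt_pow_right (by norm_num) Nat.lt_two_pow_self)
      exact_mod_cast h1.le
    set K := Nat.find hexK with hK
    have hK1 : x ≤ (2 : ℝ) ^ 2 ^ K := Nat.find_spec hexK
    have hsub : {q ∈ Q | (q : ℝ) ≤ x} ⊆ (((Finset.range K).biUnion B : Finset ℕ) : Set ℕ) := by
      rintro q ⟨⟨i, hi⟩, hqx⟩
      rw [Finset.mem_coe, Finset.mem_biUnion]
      refine ⟨i, ?_, hi⟩
      rw [Finset.mem_range]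
      by_contra hcon
      push Not at hcon
      have h1 := (mem_blk.1 (hBsub i hi)).1.1
      have h2 : (2 : ℝ) ^ 2 ^ i < q := by exact_mod_cast h1
      have h3 : (2 : ℝ) ^ 2 ^ K ≤ (2 : ℝ) ^ 2 ^ i :=
        pow_le_pow_right₀ (by norm_num) (Nat.pow_le_pow_right (by norm_num) hcon)
      linarith
    have hcard : (({q ∈ Q | (q : ℝ) ≤ x}).ncard : ℝ) ≤ ε / 4 * 2 ^ K := by
      have h1 : ({q ∈ Q | (q : ℝ) ≤ x}).ncard ≤ ((Finset.range K).biUnion B).card := by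
        have := Set.ncard_le_ncard hsub (Finset.finite_toSet _)
        rwa [Set.ncard_coe_finset] at this
      have h2 : ((Finset.range K).biUnion B).card ≤ ∑ i ∈ Finset.range K, (B i).card :=
        Finset.card_biUnion_le
      have h3 : (∑ i ∈ Finset.range K, ((B i).card : ℝ)) ≤ ∑ i ∈ Finset.range K, ε / 4 * 2 ^ i :=
        Finset.sum_le_sum fun i _ => hBcard i
      have h4 : ∑ i ∈ Finset.range K, ε / 4 * (2 : ℝ) ^ i = ε / 4 * (2 ^ K - 1) := by
        rw [← Finset.mul_sum, geom_sum_eq (by norm_num)]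
        norm_num
      have h5 : (({q ∈ Q | (q : ℝ) ≤ x}).ncard : ℝ) ≤ ∑ i ∈ Finset.range K, ((B i).card : ℝ) := by
        exact_mod_cast h1.trans h2
      have : ε / 4 * (2 ^ K - 1) ≤ ε / 4 * (2 : ℝ) ^ K := by
        apply mul_le_mul_of_nonneg_left _ (by positivity); linarith
      linarith
    rcases Nat.eq_zero_or_pos K with h0 | h0
    · have hemp : {q ∈ Q | (q : ℝ) ≤ x} = ∅ := by
        rw [h0] at hsub
        simpa using hsub
      rw [hemp]
      simp only [Set.ncard_empty, Nat.cast_zero]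
      positivity
    · have h1 : ¬ (x ≤ (2 : ℝ) ^ 2 ^ (K - 1)) := Nat.find_min hexK (by omega)
      push Not at h1
      have h2 : (2 : ℝ) ^ (K - 1) * Real.log 2 ≤ Real.log x := by
        have := Real.log_le_log (by positivity) h1.le
        rw [Real.log_pow] at this
        push_cast at this
        exact this
      have hlog2 : (0.69 : ℝ) ≤ Real.log 2 := by linarith [Real.log_two_gt_d9]
      have h3 : (2 : ℝ) ^ K = 2 * 2 ^ (K - 1) := by
        obtain ⟨K', hK'⟩ : ∃ K', K = K' + 1 := ⟨K - 1, by omega⟩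
        rw [hK', Nat.add_sub_cancel, pow_succ]; ring
      rw [h3] at hcard
      have h4 : (0 : ℝ) < 2 ^ (K - 1) := by positivity
      have h5 : (2 : ℝ) ^ (K - 1) * 0.69 ≤ Real.log x := by nlinarith
      calc (({q ∈ Q | (q : ℝ) ≤ x}).ncard : ℝ) ≤ ε / 4 * (2 * 2 ^ (K - 1)) := hcard
        _ = ε * (2 ^ (K - 1) / 2) := by ring
        _ ≤ ε * Real.log x := by
            apply mul_le_mul_of_nonneg_left _ hε.le
            nlinarith
  · -- positive proportion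
    obtain ⟨i₁, hi₁⟩ : ∃ i₁ : ℕ, 4 / ε ≤ (2 : ℝ) ^ i₁ := by
      obtain ⟨n, hn⟩ := pow_unbounded_of_one_lt (4 / ε) (by norm_num : (1 : ℝ) < 2)
      exact ⟨n, hn.le⟩
    set i₂ := max i₁ 4 with hi₂
    refine ⟨2 ^ 2 ^ (i₂ + 2), ?_⟩
    intro y N hy hyN
    have hypos : 0 < y := lt_of_lt_of_le (by positivity) hy
    -- choose i
    set L := Nat.log 2 y with hL
    have hL1 : 2 ^ L ≤ y := Nat.pow_log_le_self 2 hypos.ne'
    have hL2 : y < 2 ^ (L + 1) := Nat.lt_pow_succ_log_self (by norm_num) y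
    have hLge : 2 ^ (i₂ + 2) ≤ L := by
      rw [hL]
      exact Nat.le_log_of_pow_le (by norm_num) hy
    set J := Nat.log 2 L with hJ
    have hLpos : L ≠ 0 := by
      have : 0 < 2 ^ (i₂ + 2) := by positivity
      omega
    have hJ1 : 2 ^ J ≤ L := Nat.pow_log_le_self 2 hLpos
    have hJ2 : L < 2 ^ (J + 1) := Nat.lt_pow_succ_log_self (by norm_num) L
    have hJge : i₂ + 2 ≤ J := by
      rw [hJ]
      exact Nat.le_log_of_pow_le (by norm_num) hLge
    obtain ⟨i, hi⟩ : ∃ i, J = i + 2 := ⟨J - 2, by omega⟩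
    have hii : i₂ ≤ i := by omega
    have hi4 : 4 ≤ i := le_trans (le_max_right _ _) hii
    have hylow : 2 ^ 2 ^ (i + 2) ≤ y := by
      rw [← hi]
      exact (Nat.pow_le_pow_right (by norm_num) hJ1).trans hL1
    have hyup : y < 2 ^ 2 ^ (i + 3) := by
      refine hL2.trans_le (Nat.pow_le_pow_right (by norm_num) ?_)
      rw [show i + 3 = J + 1 by omega]
      omega
    have hNlow : 2 ^ 2 ^ (i + 2) ≤ N := hylow.trans hyN
    obtain ⟨hBc, hBE⟩ := hBgood i hi4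
    -- size of b
    have hpow : 1 ≤ ε / 4 * 2 ^ i := by
      have h1 : (2 : ℝ) ^ i₁ ≤ 2 ^ i := pow_le_pow_right₀ (by norm_num) ((le_max_left _ _).trans hii)
      have h2 : 4 / ε ≤ 2 ^ i := hi₁.trans h1
      rw [div_le_iff₀ hε] at h2
      linarith
    have hbge : ε / 8 * 2 ^ i ≤ ((B i).card : ℝ) := by
      rw [hBc]
      have h1 := Nat.lt_floor_add_one (ε / 4 * 2 ^ i)
      have h2 : (1 : ℝ) ≤ (⌊ε / 4 * 2 ^ i⌋₊ : ℝ) := by
        exact_mod_cast (Nat.one_le_floor_iff _).2 hpow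
      linarith
    have hNr : ((2 : ℝ)) ^ 2 ^ (i + 2) ≤ N := by exact_mod_cast hNlow
    have hyr : ((2 : ℝ)) ^ 2 ^ (i + 2) ≤ y := by exact_mod_cast hylow
    have hyr2 : (y : ℝ) < 2 ^ 2 ^ (i + 3) := by exact_mod_cast hyup
    have hy0 : (0 : ℝ) < y := by exact_mod_cast hypos
    have hN0 : (0 : ℝ) < N := lt_of_lt_of_le hy0 (by exact_mod_cast hyN)
    have hN24 : 2 ^ 24 ≤ N := by
      refine le_trans (Nat.pow_le_pow_right (by norm_num) ?_) hNlow
      have : 2 ^ 6 ≤ 2 ^ (i + 2) := Nat.pow_le_pow_right (by norm_num) (by omega)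
      omega
    have hlogN1 : 2 ^ (i + 2) * Real.log 2 ≤ Real.log N := by
      have := Real.log_le_log (by positivity) hNr
      rw [Real.log_pow] at this
      push_cast at this
      exact this
    have hlogy2 : Real.log y ≤ 2 ^ (i + 3) * Real.log 2 := by
      have := Real.log_le_log hy0 hyr2.le
      rw [Real.log_pow] at this
      push_cast at this
      exact this
    have hlog2 : (0.69 : ℝ) ≤ Real.log 2 := by linarith [Real.log_two_gt_d9]
    have hlog2' : Real.log 2 ≤ 0.7 := by linarith [Real.log_two_lt_d9]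
    have h2i : (0 : ℝ) < 2 ^ i := by positivity
    have hlogNpos : 0 < Real.log N := by
      refine lt_of_lt_of_le ?_ hlogN1
      positivity
    have hsqrt : (2 : ℝ) ^ 2 ^ (i + 1) ≤ √(N : ℝ) := by
      apply Real.le_sqrt_of_sq_le
      rw [← pow_mul, ← pow_succ]
      exact hNr
    have hBy : ∀ q ∈ B i, q ≤ y := by
      intro q hq
      refine (mem_blk.1 (hBsub i hq)).1.2.trans (le_trans ?_ hylow)
      exact Nat.pow_le_pow_right (by norm_num) (Nat.pow_le_pow_right (by norm_num) (by omega))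
    have hBprop : ∀ q ∈ B i, q.Prime ∧ 2 < q ∧ (q : ℝ) ≤ √N := by
      intro q hq
      have h1 := mem_blk.1 (hBsub i hq)
      refine ⟨h1.2, ?_, ?_⟩
      · have : 2 ^ 1 ≤ 2 ^ 2 ^ i := Nat.pow_le_pow_right (by norm_num) Nat.one_le_two_pow
        omega
      · refine le_trans ?_ hsqrt
        exact_mod_cast h1.1.2
    have hne : (B i).Nonempty := by
      rw [← Finset.card_pos]
      have : (0 : ℝ) < (B i).card := lt_of_lt_of_le (by positivity) hbge
      exact_mod_cast this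
    have hBN : ((B i).card : ℝ) ≤ Real.log N := by
      refine (hBcard i).trans (le_trans ?_ hlogN1)
      have : (2 : ℝ) ^ (i + 2) = 4 * 2 ^ i := by ring
      rw [this]
      nlinarith
    have hmain := card_lower hN24 (B i) hBprop hne 124416 hBE (by norm_num) hBN
    have hcount : (((Finset.Icc 1 N).filter (fun n => Even n ∧ ∃ q ∈ B i, (n + q).Prime)).card : ℝ) ≤
        (({n : ℕ | 1 ≤ n ∧ n ≤ N ∧ Even n ∧
          ∃ p q : ℕ, p.Prime ∧ q ∈ Q ∧ q ≤ y ∧ n + q = p}).ncard : ℝ) := by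
      have hfin : ({n : ℕ | 1 ≤ n ∧ n ≤ N ∧ Even n ∧
          ∃ p q : ℕ, p.Prime ∧ q ∈ Q ∧ q ≤ y ∧ n + q = p}).Finite := by
        apply (Finset.finite_toSet (Finset.Icc 1 N)).subset
        rintro n ⟨h1, h2, -⟩
        simp [h1, h2]
      have hsub : (((Finset.Icc 1 N).filter (fun n => Even n ∧ ∃ q ∈ B i, (n + q).Prime) :
          Finset ℕ) : Set ℕ) ⊆ {n : ℕ | 1 ≤ n ∧ n ≤ N ∧ Even n ∧
          ∃ p q : ℕ, p.Prime ∧ q ∈ Q ∧ q ≤ y ∧ n + q = p} := by
        intro n hn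
        rw [Finset.mem_coe, Finset.mem_filter, Finset.mem_Icc] at hn
        obtain ⟨⟨h1, h2⟩, h3, q, hq, hp⟩ := hn
        exact ⟨h1, h2, h3, n + q, q, hp, ⟨i, hq⟩, hBy q hq, rfl⟩
      have := Set.ncard_le_ncard hsub hfin
      rw [Set.ncard_coe_finset] at this
      exact_mod_cast this
    refine le_trans ?_ (hmain.trans hcount)
    have ht : ε / 48 * (Real.log y / Real.log N) ≤ ((B i).card : ℝ) / Real.log N := by
      rw [mul_div_assoc', div_le_div_iff_of_pos_right hlogNpos]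
      have h8 : (2 : ℝ) ^ (i + 3) = 8 * 2 ^ i := by ring
      rw [h8] at hlogy2
      have h9 : Real.log y ≤ 5.6 * 2 ^ i := by nlinarith
      calc ε / 48 * Real.log y ≤ ε / 48 * (5.6 * 2 ^ i) := by gcongr
        _ ≤ ε / 8 * 2 ^ i := by nlinarith [mul_pos hε h2i]
        _ ≤ _ := hbge
    calc 1 / (48 * (4000 * 124416)) * ε * (Real.log y / Real.log N) * N =
          (ε / 48 * (Real.log y / Real.log N)) * N / (4000 * 124416) := by ring
      _ ≤ ((B i).card : ℝ) / Real.log N * N / (4000 * 124416) := by gcongr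

end Pool.Agent.Work.MP_70e905_nt.Thin
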